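import Pool.Agent.Y402.CN.Chains

/-!
# Functions on pairs which are differences on the triples without holonomy
-/

set_option autoImplicit false

namespace Pool.Agent.Y402.CN

open Classical Finset

noncomputable section

/-- a symmetric function `E` which is additive on the triples without holonomy -/
structure Tri (V M Q : Type) [AddCommGroup M] [AddCommGroup Q] [Module (ZMod 2) Q] where
  d : V → V → M
  E : V → V → Q
  alt : ∀ u v, d u v = - d v u
  diag : ∀ u, d u u = 0
  P2 : ∀ (F : Finset V) (g : V → M), ∃ w, ∀ u ∈ F, d w u = g u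
  div : ∀ m : M, ∃ k, k + k = m
  symm : ∀ x y, E x y = E y x
  zero : ∀ x y z, d x y + d y z = d x z → E x y + E y z + E x z = 0

variable {V M Q : Type} [AddCommGroup M] [AddCommGroup Q] [Module (ZMod 2) Q] (L : Tri V M Q)

namespace Tri

/-- triangles -/
def TT (x y z : V) : Q := L.E x y + L.E y z + L.E x z

theorem TT_rot (x y z : V) : L.TT x y z = L.TT y z x := by
  unfold TT
  rw [L.symm x z, L.symm x y]
  abel

theorem TT_four (w x y z : V) :
    L.TT x y z = L.TT w x y + L.TT w y z + L.TT w x z := by
  unfold TT
  apply eq_of_add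
  rw [show L.E x y + L.E y z + L.E x z +
    (L.E w x + L.E x y + L.E w y + (L.E w y + L.E y z + L.E w z) +
      (L.E w x + L.E x z + L.E w z)) =
    (L.E x y + L.E x y) + (L.E y z + L.E y z) + (L.E x z + L.E x z) +
    (L.E w x + L.E w x) + (L.E w y + L.E w y) + (L.E w z + L.E w z) by abel]
  simp only [add_self', add_zero]

theorem TT_zero (x y z : V) (h : L.d x y + L.d y z = L.d x z) : L.TT x y z = 0 := L.zero x y z h

/-- the holonomy -/
def hol (x y z : V) : M := L.d x y + L.d y z + L.d z x

theorem hol_rot (x y z : V) : L.hol x y z = L.hol y z x := by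
  unfold hol; abel

theorem TT_zero' (x y z : V) (h : L.hol x y z = 0) : L.TT x y z = 0 := by
  apply TT_zero
  unfold hol at h
  rw [L.alt z x] at h
  rw [← sub_eq_zero, sub_eq_add_neg]
  exact h

/-- two triangles with a common edge and the same holonomy -/
theorem B0 (x z y w : V) (h : L.hol x y w = L.hol z y w) : L.TT x y w = L.TT z y w := by
  -- a vertex in the position of `x`
  have key : ∀ a, L.hol a y w = L.hol x y w → ∀ u, L.d u y = L.d x y → L.d u w = L.d x w →
      L.d u a = L.d x y - L.d a y → L.TT a y w = L.TT u y w := by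
    intro a ha u h1 h2 h3
    rw [L.TT_four u a y w]
    have e1 : L.TT u a y = 0 := by
      apply TT_zero
      rw [h3, h1]; abel
    have e2 : L.TT u a w = 0 := by
      apply TT_zero
      rw [h3, h2]
      unfold hol at ha
      rw [L.alt w a, L.alt w x] at ha
      have : L.d a y - L.d a w = L.d x y - L.d x w := by
        have h4 : L.d a y + L.d y w + -L.d a w - L.d y w = L.d x y + L.d y w + -L.d x w - L.d y w := by
          rw [ha]
        have h5 : L.d a y + L.d y w + -L.d a w - L.d y w = L.d a y - L.d a w := by abel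
        have h6 : L.d x y + L.d y w + -L.d x w - L.d y w = L.d x y - L.d x w := by abel
        rw [← h5, ← h6, h4]
      have h7 : L.d x y - L.d a y + L.d a w = L.d x y - (L.d a y - L.d a w) := by abel
      rw [h7, this]; abel
    rw [e1, e2, zero_add, add_zero]
  obtain ⟨u, hu⟩ := L.P2 {x, z, y, w} (fun v => if v = y then L.d x y else if v = w then L.d x w
    else L.d x y - L.d v y)
  have hy : L.d u y = L.d x y := by rw [hu y (by simp)]; simp
  have hw : L.d u w = L.d x w := by
    rw [hu w (by simp)]
    by_cases h1 : w = y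
    · rw [if_pos h1, h1]
    · rw [if_neg h1, if_pos rfl]
  have hgen : ∀ a ∈ ({x, z, y, w} : Finset V), L.hol a y w = L.hol x y w →
      L.d u a = L.d x y - L.d a y := by
    intro a ha ha'
    by_cases h1 : a = y
    · subst h1
      rw [hy, L.diag, sub_zero]
    · by_cases h2 : a = w
      · subst h2
        rw [hw]
        unfold hol at ha'
        rw [L.diag, L.alt a x, add_zero] at ha'
        rw [L.alt y a] at ha'
        have h4 : L.d x y + -L.d a y + -L.d x a + L.d x a = L.d a y + -L.d a y + L.d x a := by
          rw [← ha']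
        have h5 : L.d x y + -L.d a y + -L.d x a + L.d x a = L.d x y - L.d a y := by abel
        have h6 : L.d a y + -L.d a y + L.d x a = L.d x a := by abel
        rw [← h5, h4, h6]
      · rw [hu a ha, if_neg h1, if_neg h2]
  rw [key x rfl u hy hw (hgen x (by simp) rfl), key z h.symm u hy hw (hgen z (by simp) h.symm)]

/-- the class depends only on the third vertex and the holonomy -/
theorem B1 (u x v y z : V) (h : L.hol u x z = L.hol v y z) : L.TT u x z = L.TT v y z := by
  obtain ⟨p, hp⟩ := L.P2 {x, y, z} (fun a => if a = z then 0 else L.hol u x z - L.d a z)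
  have hz : L.d p z = 0 := by rw [hp z (by simp)]; simp
  have hx : x ≠ z → L.hol p x z = L.hol u x z := by
    intro hxz
    have h1 : L.d p x = L.hol u x z - L.d x z := by
      rw [hp x (by simp), if_neg hxz]
    have h2 : L.hol p x z = L.d p x + L.d x z - L.d p z := by
      unfold hol; rw [L.alt z p]; abel
    rw [h2, h1, hz]; abel
  have hy : y ≠ z → L.hol p y z = L.hol u x z := by
    intro hxz
    have h1 : L.d p y = L.hol u x z - L.d y z := by
      rw [hp y (by simp), if_neg hxz]
    have h2 : L.hol p y z = L.d p y + L.d y z - L.d p z := by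
      unfold hol; rw [L.alt z p]; abel
    rw [h2, h1, hz]; abel
  have hdeg : ∀ a b, L.hol a b b = 0 := by
    intro a b
    unfold hol
    rw [L.diag, L.alt b a]; abel
  have hdeg' : ∀ a b, L.TT a b b = 0 := fun a b => L.TT_zero' a b b (hdeg a b)
  by_cases hxz : x = z
  · subst hxz
    rw [hdeg] at h
    rw [hdeg', L.TT_zero' v y x h.symm]
  · by_cases hyz : y = z
    · subst hyz
      rw [hdeg] at h
      rw [hdeg', L.TT_zero' u x y h]
    · rw [L.B0 u p x z (hx hxz).symm, L.B0 v p y z (by rw [hy hyz, h])]
      -- change the second vertex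
      have h1 : L.hol x z p = L.hol y z p := by
        rw [← L.hol_rot p x z, ← L.hol_rot p y z, hx hxz, hy hyz]
      rw [L.TT_rot p x z, L.TT_rot p y z]
      exact L.B0 x y z p h1

/-- the class depends only on the holonomy -/
theorem B2 (a b c a' b' c' : V) (h : L.hol a b c = L.hol a' b' c') :
    L.TT a b c = L.TT a' b' c' := by
  by_cases hc : c = c'
  · subst hc
    exact L.B1 a b a' b' c h
  · obtain ⟨p, hp⟩ := L.P2 {c, c'} (fun v => if v = c then 0 else L.hol a b c - L.d c' c)
    have h1 : L.d p c = 0 := by rw [hp c (by simp)]; simp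
    have h2 : L.d p c' = L.hol a b c - L.d c' c := by
      rw [hp c' (by simp), if_neg (Ne.symm hc)]
    have h3 : L.hol p c' c = L.hol a b c := by
      have : L.hol p c' c = L.d p c' + L.d c' c - L.d p c := by
        unfold hol; rw [L.alt c p]; abel
      rw [this, h1, h2]; abel
    rw [L.B1 a b p c' c h3.symm, TT_rot, TT_rot]
    apply B1
    rw [← hol_rot, ← hol_rot, h3, h]

/-- all triangles are trivial -/
theorem TT_all (x y z : V) : L.TT x y z = 0 := by
  by_cases hyx : y = x
  · subst hyx
    apply TT_zero; rw [L.diag, zero_add]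
  by_cases hyz : y = z
  · subst hyz
    apply TT_zero; rw [L.diag, add_zero]
  by_cases hxz : x = z
  · subst hxz
    apply TT_zero; rw [L.diag, L.alt x y]; abel
  obtain ⟨k, hk⟩ := L.div (L.hol x y z)
  obtain ⟨w, hw⟩ := L.P2 {x, y, z} (fun v => if v = y then 0 else if v = x then k - L.d x y
    else L.d y z - k)
  have h1 : L.d w y = 0 := by rw [hw y (by simp)]; simp
  have h2 : L.d w x = k - L.d x y := by
    rw [hw x (by simp), if_neg (Ne.symm hyx), if_pos rfl]
  have h3 : L.d w z = L.d y z - k := by
    rw [hw z (by simp), if_neg (Ne.symm hyz), if_neg (Ne.symm hxz)]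
  have e1 : L.hol w x y = k := by
    unfold hol; rw [L.alt y w, h1, h2]; abel
  have e2 : L.hol w y z = k := by
    unfold hol; rw [L.alt z w, h1, h3]; abel
  have e3 : L.TT w x z = 0 := by
    apply TT_zero
    rw [h2, h3]
    unfold hol at hk
    have h4 : k - L.d x y + L.d x z - (L.d y z - k) = k + k - (L.d x y + L.d y z + L.d z x) := by
      rw [L.alt z x]; abel
    rw [← sub_eq_zero, h4, hk, sub_self]
  rw [L.TT_four w x y z, e3, add_zero, L.B2 w x y w y z (by rw [e1, e2]), add_self']

theorem E_self (a : V) : L.E a a = 0 := by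
  have := L.zero a a a (by rw [L.diag, add_zero])
  rwa [add_self', zero_add] at this

/-- `E` is a difference -/
theorem E_diff (a0 a a' : V) : L.E a a' = L.E a0 a + L.E a0 a' := by
  have := L.TT_all a0 a a'
  unfold TT at this
  apply eq_of_add
  rw [← this]
  abel

end Tri

end

end Pool.Agent.Y402.CN
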