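import Pool.Agent.Y402.CN.HomLow
import Pool.Agent.Y402.CN.Tri

/-!
# The homology of `B(G)` for a universal labelled graph
-/

set_option autoImplicit false

namespace Pool.Agent.Y402.CN

open Classical Finset

attribute [-instance] instDecidableEqProd

noncomputable section

variable {V M : Type} {G : SimpleGraph V} [AddCommGroup M] {τ : M}

theorem boxB3l {a a' b : V} (h : G.Adj a b) (h' : G.Adj a' b) :
    BoxB G {(a, false), (a', false), (b, true)} := by
  refine ⟨box3l h h', ⟨b, fun v hv => ?_⟩, ⟨a, fun v hv => ?_⟩⟩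
  · simp only [Finset.mem_insert, Finset.mem_singleton, Prod.mk.injEq, Bool.false_eq_true,
      and_false, and_true, or_false] at hv
    rcases hv with rfl | rfl <;> assumption
  · simp only [Finset.mem_insert, Finset.mem_singleton, Prod.mk.injEq, Bool.true_eq_false,
      and_false, and_true, false_or] at hv
    subst hv; exact h

theorem boxB3r {a b b' : V} (h : G.Adj a b) (h' : G.Adj a b') :
    BoxB G {(a, false), (b, true), (b', true)} := by
  refine ⟨?_, ⟨b, fun v hv => ?_⟩, ⟨a, fun v hv => ?_⟩⟩
  · intro v w hv hw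
    simp only [Finset.mem_insert, Finset.mem_singleton, Prod.mk.injEq, Bool.false_eq_true,
      Bool.true_eq_false, and_false, and_true, or_false, false_or] at hv hw
    subst hv
    rcases hw with rfl | rfl <;> assumption
  · simp only [Finset.mem_insert, Finset.mem_singleton, Prod.mk.injEq, Bool.false_eq_true,
      and_false, and_true, or_false] at hv
    subst hv; exact h
  · simp only [Finset.mem_insert, Finset.mem_singleton, Prod.mk.injEq, Bool.true_eq_false,
      and_false, and_true, false_or] at hv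
    rcases hv with rfl | rfl <;> assumption

theorem boxB_mono {a b : Finset (V × Bool)} (h : a ⊆ b) (hb : BoxB G b) : BoxB G a := by
  obtain ⟨h0, ⟨w, hw⟩, ⟨v, hv⟩⟩ := hb
  exact ⟨fun x y hx hy => h0 x y (h hx) (h hy), ⟨w, fun x hx => hw x (h hx)⟩,
    ⟨v, fun x hx => hv x (h hx)⟩⟩

theorem boxB_left {s : Finset V} {q : V} (h : ∀ v ∈ s, G.Adj v q) (t : Finset (V × Bool))
    (ht : ∀ x ∈ t, x.2 = false ∧ x.1 ∈ s) : BoxB G t := by
  refine ⟨box_nm _ (Or.inl fun w hw => (ht w hw).1), ⟨q, fun v hv => h v (ht _ hv).2⟩,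
    ⟨q, fun w hw => ?_⟩⟩
  have := (ht _ hw).1
  simp at this

theorem homVanB0 (L : Lab G M τ) (hL : L.Uni) : HomVan (BoxB G) 0 := by
  obtain ⟨a0⟩ := hL.ne
  obtain ⟨b0, hb0, -⟩ := L.nbr2 hL a0 a0
  refine homVan_of (BoxB G) 0 0 fun a _ hc => ?_
  rw [Finset.card_eq_zero] at hc
  subst hc
  have := mkQ_bd (BoxB G) 1 {(a0, false)} (boxB_mono (by simp) (boxB3l hb0 hb0)) (by simp)
  rw [bd_sg, sum1] at this
  rw [LinearMap.zero_apply]
  exact this

theorem homVanB1 (L : Lab G M τ) (hL : L.Uni) : HomVan (BoxB G) 1 := by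
  obtain ⟨a0⟩ := hL.ne
  set π := ((On (fun a => BoxB G a ∧ a.card = 2)).map (bd (V × Bool))).mkQ with hπ
  have edge : ∀ x y : V × Bool, BoxB G {x, y} → π (sg {x}) = π (sg {y}) := by
    intro x y h
    by_cases hxy : x = y
    · rw [hxy]
    · have := mkQ_bd (BoxB G) 2 {x, y} h (Finset.card_pair hxy)
      rw [bd_sg, sum2 sg x y hxy, map_add] at this
      exact (eq_of_add this).symm
  have hll : ∀ a a' : V, π (sg {(a, false)}) = π (sg {(a', false)}) := by
    intro a a'
    obtain ⟨b, h1, h2⟩ := L.nbr2 hL a a'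
    exact edge _ _ (boxB_mono (by intro x; simp; tauto) (boxB3l h1 h2))
  have hlr : ∀ a b : V, G.Adj a b → π (sg {(a, false)}) = π (sg {(b, true)}) := by
    intro a b h
    exact edge _ _ (boxB_mono (by intro x; simp) (boxB3r h h))
  have all : ∀ x : V × Bool, π (sg {x}) = π (sg {(a0, false)}) := by
    rintro ⟨v, i⟩
    rcases i with _ | _
    · exact hll _ _
    · obtain ⟨b, h1, -⟩ := L.nbr2 hL v v
      rw [← hlr b v h1.symm]
      exact hll _ _
  refine homVan_of (BoxB G) 1 (lin fun _ => π (sg {(a0, false)})) fun a _ hc => ?_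
  obtain ⟨x, rfl⟩ := Finset.card_eq_one.1 hc
  rw [lin_bd, Finset.sum_singleton]
  exact all x

theorem homVanB2 (L : Lab G M τ) (hL : L.Uni) : HomVan (BoxB G) 2 := by
  obtain ⟨a0⟩ := hL.ne
  set π := ((On (fun a => BoxB G a ∧ a.card = 3)).map (bd (V × Bool))).mkQ with hπ
  let Z : V × Bool → V × Bool → Chain (V × Bool) ⧸ (On (fun a => BoxB G a ∧ a.card = 3)).map
    (bd (V × Bool)) := fun x y => if x = y then 0 else π (sg {x, y})
  have Z_self : ∀ x, Z x x = 0 := fun x => if_pos rfl
  have Z_symm : ∀ x y, Z x y = Z y x := by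
    intro x y
    by_cases h : x = y
    · rw [h]
    · simp only [Z]
      rw [if_neg h, if_neg (Ne.symm h), Finset.pair_comm]
  have tri : ∀ x y z : V × Bool, BoxB G {x, y, z} → Z x y + Z y z = Z x z := by
    intro x y z h
    by_cases h1 : x = y
    · subst h1; rw [Z_self, zero_add]
    by_cases h2 : y = z
    · subst h2; rw [Z_self, add_zero]
    by_cases h3 : x = z
    · subst h3; rw [Z_self, Z_symm y x, add_self']
    have := mkQ_bd (BoxB G) 3 {x, y, z} h (card3 h1 h3 h2)
    rw [bd_sg, sum3 sg x y z h1 h3 h2, map_add, map_add] at this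
    simp only [Z]
    rw [if_neg h1, if_neg h2, if_neg h3]
    apply eq_of_add
    rw [← this]
    abel
  let T : Tri V M (Chain (V × Bool) ⧸ (On (fun a => BoxB G a ∧ a.card = 3)).map (bd (V × Bool))) :=
    { d := L.d
      E := fun x y => Z (x, false) (y, false)
      alt := L.alt
      diag := L.diag
      P2 := fun F g => by
        obtain ⟨w, -, h⟩ := hL.P2 F g
        exact ⟨w, h⟩
      div := hL.div
      symm := fun x y => Z_symm _ _
      zero := fun x y z h => by
        obtain ⟨q, h1, h2, h3⟩ := L.nbr3 hL x y z h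
        have hb : BoxB G {(x, false), (y, false), (z, false)} := by
          refine boxB_left (s := {x, y, z}) (q := q) ?_ _ ?_
          · intro v hv
            simp only [Finset.mem_insert, Finset.mem_singleton] at hv
            rcases hv with rfl | rfl | rfl <;> assumption
          · intro v hv
            simp only [Finset.mem_insert, Finset.mem_singleton] at hv
            rcases hv with rfl | rfl | rfl <;> simp
        rw [tri _ _ _ hb, add_self'] }
  have hE : ∀ a a', Z (a, false) (a', false) = T.E a0 a + T.E a0 a' := T.E_diff a0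
  -- the function on the second part
  have hg : ∀ b : V, ∃ g, ∀ a, G.Adj a b → Z (a, false) (b, true) = T.E a0 a + g := by
    intro b
    obtain ⟨c, hc, -⟩ := L.nbr2 hL b b
    refine ⟨T.E a0 c + Z (c, false) (b, true), fun a ha => ?_⟩
    rw [← tri _ _ _ (boxB3l ha hc.symm), hE, add_assoc]
  choose g hg using hg
  have hR : ∀ b b' : V, Z (b, true) (b', true) = g b + g b' := by
    intro b b'
    obtain ⟨a, h1, h2⟩ := L.nbr2 hL b b'
    have := tri _ _ _ (boxB3r h1.symm h2.symm)
    rw [hg b a h1.symm, hg b' a h2.symm] at this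
    apply eq_of_add
    rw [show Z (b, true) (b', true) + (g b + g b') =
      (T.E a0 a + g b + Z (b, true) (b', true)) + (T.E a0 a + g b') + (T.E a0 a + T.E a0 a) -
        (T.E a0 a + T.E a0 a + (T.E a0 a + T.E a0 a)) by abel, this, add_self', add_self']
    simp
  let p : V × Bool → Chain (V × Bool) ⧸ (On (fun a => BoxB G a ∧ a.card = 3)).map
    (bd (V × Bool)) := fun x => if x.2 = false then T.E a0 x.1 else g x.1
  have hZ : ∀ x y : V × Bool, BoxB G {x, y} → Z x y = p y + p x := by
    rintro ⟨v, i⟩ ⟨w, j⟩ hb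
    rcases i with _ | _ <;> rcases j with _ | _
    · rw [hE]
      simp only [p, if_true]
      abel
    · rw [hg w v (hb.1 v w (by simp) (by simp))]
      simp only [p, if_true, Bool.true_eq_false, if_false]
      abel
    · rw [Z_symm, hg v w (hb.1 w v (by simp) (by simp))]
      simp only [p, if_true, Bool.true_eq_false, if_false]
    · rw [hR]
      simp only [p, Bool.true_eq_false, if_false]
      abel
  let F : Finset (V × Bool) → Chain (V × Bool) ⧸ (On (fun a => BoxB G a ∧ a.card = 3)).map
    (bd (V × Bool)) := fun a => if h : ∃ x, a = {x} then p h.choose else 0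
  refine homVan_of (BoxB G) 2 (lin F) fun a ha hc => ?_
  obtain ⟨x, y, hxy, rfl⟩ := Finset.card_eq_two.1 hc
  rw [lin_bd, sum2 F x y hxy]
  have hsing : ∀ x : V × Bool, F {x} = p x := by
    intro x
    simp only [F]
    have h : ∃ z, ({x} : Finset (V × Bool)) = {z} := ⟨x, rfl⟩
    rw [dif_pos h]
    congr 1
    exact (Finset.singleton_inj.1 h.choose_spec).symm
  rw [hsing, hsing, ← hZ x y ha]
  exact (if_neg hxy : Z x y = π (sg {x, y})).symm

end

end Pool.Agent.Y402.CN
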