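import Pool.Agent.Y402.CN.Defs

/-!
# Chains: elementary lemmas
-/

set_option autoImplicit false

namespace Pool.Agent.Y402.CN

open Classical Finset

noncomputable section

variable {W : Type}

/-- the chain of one simplex -/
def sg (a : Finset W) : Chain W := Finsupp.single a 1

theorem bd_sg (a : Finset W) : bd W (sg a) = ∑ w ∈ a, sg (a.erase w) := by
  unfold bd sg
  rw [Finsupp.linearCombination_single, one_smul]

theorem sum_insert_erase {Q : Type} [AddCommMonoid Q] (F : Finset W → Q) (x : W) (a : Finset W)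
    (hx : x ∉ a) :
    ∑ w ∈ insert x a, F ((insert x a).erase w) = F a + ∑ w ∈ a, F (insert x (a.erase w)) := by
  rw [Finset.sum_insert hx, Finset.erase_insert hx]
  congr 1
  refine Finset.sum_congr rfl fun w hw => ?_
  rw [Finset.erase_insert_of_ne]
  rintro rfl
  exact hx hw

theorem sum1 {Q : Type} [AddCommMonoid Q] (F : Finset W → Q) (x : W) :
    ∑ w ∈ ({x} : Finset W), F (({x} : Finset W).erase w) = F ∅ := by
  simp

theorem sum2 {Q : Type} [AddCommMonoid Q] (F : Finset W → Q) (x y : W) (h : x ≠ y) :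
    ∑ w ∈ ({x, y} : Finset W), F (({x, y} : Finset W).erase w) = F {y} + F {x} := by
  rw [sum_insert_erase F x {y} (by simpa using h)]
  congr 1
  rw [sum1 (fun b => F (insert x b)) y]
  simp

theorem sum3 {Q : Type} [AddCommMonoid Q] (F : Finset W → Q) (x y z : W) (h1 : x ≠ y) (h2 : x ≠ z)
    (h3 : y ≠ z) :
    ∑ w ∈ ({x, y, z} : Finset W), F (({x, y, z} : Finset W).erase w) =
      F {y, z} + (F {x, z} + F {x, y}) := by
  rw [sum_insert_erase F x {y, z} (by simp [h1, h2])]
  congr 1
  rw [sum2 (fun b => F (insert x b)) y z h3]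

theorem sum4 {Q : Type} [AddCommMonoid Q] (F : Finset W → Q) (x y z v : W) (h1 : x ≠ y) (h2 : x ≠ z)
    (h3 : x ≠ v) (h4 : y ≠ z) (h5 : y ≠ v) (h6 : z ≠ v) :
    ∑ w ∈ ({x, y, z, v} : Finset W), F (({x, y, z, v} : Finset W).erase w) =
      F {y, z, v} + (F {x, z, v} + (F {x, y, v} + F {x, y, z})) := by
  rw [sum_insert_erase F x {y, z, v} (by simp [h1, h2, h3])]
  congr 1
  rw [sum3 (fun b => F (insert x b)) y z v h4 h5 h6]

/-- two linear maps which agree on the simplices of the support of a chain agree on the chain -/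
theorem eq_of_support {Q : Type} [AddCommGroup Q] [Module (ZMod 2) Q]
    (L1 L2 : Chain W →ₗ[ZMod 2] Q) (f : Chain W) (h : ∀ a ∈ f.support, L1 (sg a) = L2 (sg a)) :
    L1 f = L2 f := by
  have e : ∀ L : Chain W →ₗ[ZMod 2] Q, L f = ∑ a ∈ f.support, f a • L (sg a) := by
    intro L
    conv_lhs => rw [← Finsupp.sum_single f]
    rw [Finsupp.sum, map_sum]
    refine Finset.sum_congr rfl fun a _ => ?_
    rw [← map_smul]
    congr 1
    unfold sg
    rw [Finsupp.smul_single, smul_eq_mul, mul_one]
  rw [e L1, e L2]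
  exact Finset.sum_congr rfl fun a ha => by rw [h a ha]

theorem add_self' {Q : Type} [AddCommGroup Q] [Module (ZMod 2) Q] (x : Q) : x + x = 0 :=
  ZModModule.add_self x

theorem add_self_left' {Q : Type} [AddCommGroup Q] [Module (ZMod 2) Q] (x y : Q) :
    x + (x + y) = y := by
  rw [← add_assoc, add_self', zero_add]

theorem eq_of_add {Q : Type} [AddCommGroup Q] [Module (ZMod 2) Q] {x y : Q} (h : x + y = 0) :
    x = y := by
  have : x = x + y + y := by rw [add_assoc, add_self', add_zero]
  rw [this, h, zero_add]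

theorem bd_bd_sg (a : Finset W) : bd W (bd W (sg a)) = 0 := by
  rw [bd_sg, map_sum]
  simp only [bd_sg]
  rw [Finset.sum_sigma']
  refine Finset.sum_involution (fun p _ => ⟨p.2, p.1⟩) ?_ ?_ ?_ ?_
  · rintro ⟨w, w'⟩ _
    simp only
    rw [Finset.erase_right_comm]
    exact add_self' _
  · rintro ⟨w, w'⟩ h _ heq
    simp only [mem_sigma, mem_erase] at h
    have : w' = w := congrArg Sigma.fst heq
    exact h.2.1 this
  · rintro ⟨w, w'⟩ h
    simp only [mem_sigma, mem_erase] at h ⊢
    exact ⟨h.2.2, h.2.1.symm, h.1⟩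
  · rintro ⟨w, w'⟩ _
    rfl

theorem bd_bd (f : Chain W) : bd W (bd W f) = 0 := by
  have := eq_of_support ((bd W).comp (bd W)) 0 f (fun a _ => by
    simp only [LinearMap.comp_apply, LinearMap.zero_apply]
    exact bd_bd_sg a)
  simpa using this

/-- chains on a set of simplices -/
def On (S : Finset W → Prop) : Submodule (ZMod 2) (Chain W) :=
  Finsupp.supported (ZMod 2) (ZMod 2) {a | S a}

theorem mem_On {S : Finset W → Prop} {f : Chain W} : f ∈ On S ↔ ∀ a ∈ f.support, S a := by
  unfold On
  rw [Finsupp.mem_supported]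
  exact Iff.rfl

theorem sg_mem {S : Finset W → Prop} {a : Finset W} (h : S a) : sg a ∈ On S := by
  rw [mem_On]
  intro b hb
  unfold sg at hb
  have := Finsupp.support_single_subset hb
  rw [Finset.mem_singleton] at this
  rw [this]; exact h

/-- vanishing of the homology from a formula for the classes -/
theorem homVan_of (S : Finset W → Prop) (m : ℕ)
    (Ψ : Chain W →ₗ[ZMod 2] Chain W ⧸ (On (fun a => S a ∧ a.card = m + 1)).map (bd W))
    (h : ∀ a, S a → a.card = m →
      ((On (fun a => S a ∧ a.card = m + 1)).map (bd W)).mkQ (sg a) = Ψ (bd W (sg a))) :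
    HomVan S m := by
  intro f hf hb
  have e := eq_of_support ((On (fun a => S a ∧ a.card = m + 1)).map (bd W)).mkQ
    (Ψ.comp (bd W)) f (fun a ha => h a (hf a ha).1 (hf a ha).2)
  rw [LinearMap.comp_apply, hb, map_zero, Submodule.mkQ_apply, Submodule.Quotient.mk_eq_zero] at e
  obtain ⟨g, hg, hg'⟩ := e
  exact ⟨g, mem_On.1 hg, hg'⟩

end

end Pool.Agent.Y402.CN
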