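import Mathlib

/-!
# Simplicial complexes with involution, mod 2 homology, equivariant maps of spheres

Definitions for MP_653b6e_gt; the complexes may be finite or infinite.
-/

set_option autoImplicit false

namespace Pool.Agent.Y402.CN

open Classical

noncomputable section

/-- mod 2 simplicial chains on the vertex set `W` (the empty simplex is included) -/
abbrev Chain (W : Type) : Type := Finset W →₀ ZMod 2

/-- the boundary: a simplex goes to the sum of its facets -/
def bd (W : Type) : Chain W →ₗ[ZMod 2] Chain W :=
  Finsupp.linearCombination (ZMod 2) fun a : Finset W =>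
    ∑ w ∈ a, Finsupp.single (a.erase w) (1 : ZMod 2)

/-- the reduced simplicial homology `H_{m-1}(S; Z_2)` of the complex with set of simplices `S`
vanishes: every cycle of simplices with `m` vertices is a boundary -/
def HomVan {W : Type} (S : Finset W → Prop) (m : ℕ) : Prop :=
  ∀ f : Chain W, (∀ a ∈ f.support, S a ∧ a.card = m) → bd W f = 0 →
    ∃ g : Chain W, (∀ a ∈ g.support, S a ∧ a.card = m + 1) ∧ bd W g = f

/-- points of the geometric realization: nonnegative weights of sum one on a simplex -/
def IsPoint {W : Type} (S : Finset W → Prop) (x : W → ℝ) : Prop :=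
  (∀ w, 0 ≤ x w) ∧ ∃ a : Finset W, S a ∧ (∀ w, w ∈ a ↔ x w ≠ 0) ∧ ∑ w ∈ a, x w = 1

/-- equivariant maps `f` of the sphere `S^n` with the antipodal action to the realization of `S`
with the involution induced by the involution `σ` of the vertices; the barycentric coordinates of
`f` are continuous -/
def HasMap {W : Type} (S : Finset W → Prop) (σ : W → W) (n : ℕ) : Prop :=
  ∃ f : Metric.sphere (0 : EuclideanSpace ℝ (Fin (n + 1))) 1 → W → ℝ,
    (∀ p, IsPoint S (f p)) ∧ (∀ w, Continuous fun p => f p w) ∧ ∀ p, f (-p) = f p ∘ σ

/-- a simplicial complex given by its set of simplices, the empty simplex included -/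
def IsComplex {W : Type} (S : Finset W → Prop) : Prop :=
  S ∅ ∧ ∀ a b, a ⊆ b → S b → S a

/-- a simplicial involution -/
def IsInvolution {W : Type} (S : Finset W → Prop) (σ : W → W) : Prop :=
  (∀ w, σ (σ w) = w) ∧ ∀ a, S a → S (a.image σ)

/-- the involution acts freely on the realization: no simplex contains a vertex and its image -/
def IsFree {W : Type} (S : Finset W → Prop) (σ : W → W) : Prop := ∀ a, S a → ∀ w ∈ a, σ w ∉ a

/-- the suspension: at most one of the two poles is added to a simplex -/
def Susp {W : Type} (S : Finset W → Prop) (a : Finset (W ⊕ Bool)) : Prop :=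
  S a.toLeft ∧ ¬ (Sum.inr false ∈ a ∧ Sum.inr true ∈ a)

/-- the involution of the suspension: `σ` together with the exchange of the poles -/
def suspInv {W : Type} (σ : W → W) : W ⊕ Bool → W ⊕ Bool := Sum.map σ not

/-- the box complex `B_0(G)` -/
def Box {V : Type} (G : SimpleGraph V) (a : Finset (V × Bool)) : Prop :=
  ∀ v w, (v, false) ∈ a → (w, true) ∈ a → G.Adj v w

/-- the box complex `B(G)`: both parts have a common neighbour -/
def BoxB {V : Type} (G : SimpleGraph V) (a : Finset (V × Bool)) : Prop :=
  Box G a ∧ (∃ w, ∀ v, (v, false) ∈ a → G.Adj v w) ∧ ∃ v, ∀ w, (w, true) ∈ a → G.Adj v w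

/-- the exchange of the two copies of a vertex -/
def flip {V : Type} (w : V × Bool) : V × Bool := (w.1, !w.2)

/-- `conn_{Z_2}`: the supremum of the integers `z ≥ -2` such that the reduced mod 2 homology
vanishes in all dimensions `≤ z` (dimensions are `m - 1`, `m = 0, 1, …`) -/
def connZ2 {W : Type} (S : Finset W → Prop) : EReal :=
  sSup ((fun z : ℤ => ((z : ℝ) : EReal)) ''
    {z | -2 ≤ z ∧ ∀ m : ℕ, (m : ℤ) - 1 ≤ z → HomVan S m})

/-- `coind`: the supremum of the `n` such that there is an equivariant map from `S^n`
(and `-1` if there is none) -/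
def coind {W : Type} (S : Finset W → Prop) (σ : W → W) : EReal :=
  sSup ((fun z : ℤ => ((z : ℝ) : EReal)) '' {z | z = -1 ∨ ∃ n : ℕ, z = n ∧ HasMap S σ n})

end

end Pool.Agent.Y402.CN
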