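import Pool.Agent.Y402.CN.SuspHom
import Pool.Agent.H370R3.BX.FinalThm

/-!
# Finite complexes: `conn_{Z_2}(susp X) + 1 ≤ coind(susp X)`
-/

set_option autoImplicit false

namespace Pool.Agent.Y402.CN

open Classical Pool.Agent.H370R3.BX

noncomputable section

/-- from maps to the realization as a subtype -/
theorem hasMap_of {W : Type} [Fintype W] (S : Finset W → Prop) (σ : W → W) (n : ℕ)
    (g : C(Sph n, RealC W S)) (hg : ∀ x, (g (-x)).1 = (g x).1 ∘ σ) : HasMap S σ n := by
  refine ⟨fun p => (g p).1, fun p => ⟨(g p).2.1, supp (g p).1, (g p).2.2.2, fun w => ?_, ?_⟩,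
    fun w => ?_, hg⟩
  · exact mem_supp _ _
  · refine Eq.trans (Finset.sum_subset (Finset.subset_univ _) fun w _ hw => ?_) (g p).2.2.1
    by_contra h
    exact hw ((mem_supp _ _).2 h)
  · exact (continuous_apply w).comp (continuous_subtype_val.comp g.continuous)

theorem finite_box {V : Type} [Fintype V] (G : SimpleGraph V) (n : ℕ)
    (h : ∀ m, m ≤ n → HomVan (Box G) m) : HasMap (Box G) flip n := by
  obtain ⟨f, hf⟩ := final_thm V G n fun m hm => acyc2_of_homVan _ _ (h m hm)
  exact hasMap_of _ _ n f hf

/-- the involution of the realization -/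
def invC {W : Type} [Fintype W] (S : Finset W → Prop) (σ : W → W) (hσ : IsInvolution S σ) :
    C(RealC W S, RealC W S) where
  toFun x := ⟨x.1 ∘ σ, fun w => x.2.1 _,
    (Fintype.sum_equiv (Function.Involutive.toPerm σ hσ.1) _ _ (fun _ => rfl)).trans x.2.2.1, by
    have : supp (x.1 ∘ σ) = (supp x.1).image σ := by
      ext w
      rw [mem_supp, Finset.mem_image]
      constructor
      · intro h
        exact ⟨σ w, (mem_supp _ _).2 h, hσ.1 w⟩
      · rintro ⟨v, hv, rfl⟩
        rw [mem_supp] at hv
        simpa [hσ.1 v] using hv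
    rw [this]
    exact hσ.2 _ x.2.2.2⟩
  continuous_toFun := by
    refine Continuous.subtype_mk ?_ _
    exact continuous_pi fun w => (continuous_apply (σ w)).comp continuous_subtype_val

/-- the point of the suspension at height `t` over `x` -/
def qf {W : Type} (t : ℝ) (x : W → ℝ) : W ⊕ Bool → ℝ
  | Sum.inl w => (1 - |1 - 2 * t|) * x w
  | Sum.inr false => max (1 - 2 * t) 0
  | Sum.inr true => max (2 * t - 1) 0

theorem max_add (s : ℝ) : max s 0 + max (-s) 0 = |s| := by
  rcases le_total 0 s with h | h
  · rw [max_eq_left h, max_eq_right (by linarith), abs_of_nonneg h, add_zero]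
  · rw [max_eq_right h, max_eq_left (by linarith), abs_of_nonpos h, zero_add]

/-- the map of the suspension to the realization of the simplicial suspension -/
def qC {W : Type} [Fintype W] (S : Finset W → Prop) (hS : IsComplex S) :
    C(unitInterval × RealC W S, RealC (W ⊕ Bool) (Susp S)) where
  toFun p := ⟨qf p.1 p.2.1, by
      have h1 : |1 - 2 * (p.1 : ℝ)| ≤ 1 := by
        rw [abs_le]
        constructor <;> linarith [p.1.2.1, p.1.2.2]
      rintro (w | b)
      · exact mul_nonneg (by linarith) (p.2.2.1 w)
      · rcases b with _ | _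
        · exact le_max_right _ _
        · exact le_max_right _ _, by
      rw [Fintype.sum_sum_type, Fintype.sum_bool]
      simp only [qf]
      rw [← Finset.mul_sum, p.2.2.2.1, mul_one]
      have := max_add (1 - 2 * (p.1 : ℝ))
      rw [neg_sub] at this
      linarith, by
      refine ⟨hS.2 _ (supp p.2.1) ?_ p.2.2.2.2, ?_⟩
      · intro w hw
        rw [Finset.mem_toLeft, mem_supp] at hw
        rw [mem_supp]
        exact right_ne_zero_of_mul hw
      · rintro ⟨h1, h2⟩
        rw [mem_supp] at h1 h2
        simp only [qf] at h1 h2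
        rcases le_total (1 - 2 * (p.1 : ℝ)) 0 with h | h
        · exact h1 (max_eq_right h)
        · exact h2 (max_eq_right (by linarith))⟩
  continuous_toFun := by
    refine Continuous.subtype_mk ?_ _
    refine continuous_pi fun w => ?_
    have hp : Continuous fun p : unitInterval × RealC W S => ((p.1 : unitInterval) : ℝ) :=
      continuous_subtype_val.comp continuous_fst
    rcases w with w | b
    · simp only [qf]
      have hx : Continuous fun p : unitInterval × RealC W S => p.2.1 w :=
        (continuous_apply w).comp (continuous_subtype_val.comp continuous_snd)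
      fun_prop
    · rcases b with _ | _
      · simp only [qf]
        fun_prop
      · simp only [qf]
        fun_prop

theorem qf_symm {W : Type} (t : ℝ) (x : W → ℝ) (σ : W → W) :
    qf (1 - t) (x ∘ σ) = qf t x ∘ suspInv σ := by
  funext w
  rcases w with w | b
  · simp only [qf, suspInv, Function.comp_apply, Sum.map_inl]
    rw [show 1 - 2 * (1 - t) = -(1 - 2 * t) by ring, abs_neg]
  · rcases b with _ | _
    · simp only [qf, suspInv, Function.comp_apply, Sum.map_inr, Bool.not_false]
      congr 1; ring
    · simp only [qf, suspInv, Function.comp_apply, Sum.map_inr, Bool.not_true]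
      congr 1; ring

theorem finite_susp {W : Type} [Fintype W] (S : Finset W → Prop) (σ : W → W) (hS : IsComplex S)
    (hσ : IsInvolution S σ) (n : ℕ) (h : ∀ m, m ≤ n → HomVan (Susp S) m) :
    HasMap (Susp S) (suspInv σ) n := by
  have hac : ∀ m, m < n → Acyc2 W S m := fun m hm =>
    acyc2_of_homVan S m (homVan_of_susp S m (h (m + 1) hm))
  rcases Nat.eq_zero_or_pos n with rfl | hn
  · -- two poles
    let T := Bool
    obtain ⟨g, hg⟩ := sph0 Bool ⟨not, continuous_of_discreteTopology⟩ (fun y => by simp) false
    refine ⟨fun p w => if w = Sum.inr (g p) then 1 else 0, fun p => ⟨fun w => ?_, {Sum.inr (g p)},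
      ⟨?_, ?_⟩, fun w => ?_, ?_⟩, fun w => ?_, fun p => ?_⟩
    · beta_reduce
      split_ifs <;> norm_num
    · have : (({Sum.inr (g p)} : Finset (W ⊕ Bool))).toLeft = ∅ := by
        ext w; simp
      rw [this]; exact hS.1
    · rintro ⟨h1, h2⟩
      rw [Finset.mem_singleton] at h1 h2
      rw [← h1] at h2
      simp at h2
    · simp
    · simp
    · have : (fun p => if w = Sum.inr (g p) then (1 : ℝ) else 0) =
        (fun b : Bool => if w = Sum.inr b then (1 : ℝ) else 0) ∘ g := rfl
      rw [this]
      exact continuous_of_discreteTopology.comp g.continuous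
    · funext w
      change (if w = Sum.inr (g (-p)) then (1 : ℝ) else 0) =
        if suspInv σ w = Sum.inr (g p) then 1 else 0
      rw [hg]
      simp only [ContinuousMap.coe_mk, suspInv]
      congr 1
      rcases w with w | b
      · simp
      · simp only [Sum.map_inr, Sum.inr.injEq, eq_iff_iff]
        constructor
        · rintro rfl; simp
        · intro h; rw [← h]; simp
  · obtain ⟨m, rfl⟩ : ∃ m, n = m + 1 := ⟨n - 1, by omega⟩
    have hOdd : TaskOdd := taskOdd_proof
    have hat : HAT := taskHAT Pool.Agent.H676R4.BXDegen.taskDegen_proof taskConn_proof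
      (taskBox_proof taskHtpy_proof Cube.cube_ok
        (taskCellInj_proof taskMkSurj_proof taskMkEq_proof taskGlue_proof))
    have ret : TaskRetCells := taskRetCells_proof taskGlue_proof Cube.cube_ok
    have inj : TaskCellInj := taskCellInj_proof taskMkSurj_proof taskMkEq_proof taskGlue_proof
    have surj : TaskCellSurj := taskCellSurj_proof taskMkSurj_proof taskGlue_proof
    have hMain : MainLemma :=
      Pool.Agent.H662R3.BX.taskMain taskZ_proof taskB_proof taskTwo_proof hat taskHtpy_proof ret
        taskGlue_proof surj inj taskComm taskExact_proof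
    letI : LinearOrder W := LinearOrder.lift' (Fintype.equivFin W) (Fintype.equivFin W).injective
    have hdown : Down S := fun a b => hS.2 a b
    obtain ⟨K, hK, hX, ε, hε⟩ := Pool.Agent.H886R3.BX.taskReal taskCoord_proof W S hdown
    let ν := invC S σ hσ
    have hνν : ∀ x, ν (ν x) = x := by
      intro x
      refine Subtype.ext ?_
      change (x.1 ∘ σ) ∘ σ = x.1
      funext w
      simp only [Function.comp_apply, hσ.1]
    have hcard : ∀ x : W → ℝ, (supp (x ∘ σ)).card = (supp x).card := by
      intro x
      refine Finset.card_bij (fun w _ => σ w) (fun w hw => ?_) ?_ ?_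
      · rw [mem_supp] at hw ⊢; exact hw
      · intro a _ b _ h
        have := congrArg σ h
        rwa [hσ.1, hσ.1] at this
      · intro b hb
        rw [mem_supp] at hb
        exact ⟨σ b, (mem_supp _ _).2 (by simpa [hσ.1] using hb), hσ.1 b⟩
    have hsk : ∀ n, ∀ x ∈ K.X n, ν x ∈ K.X n := by
      intro n x hx
      rw [hX] at hx ⊢
      change (supp (x.1 ∘ σ)).card ≤ n + 1
      rw [hcard]
      exact hx
    obtain ⟨g, hg⟩ := tower taskMkSurj_proof taskMkEq_proof taskHtpy_proof
      Pool.Agent.H183R3.SuspA.taskSuspA taskSuspB_proof taskExt_proof taskCircle_proof hMain hOdd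
      taskPath_proof taskBase_proof taskCompact W S hdown hS.1 ν hνν K hK hX ε hε hsk (m + 1) hac m
      le_rfl
    let q := qC S hS
    have hq0 : ∀ x y, q (0, x) = q (0, y) := by
      intro x y
      refine Subtype.ext ?_
      change qf ((0 : unitInterval) : ℝ) x.1 = qf ((0 : unitInterval) : ℝ) y.1
      funext w
      rcases w with w | b
      · simp [qf]
      · rcases b with _ | _ <;> simp [qf]
    have hq1 : ∀ x y, q (1, x) = q (1, y) := by
      intro x y
      refine Subtype.ext ?_
      change qf ((1 : unitInterval) : ℝ) x.1 = qf ((1 : unitInterval) : ℝ) y.1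
      funext w
      rcases w with w | b
      · simp only [qf, Set.Icc.coe_one]; norm_num
      · rcases b with _ | _ <;> simp [qf]
    let Q : C(Su ↥(K.X m), RealC (W ⊕ Bool) (Susp S)) :=
      { toFun := Quot.lift (fun p => q (p.1, p.2.1)) (by
          intro a b h
          cases h with
          | zero a b => exact hq0 _ _
          | one a b => exact hq1 _ _)
        continuous_toFun := by
          refine continuous_quot_lift _ ?_
          exact q.continuous.comp (continuous_fst.prodMk (continuous_subtype_val.comp continuous_snd)) }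
    have hQ : ∀ y, (Q (Su.inv (restr ν (K.X m) (hsk m)) y)).1 = (Q y).1 ∘ suspInv σ := by
      intro y
      induction y using Quot.ind with
      | mk p =>
        change qf ((unitInterval.symm p.1 : unitInterval) : ℝ) (p.2.1.1 ∘ σ) = qf (p.1 : ℝ) p.2.1.1 ∘ suspInv σ
        rw [unitInterval.coe_symm_eq]
        exact qf_symm _ _ _
    refine hasMap_of (Susp S) (suspInv σ) (m + 1) (Q.comp g) fun x => ?_
    rw [ContinuousMap.comp_apply, ContinuousMap.comp_apply, hg, hQ]

/-- the form with suprema -/
theorem conn_le {W : Type} (S : Finset W → Prop) (σ : W → W)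
    (main : ∀ n, (∀ m, m ≤ n → HomVan S m) → HasMap S σ n) : connZ2 S + 1 ≤ coind S σ := by
  have key : ∀ z : ℤ, -2 ≤ z → (∀ m : ℕ, (m : ℤ) - 1 ≤ z → HomVan S m) →
      (((z : ℝ) : EReal)) + 1 ≤ coind S σ := by
    intro z hz h
    have e : (((z : ℝ) : EReal)) + 1 = (((z + 1 : ℤ) : ℝ) : EReal) := by
      push_cast
      rfl
    rw [e]
    refine le_sSup ⟨z + 1, ?_, rfl⟩
    rcases eq_or_lt_of_le hz with h' | h'
    · left; omega
    · right
      exact ⟨(z + 1).toNat, by omega, main _ fun m hm => h m (by omega)⟩
  have h1 : (1 : EReal) = ((1 : ℝ) : EReal) := rfl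
  have : connZ2 S ≤ coind S σ - 1 := by
    refine sSup_le ?_
    rintro _ ⟨z, ⟨hz, h⟩, rfl⟩
    rw [h1]
    refine (EReal.le_sub_iff_add_le (Or.inl (EReal.coe_ne_bot 1)) (Or.inl (EReal.coe_ne_top 1))).2 ?_
    exact key z hz h
  rw [h1] at this ⊢
  exact (EReal.le_sub_iff_add_le (Or.inl (EReal.coe_ne_bot 1)) (Or.inl (EReal.coe_ne_top 1))).1 this

end

end Pool.Agent.Y402.CN
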