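import Mathlib

/-!
# A universal labelled graph on the natural numbers
-/

set_option autoImplicit false

namespace Pool.Agent.Y402.CN

open Classical

variable {M : Type} [AddCommGroup M]

/-- a stage of the construction -/
structure St (M : Type) where
  A : ℕ → ℕ → Prop
  t : ℕ → ℕ → M
  d : ℕ → ℕ → M

/-- the properties of the labels -/
structure St.Ok (s : St M) (τ : M) : Prop where
  sym : ∀ u v, s.A u v → s.A v u
  irr : ∀ u, ¬ s.A u u
  ht : ∀ u v, s.A u v → s.t v u = s.t u v + τ
  hd : ∀ u v v', s.A u v → s.A u v' → s.t u v - s.t u v' = s.d v v'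
  alt : ∀ u v, s.d u v = - s.d v u
  diag : ∀ u, s.d u u = 0

/-- the neighbourhood of the new vertex -/
noncomputable def nb (n : ℕ) (N : Finset ℕ) (h : ℕ → M) (s : St M) : Finset ℕ :=
  if (∀ v ∈ N, v < n) ∧ (∀ v ∈ N, ∀ v' ∈ N, h v - h v' = s.d v v') then N else ∅

/-- the differences at the new vertex -/
noncomputable def nd (N : Finset ℕ) (h g : ℕ → M) (s : St M) (u : ℕ) : M :=
  if H : ∃ v, v ∈ N ∧ s.A u v then h H.choose - s.t u H.choose else g u

/-- adding the vertex `n` -/
noncomputable def step (τ : M) (n : ℕ) (N : Finset ℕ) (h g : ℕ → M) (s : St M) : St M where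
  A u v := s.A u v ∨ (u = n ∧ v ∈ nb n N h s) ∨ (v = n ∧ u ∈ nb n N h s)
  t u v := if u = n then h v else if v = n then h u + τ else s.t u v
  d u v := if u = n then (if v = n then 0 else nd (nb n N h s) h g s v)
    else if v = n then - nd (nb n N h s) h g s u else s.d u v

theorem nb_lt (n : ℕ) (N : Finset ℕ) (h : ℕ → M) (s : St M) : ∀ v ∈ nb n N h s, v < n := by
  intro v hv
  unfold nb at hv
  split_ifs at hv with H
  · exact H.1 v hv
  · simp at hv

theorem nb_d (n : ℕ) (N : Finset ℕ) (h : ℕ → M) (s : St M) :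
    ∀ v ∈ nb n N h s, ∀ v' ∈ nb n N h s, h v - h v' = s.d v v' := by
  intro v hv v' hv'
  unfold nb at hv hv'
  split_ifs at hv hv' with H
  · exact H.2 v hv v' hv'
  · simp at hv

theorem nd_eq (s : St M) (τ : M) (hs : s.Ok τ) (N : Finset ℕ) (h g : ℕ → M)
    (hN : ∀ v ∈ N, ∀ v' ∈ N, h v - h v' = s.d v v') (u v : ℕ) (hv : v ∈ N) (huv : s.A u v) :
    nd N h g s u = h v - s.t u v := by
  have H : ∃ v, v ∈ N ∧ s.A u v := ⟨v, hv, huv⟩
  unfold nd
  rw [dif_pos H]
  have h1 := hN H.choose H.choose_spec.1 v hv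
  have h2 := hs.hd u H.choose v H.choose_spec.2 huv
  rw [← h2] at h1
  have : h H.choose - s.t u H.choose - (h v - s.t u v) =
    (h H.choose - h v) - (s.t u H.choose - s.t u v) := by abel
  rw [← sub_eq_zero, this, h1, sub_self]

theorem step_ok (τ : M) (h2 : τ + τ = 0) (n : ℕ) (N : Finset ℕ) (h g : ℕ → M) (s : St M)
    (hs : s.Ok τ) (hb : ∀ u v, s.A u v → u < n ∧ v < n) :
    (step τ n N h g s).Ok τ ∧ ∀ u v, (step τ n N h g s).A u v → u < n + 1 ∧ v < n + 1 := by
  have hlt := nb_lt n N h s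
  have hdd := nb_d n N h s
  have hne := nd_eq s τ hs (nb n N h s) h g hdd
  have hAn : ∀ v, (step τ n N h g s).A n v → v ∈ nb n N h s := by
    rintro v (h | ⟨-, h⟩ | ⟨rfl, h⟩)
    · exact absurd (hb _ _ h).1 (lt_irrefl _)
    · exact h
    · exact h
  have hAn' : ∀ v, (step τ n N h g s).A v n → v ∈ nb n N h s := by
    rintro v (h | ⟨rfl, h⟩ | ⟨-, h⟩)
    · exact absurd (hb _ _ h).2 (lt_irrefl _)
    · exact h
    · exact h
  have hA0 : ∀ u v, u ≠ n → v ≠ n → (step τ n N h g s).A u v → s.A u v := by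
    rintro u v hu hv (h | ⟨rfl, h⟩ | ⟨rfl, h⟩)
    · exact h
    · exact absurd rfl hu
    · exact absurd rfl hv
  refine ⟨⟨?_, ?_, ?_, ?_, ?_, ?_⟩, ?_⟩
  · rintro u v (h | h | h)
    · exact Or.inl (hs.sym _ _ h)
    · exact Or.inr (Or.inr h)
    · exact Or.inr (Or.inl h)
  · rintro u (h | ⟨rfl, h⟩ | ⟨rfl, h⟩)
    · exact hs.irr u h
    · exact absurd (hlt _ h) (lt_irrefl _)
    · exact absurd (hlt _ h) (lt_irrefl _)
  · intro u v huv
    by_cases hu : u = n
    · subst hu
      have hv := hAn v huv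
      have hvn : v ≠ u := (hlt v hv).ne
      simp [step, hvn]
    · by_cases hv : v = n
      · subst hv
        simp only [step, if_true, hu, if_false]
        rw [add_assoc, h2, add_zero]
      · simp only [step, hu, hv, if_false]
        exact hs.ht u v (hA0 u v hu hv huv)
  · intro u v v' huv huv'
    by_cases hu : u = n
    · subst hu
      have hv := hAn v huv
      have hv' := hAn v' huv'
      have hvn : v ≠ u := (hlt v hv).ne
      have hvn' : v' ≠ u := (hlt v' hv').ne
      simp only [step, if_true, hvn, hvn', if_false]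
      exact hdd v hv v' hv'
    · by_cases hv : v = n
      · subst hv
        by_cases hv' : v' = v
        · subst hv'
          simp [step]
        · have huN := hAn' u huv
          have h3 := hA0 u v' hu hv' huv'
          simp only [step, if_true, hu, hv', if_false]
          rw [hne v' u huN (hs.sym _ _ h3), hs.ht u v' h3]
          have : τ = -τ := eq_neg_of_add_eq_zero_left h2
          have e : h u + τ - s.t u v' - (h u - (s.t u v' + τ)) = τ + τ := by abel
          rw [← sub_eq_zero, e, h2]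
      · by_cases hv' : v' = n
        · subst hv'
          have huN := hAn' u huv'
          have h3 := hA0 u v hu hv huv
          simp only [step, if_true, hu, hv, if_false]
          rw [hne v u huN (hs.sym _ _ h3), hs.ht u v h3]
          have e : s.t u v - (h u + τ) - (-(h u - (s.t u v + τ))) = -(τ + τ) := by abel
          rw [← sub_eq_zero, e, h2, neg_zero]
        · simp only [step, hu, hv, hv', if_false]
          exact hs.hd u v v' (hA0 _ _ hu hv huv) (hA0 _ _ hu hv' huv')
  · intro u v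
    by_cases hu : u = n
    · subst hu
      by_cases hv : v = u
      · subst hv; simp [step]
      · simp [step, hv]
    · by_cases hv : v = n
      · subst hv; simp [step, hu]
      · simp only [step, hu, hv, if_false]
        exact hs.alt u v
  · intro u
    by_cases hu : u = n
    · subst hu; simp [step]
    · simp only [step, hu, if_false]
      exact hs.diag u
  · intro u v huv
    by_cases hu : u = n
    · subst hu
      have := hlt v (hAn v huv)
      omega
    · by_cases hv : v = n
      · subst hv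
        have := hlt u (hAn' u huv)
        omega
      · have := hb u v (hA0 u v hu hv huv)
        omega

/-- data for the steps -/
abbrev Dat (M : Type) [Zero M] : Type := Finset ℕ × (ℕ →₀ M) × (ℕ →₀ M)

/-- the stages -/
noncomputable def sq (τ : M) (e : ℕ → Dat M) : ℕ → St M
  | 0 => ⟨fun _ _ => False, fun _ _ => 0, fun _ _ => 0⟩
  | n + 1 => step τ n (e n).1 (e n).2.1 (e n).2.2 (sq τ e n)

theorem sq_ok (τ : M) (h2 : τ + τ = 0) (e : ℕ → Dat M) (n : ℕ) :
    (sq τ e n).Ok τ ∧ ∀ u v, (sq τ e n).A u v → u < n ∧ v < n := by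
  induction n with
  | zero =>
    refine ⟨⟨?_, ?_, ?_, ?_, ?_, ?_⟩, ?_⟩ <;> intros <;> simp_all [sq]
  | succ n ih =>
    exact step_ok τ h2 n _ _ _ _ ih.1 ih.2

theorem sq_succ (τ : M) (e : ℕ → Dat M) (n u v : ℕ) (hu : u < n) (hv : v < n) :
    ((sq τ e (n + 1)).A u v ↔ (sq τ e n).A u v) ∧ (sq τ e (n + 1)).t u v = (sq τ e n).t u v ∧
      (sq τ e (n + 1)).d u v = (sq τ e n).d u v := by
  simp [sq, step, hu.ne, hv.ne]

theorem sq_stable (τ : M) (e : ℕ → Dat M) (n m u v : ℕ) (hnm : n ≤ m) (hu : u < n) (hv : v < n) :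
    ((sq τ e m).A u v ↔ (sq τ e n).A u v) ∧ (sq τ e m).t u v = (sq τ e n).t u v ∧
      (sq τ e m).d u v = (sq τ e n).d u v := by
  induction m, hnm using Nat.le_induction with
  | base => exact ⟨Iff.rfl, rfl, rfl⟩
  | succ m hm ih =>
    obtain ⟨h1, h2, h3⟩ := sq_succ τ e m u v (by omega) (by omega)
    exact ⟨h1.trans ih.1, h2.trans ih.2.1, h3.trans ih.2.2⟩

/-- the limit -/
noncomputable def lim (τ : M) (e : ℕ → Dat M) : St M where
  A u v := (sq τ e (max u v + 1)).A u v
  t u v := (sq τ e (max u v + 1)).t u v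
  d u v := (sq τ e (max u v + 1)).d u v

theorem lim_eq (τ : M) (e : ℕ → Dat M) (n u v : ℕ) (hu : u < n) (hv : v < n) :
    ((lim τ e).A u v ↔ (sq τ e n).A u v) ∧ (lim τ e).t u v = (sq τ e n).t u v ∧
      (lim τ e).d u v = (sq τ e n).d u v := by
  obtain ⟨h1, h2, h3⟩ := sq_stable τ e (max u v + 1) n u v (by omega) (by omega) (by omega)
  exact ⟨h1.symm, h2.symm, h3.symm⟩

theorem lim_ok (τ : M) (h2 : τ + τ = 0) (e : ℕ → Dat M) : (lim τ e).Ok τ := by
  refine ⟨?_, ?_, ?_, ?_, ?_, ?_⟩
  · intro u v h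
    rw [(lim_eq τ e (max u v + 1) u v (by omega) (by omega)).1] at h
    rw [(lim_eq τ e (max u v + 1) v u (by omega) (by omega)).1]
    exact (sq_ok τ h2 e _).1.sym _ _ h
  · intro u h
    rw [(lim_eq τ e (u + 1) u u (by omega) (by omega)).1] at h
    exact (sq_ok τ h2 e _).1.irr _ h
  · intro u v h
    rw [(lim_eq τ e (max u v + 1) u v (by omega) (by omega)).1] at h
    rw [(lim_eq τ e (max u v + 1) v u (by omega) (by omega)).2.1,
      (lim_eq τ e (max u v + 1) u v (by omega) (by omega)).2.1]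
    exact (sq_ok τ h2 e _).1.ht _ _ h
  · intro u v v' h h'
    rw [(lim_eq τ e (max u (max v v') + 1) u v (by omega) (by omega)).1] at h
    rw [(lim_eq τ e (max u (max v v') + 1) u v' (by omega) (by omega)).1] at h'
    rw [(lim_eq τ e (max u (max v v') + 1) u v (by omega) (by omega)).2.1,
      (lim_eq τ e (max u (max v v') + 1) u v' (by omega) (by omega)).2.1,
      (lim_eq τ e (max u (max v v') + 1) v v' (by omega) (by omega)).2.2]
    exact (sq_ok τ h2 e _).1.hd _ _ _ h h'
  · intro u v
    rw [(lim_eq τ e (max u v + 1) u v (by omega) (by omega)).2.2,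
      (lim_eq τ e (max u v + 1) v u (by omega) (by omega)).2.2]
    exact (sq_ok τ h2 e _).1.alt _ _
  · intro u
    rw [(lim_eq τ e (u + 1) u u (by omega) (by omega)).2.2]
    exact (sq_ok τ h2 e _).1.diag _

/-- every datum occurs at arbitrarily late stages -/
theorem exists_enum (M : Type) [AddCommGroup M] [Countable M] :
    ∃ e : ℕ → Dat M, ∀ a k, ∃ n, k ≤ n ∧ e n = a := by
  obtain ⟨f, hf⟩ := exists_surjective_nat (Dat M × ℕ)
  refine ⟨fun n => (f n).1, fun a k => ?_⟩
  by_contra hno
  push Not at hno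
  have h1 : (Set.univ : Set ℕ) ⊆ (fun n => (f n).2) '' (Set.Iio k) := by
    intro j _
    obtain ⟨n, hn⟩ := hf (a, j)
    refine ⟨n, ?_, by simp [hn]⟩
    by_contra h
    exact hno n (not_lt.1 h) (by simp [hn])
  exact Set.infinite_univ (((Set.finite_Iio k).image _).subset h1)

theorem exists_univ (M : Type) [AddCommGroup M] [Countable M] (τ : M) (h2 : τ + τ = 0) :
    ∃ s : St M, s.Ok τ ∧
      (∀ N : Finset ℕ, (∀ x ∈ N, ∀ y ∈ N, ∀ z ∈ N, s.d x y + s.d y z = s.d x z) →
        ∃ w, ∀ v ∈ N, s.A w v) ∧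
      (∀ (F : Finset ℕ) (g : ℕ → M), ∃ w, w ∉ F ∧ ∀ u ∈ F, s.d w u = g u) := by
  obtain ⟨e, he⟩ := exists_enum M
  have hok := lim_ok τ h2 e
  refine ⟨lim τ e, hok, ?_, ?_⟩
  · intro N hN
    rcases N.eq_empty_or_nonempty with rfl | ⟨v0, hv0⟩
    · exact ⟨0, by simp⟩
    · obtain ⟨n, hn, hen⟩ := he (N, Finsupp.indicator N (fun i _ => (lim τ e).d i v0), 0)
        (N.sup id + 1)
      have hlt : ∀ v ∈ N, v < n := fun v hv => by
        have : v ≤ N.sup id := Finset.le_sup (f := id) hv
        omega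
      refine ⟨n, fun v hv => ?_⟩
      rw [(lim_eq τ e (n + 1) n v (by omega) (by have := hlt v hv; omega)).1]
      have hnb : nb n N (Finsupp.indicator N (fun i _ => (lim τ e).d i v0)) (sq τ e n) = N := by
        unfold nb
        rw [if_pos]
        refine ⟨hlt, fun a ha b hb => ?_⟩
        rw [Finsupp.indicator_of_mem ha, Finsupp.indicator_of_mem hb,
          ← (lim_eq τ e n a b (hlt a ha) (hlt b hb)).2.2, ← hN a ha b hb v0 hv0]
        abel
      right; left
      refine ⟨rfl, ?_⟩
      rw [hen]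
      change v ∈ nb n N _ _
      rw [hnb]
      exact hv
  · intro F g
    obtain ⟨n, hn, hen⟩ := he (∅, 0, Finsupp.indicator F (fun i _ => g i)) (F.sup id + 1)
    have hlt : ∀ v ∈ F, v < n := fun v hv => by
      have : v ≤ F.sup id := Finset.le_sup (f := id) hv
      omega
    refine ⟨n, fun h => absurd (hlt n h) (lt_irrefl _), fun u hu => ?_⟩
    rw [(lim_eq τ e (n + 1) n u (by omega) (by have := hlt u hu; omega)).2.2]
    have hnb : ∀ h : ℕ → M, nb n ∅ h (sq τ e n) = ∅ := by
      intro h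
      unfold nb
      split_ifs <;> rfl
    change (if n = n then (if u = n then 0 else nd (nb n (e n).1 _ _) _ _ _ u) else _) = _
    rw [if_pos rfl, if_neg (hlt u hu).ne]
    simp only [hen, hnb]
    unfold nd
    rw [dif_neg (by simp)]
    exact Finsupp.indicator_of_mem hu _

end Pool.Agent.Y402.CN
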