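import Pool.Agent.Y402.CN.HomLow
import Pool.Agent.Y402.CN.Univ

/-!
# A countable graph with `conn_{Z_2}(B_0(G)) ≥ 2` and `coind(B_0(G)) ≤ 2`
-/

set_option autoImplicit false

namespace Pool.Agent.Y402.CN

open Classical

noncomputable section

/-- restriction of equivariant maps to smaller spheres -/
theorem HasMap.mono {W : Type} {S : Finset W → Prop} {σ : W → W} {n k : ℕ} (h : HasMap S σ n)
    (hk : k ≤ n) : HasMap S σ k := by
  obtain ⟨f, hf, hc, he⟩ := h
  let ι : EuclideanSpace ℝ (Fin (k + 1)) → EuclideanSpace ℝ (Fin (n + 1)) := fun x =>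
    WithLp.toLp 2 fun i => if h : i.1 < k + 1 then x ⟨i.1, h⟩ else 0
  have hι : ∀ x, ‖ι x‖ = ‖x‖ := by
    intro x
    rw [EuclideanSpace.norm_eq, EuclideanSpace.norm_eq]
    congr 1
    refine (Fintype.sum_of_injective (Fin.castLE (by omega : k + 1 ≤ n + 1)) (Fin.castLE_injective _)
      (fun i => ‖x i‖ ^ 2) (fun i => ‖ι x i‖ ^ 2) ?_ ?_).symm
    · intro i hi
      have : ¬ i.1 < k + 1 := by
        intro h
        exact hi ⟨⟨i.1, h⟩, rfl⟩
      simp only [ι]
      rw [dif_neg this]
      simp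
    · intro i
      simp only [ι]
      rw [dif_pos (by simpa using i.2)]
      rfl
  have hιc : Continuous ι := by
    refine (PiLp.continuous_toLp 2 _).comp (continuous_pi fun i => ?_)
    by_cases h : i.1 < k + 1
    · simp only [h, dif_pos]
      fun_prop
    · simp only [h, dif_neg, not_false_iff]
      exact continuous_const
  have hιn : ∀ x, ι (-x) = - ι x := by
    intro x
    ext i
    simp only [ι, PiLp.neg_apply]
    split_ifs <;> simp
  let j : Metric.sphere (0 : EuclideanSpace ℝ (Fin (k + 1))) 1 →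
      Metric.sphere (0 : EuclideanSpace ℝ (Fin (n + 1))) 1 := fun p =>
    ⟨ι p.1, by
      rw [mem_sphere_zero_iff_norm, hι]
      exact mem_sphere_zero_iff_norm.1 p.2⟩
  refine ⟨fun p => f (j p), fun p => hf _, fun w => (hc w).comp
    (Continuous.subtype_mk (hιc.comp continuous_subtype_val) _), fun p => ?_⟩
  have : j (-p) = - j p := Subtype.ext (hιn p.1)
  change f (j (-p)) = f (j p) ∘ σ
  rw [this, he]

/-- the group -/
abbrev MM : Type := ℚ ⧸ AddSubgroup.zmultiples (1 : ℚ)

def half : MM := QuotientAddGroup.mk (1 / 2 : ℚ)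

theorem half_two : half + half = 0 := by
  unfold half
  rw [← QuotientAddGroup.mk_add, QuotientAddGroup.eq_zero_iff]
  norm_num

theorem half_ne : half ≠ 0 := by
  unfold half
  rw [Ne, QuotientAddGroup.eq_zero_iff, AddSubgroup.mem_zmultiples_iff]
  rintro ⟨k, hk⟩
  have h1 : (k : ℚ) * 2 = 1 := by
    rw [zsmul_eq_mul, mul_one] at hk
    rw [hk]; norm_num
  have h2 : k * 2 = 1 := by exact_mod_cast h1
  omega

theorem mm_div (m : MM) : ∃ k, k + k = m := by
  induction m using QuotientAddGroup.induction_on with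
  | H q =>
    refine ⟨QuotientAddGroup.mk (q / 2), ?_⟩
    rw [← QuotientAddGroup.mk_add]
    congr 1
    ring

theorem infinite_graph : ∃ G : SimpleGraph ℕ,
    (∀ m, m ≤ 3 → HomVan (Box G) m) ∧ ¬ HasMap (Box G) flip 3 := by
  have : Countable MM :=
    (QuotientAddGroup.mk_surjective (s := AddSubgroup.zmultiples (1 : ℚ))).countable
  obtain ⟨s, hs, h1, h2⟩ := exists_univ MM half half_two
  let G : SimpleGraph ℕ := { Adj := s.A, symm := ⟨hs.sym⟩, loopless := ⟨hs.irr⟩ }
  let L : Lab G MM half :=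
    { t := s.t, d := s.d, two := half_two, ht := hs.ht, hd := hs.hd, alt := hs.alt,
      diag := hs.diag }
  have hL : L.Uni := ⟨h1, h2, mm_div, ⟨0⟩⟩
  refine ⟨G, fun m hm => ?_, L.no_map half_ne⟩
  interval_cases m
  · exact homVan0 L hL
  · exact homVan1 L hL
  · exact homVan2 L hL
  · exact homVan3 L hL

end

end Pool.Agent.Y402.CN
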