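import Pool.Agent.Y402.CN.SuspHom

/-!
# The homology of a suspension from the homology of the complex
-/

set_option autoImplicit false

namespace Pool.Agent.Y402.CN

open Classical Finset

attribute [-instance] instDecidableEqSum

noncomputable section

variable {W : Type}

/-- the part of a chain which contains the second pole -/
def R' (b : Finset (W ⊕ Bool)) : Chain W := if Sum.inr true ∈ b then sg b.toLeft else 0

theorem R'_J (a : Finset W) : R' (J true a) = sg a := by
  unfold R'
  rw [if_pos (by simp [J]), J_toLeft]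

theorem R'_J' (a : Finset W) : R' (J false a) = 0 := by
  unfold R'
  rw [if_neg (by simp [J])]

theorem eq_J' (b : Finset (W ⊕ Bool)) (h : Sum.inr true ∈ b) (h' : Sum.inr false ∉ b) :
    b = J true b.toLeft := by
  ext v
  rcases v with v | v
  · simp [J]
  · rcases v with _ | _
    · simp [J, h']
    · simp [J, h]

theorem eq_map (b : Finset (W ⊕ Bool)) (h : Sum.inr true ∉ b) (h' : Sum.inr false ∉ b) :
    b = b.toLeft.map Function.Embedding.inl := by
  ext v
  rcases v with v | v
  · simp
  · rcases v with _ | _
    · simp [h']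
    · simp [h]

theorem R'_bd (S : Finset W → Prop) (b : Finset (W ⊕ Bool)) (hb : Susp S b) :
    lin R' (bd (W ⊕ Bool) (sg b)) = bd W (R' b) := by
  rw [lin_bd]
  by_cases h : Sum.inr true ∈ b
  · have h' : Sum.inr false ∉ b := fun h' => hb.2 ⟨h', h⟩
    rw [eq_J' b h h', sum_J, R'_J, bd_sg]
    have : R' (b.toLeft.map Function.Embedding.inl) = 0 := by
      unfold R'
      rw [if_neg (J_notMem true _)]
    rw [this, zero_add]
    exact Finset.sum_congr rfl fun w _ => R'_J _
  · rw [Finset.sum_eq_zero]
    · unfold R'
      rw [if_neg h, map_zero]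
    · intro v _
      unfold R'
      rw [if_neg (fun h' => h (Finset.mem_of_mem_erase h'))]

theorem sum_map_erase {Q : Type} [AddCommMonoid Q] (F : Finset (W ⊕ Bool) → Q) (a : Finset W) :
    ∑ v ∈ a.map Function.Embedding.inl, F ((a.map Function.Embedding.inl).erase v) =
      ∑ w ∈ a, F ((a.erase w).map Function.Embedding.inl) := by
  rw [Finset.sum_map]
  refine Finset.sum_congr rfl fun w _ => ?_
  congr 1
  ext v
  rcases v with v | v
  · simp
  · simp

theorem homVan_susp (S : Finset W → Prop) (m : ℕ) (h : HomVan S m) :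
    HomVan (Susp S) (m + 1) := by
  intro F hF hb
  set π := ((On (fun b : Finset (W ⊕ Bool) => Susp S b ∧ b.card = m + 1 + 1)).map
    (bd (W ⊕ Bool))).mkQ with hπ
  -- cone formulas
  have cone : ∀ (p : Bool) (a : Finset W), S a → a.card = m + 1 →
      π (sg (a.map Function.Embedding.inl)) = ∑ w ∈ a, π (sg (J p (a.erase w))) := by
    intro p a ha hc
    have h1 : π (bd (W ⊕ Bool) (sg (J p a))) = 0 := by
      rw [hπ, Submodule.mkQ_apply, Submodule.Quotient.mk_eq_zero]
      exact ⟨sg (J p a), sg_mem ⟨J_susp S p a ha, by rw [J_card, hc]⟩, rfl⟩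
    rw [bd_sg, sum_J sg, map_add, map_sum] at h1
    exact eq_of_add h1
  let tq : Finset (W ⊕ Bool) → Chain (W ⊕ Bool) ⧸ (On (fun b : Finset (W ⊕ Bool) =>
      Susp S b ∧ b.card = m + 1 + 1)).map (bd (W ⊕ Bool)) := fun c =>
    if Sum.inr true ∈ c ∨ Sum.inr false ∈ c then 0 else π (sg (J false c.toLeft))
  let Θ : Chain (W ⊕ Bool) →ₗ[ZMod 2] _ := lin tq
  let U : Chain W →ₗ[ZMod 2] _ := lin fun a : Finset W => π (sg (J false a)) + π (sg (J true a))
  have hmapΘ : ∀ a : Finset W, tq (a.map Function.Embedding.inl) = π (sg (J false a)) := by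
    intro a
    simp only [tq]
    rw [if_neg (by simp)]
    congr 3
    ext w; simp
  have hJΘ : ∀ (p : Bool) (a : Finset W), tq (J p a) = 0 := by
    intro p a
    simp only [tq]
    rw [if_pos]
    rcases p with _ | _
    · right; simp [J]
    · left; simp [J]
  have key : π F = Θ (bd (W ⊕ Bool) F) + U (lin R' F) := by
    have := eq_of_support π ((Θ.comp (bd (W ⊕ Bool)) + U.comp (lin R') :
      Chain (W ⊕ Bool) →ₗ[ZMod 2] _)) F (fun b hb' => by
        obtain ⟨hbS, hbc⟩ := hF b hb'
        simp only [LinearMap.add_apply, LinearMap.comp_apply]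
        rw [lin_sg]
        change _ = lin tq _ + _
        rw [lin_bd]
        by_cases ht : Sum.inr true ∈ b
        · have hf : Sum.inr false ∉ b := fun h' => hbS.2 ⟨h', ht⟩
          rw [eq_J' b ht hf]
          rw [sum_J tq, hmapΘ, Finset.sum_eq_zero (fun w _ => hJΘ true _), add_zero, R'_J]
          simp only [U]
          rw [lin_sg, add_self_left']
        · by_cases hf : Sum.inr false ∈ b
          · rw [eq_J b hf ht]
            rw [sum_J tq, hmapΘ, Finset.sum_eq_zero (fun w _ => hJΘ false _),
              add_zero, R'_J', map_zero, add_zero]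
          · have hmap := eq_map b ht hf
            have hcard : b.toLeft.card = m + 1 := by
              have := congrArg Finset.card hmap
              rw [Finset.card_map, hbc] at this
              exact this.symm
            have hR : R' b = 0 := by unfold R'; rw [if_neg ht]
            rw [hR, map_zero, add_zero]
            have e1 : π (sg b) = ∑ w ∈ b.toLeft, π (sg (J false (b.toLeft.erase w))) := by
              rw [← cone false b.toLeft hbS.1 hcard, ← hmap]
            have e2 : ∑ v ∈ b, tq (b.erase v) =
                ∑ w ∈ b.toLeft, tq ((b.toLeft.erase w).map Function.Embedding.inl) := by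
              rw [← sum_map_erase tq b.toLeft, ← hmap]
            rw [e1, e2]
            exact (Finset.sum_congr rfl fun w _ => hmapΘ _).symm)
    exact this
  -- the part at the second pole is a boundary
  have hR0 : bd W (lin R' F) = 0 := by
    have e := eq_of_support ((lin R').comp (bd (W ⊕ Bool))) ((bd W).comp (lin R')) F (fun b hb' => by
      simp only [LinearMap.comp_apply]
      rw [R'_bd S b (hF b hb').1, lin_sg])
    simp only [LinearMap.comp_apply] at e
    rw [← e, hb, map_zero]
  have hRmem : ∀ a ∈ (lin R' F).support, S a ∧ a.card = m := by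
    have : lin R' F ∈ On (fun a : Finset W => S a ∧ a.card = m) := by
      unfold lin
      rw [Finsupp.linearCombination_apply, Finsupp.sum]
      refine Submodule.sum_mem _ fun b hb' => Submodule.smul_mem _ _ ?_
      unfold R'
      split_ifs with h1
      · obtain ⟨h2, h3⟩ := hF b hb'
        refine sg_mem ⟨h2.1, ?_⟩
        have h4 : b = J true b.toLeft := eq_J' b h1 fun h' => h2.2 ⟨h', h1⟩
        have h5 := J_card true b.toLeft
        rw [← h4, h3] at h5
        omega
      · exact Submodule.zero_mem _
    exact mem_On.1 this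
  obtain ⟨g, hg, hg'⟩ := h (lin R' F) hRmem hR0
  have hU : U (bd W g) = 0 := by
    have e := eq_of_support (U.comp (bd W)) 0 g (fun a ha => by
      obtain ⟨h1, h2⟩ := hg a ha
      simp only [LinearMap.comp_apply, LinearMap.zero_apply, U]
      rw [lin_bd, Finset.sum_add_distrib, ← cone false a h1 h2, ← cone true a h1 h2, add_self'])
    simpa using e
  rw [hb, map_zero, zero_add, ← hg', hU, hπ, Submodule.mkQ_apply, Submodule.Quotient.mk_eq_zero] at key
  obtain ⟨H, hH, hH'⟩ := key
  exact ⟨H, mem_On.1 hH, hH'⟩

theorem homVan_susp0 (S : Finset W → Prop) (h : S ∅) : HomVan (Susp S) 0 := by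
  refine homVan_of (Susp S) 0 0 fun a _ hc => ?_
  rw [Finset.card_eq_zero] at hc
  subst hc
  rw [LinearMap.zero_apply, Submodule.mkQ_apply, Submodule.Quotient.mk_eq_zero]
  refine ⟨sg (J false ∅), sg_mem ⟨J_susp S false ∅ h, by rw [J_card]; rfl⟩, ?_⟩
  rw [bd_sg, sum_J sg]
  simp

end

end Pool.Agent.Y402.CN
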