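import Pool.Agent.Y402.CN.NoMap

/-!
# Obstruction cochains on a suspension
-/

set_option autoImplicit false

namespace Pool.Agent.Y402.CN

open Classical

noncomputable section

/-- a one-cocycle which is anti-invariant up to the coboundary of `l` -/
structure Coc {W : Type} (S : Finset W → Prop) (σ : W → W) (M : Type) [AddCommGroup M] (τ : M) where
  m : W → W → M
  l : W → M
  two : τ + τ = 0
  inv : ∀ w, σ (σ w) = w
  alt : ∀ x y, m x y = - m y x
  diag : ∀ x, m x x = 0
  coc : ∀ s, S s → ∀ x ∈ s, ∀ y ∈ s, ∀ z ∈ s, m x y + m y z = m x z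
  minv : ∀ s, S s → ∀ x ∈ s, ∀ y ∈ s, m x y + m (σ x) (σ y) = l y - l x
  hl : ∀ x, l (σ x) = l x + τ

variable {W : Type} {S : Finset W → Prop} {σ : W → W} {M : Type} [AddCommGroup M] {τ : M}
  (C : Coc S σ M τ)

/-- two-cochain -/
def Coc.mu : W ⊕ Bool → W ⊕ Bool → W ⊕ Bool → M
  | Sum.inr false, Sum.inl x, Sum.inl y => C.m x y
  | Sum.inl x, Sum.inr false, Sum.inl y => C.m y x
  | Sum.inl x, Sum.inl y, Sum.inr false => C.m x y
  | _, _, _ => 0

/-- one-cochain -/
def Coc.lam : W ⊕ Bool → W ⊕ Bool → M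
  | Sum.inl x, Sum.inl y => C.m y x
  | Sum.inr true, Sum.inl x => - C.l x
  | Sum.inl x, Sum.inr true => C.l x
  | _, _ => 0

/-- zero-cochain -/
def Coc.rho : W ⊕ Bool → M
  | Sum.inl x => - C.l x
  | Sum.inr false => τ
  | Sum.inr true => 0

theorem Coc.obs_r1 (s : Finset (W ⊕ Bool)) (hs : Susp S s) (x y z w : W ⊕ Bool) (hx : x ∈ s)
    (hy : y ∈ s) (hz : z ∈ s) (hw : w ∈ s) :
    C.mu y z w - C.mu x z w + C.mu x y w - C.mu x y z = 0 := by
  obtain ⟨h1, h2⟩ := hs
  have hc : ∀ a b c : W, Sum.inl a ∈ s → Sum.inl b ∈ s → Sum.inl c ∈ s →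
      C.m a b + C.m b c = C.m a c := fun a b c ha hb hc =>
    C.coc _ h1 a (Finset.mem_toLeft.2 ha) b (Finset.mem_toLeft.2 hb) c (Finset.mem_toLeft.2 hc)
  rcases x with x | _ | _ <;> rcases y with y | _ | _ <;> rcases z with z | _ | _ <;>
    rcases w with w | _ | _ <;>
    first
    | exact (h2 (And.intro hx hy)).elim
    | exact (h2 (And.intro hy hx)).elim
    | exact (h2 (And.intro hx hz)).elim
    | exact (h2 (And.intro hz hx)).elim
    | exact (h2 (And.intro hx hw)).elim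
    | exact (h2 (And.intro hw hx)).elim
    | exact (h2 (And.intro hy hz)).elim
    | exact (h2 (And.intro hz hy)).elim
    | exact (h2 (And.intro hy hw)).elim
    | exact (h2 (And.intro hw hy)).elim
    | exact (h2 (And.intro hz hw)).elim
    | exact (h2 (And.intro hw hz)).elim
    | (simp only [Coc.mu]; abel1)
    | (simp only [Coc.mu]; rw [C.alt x y]; abel1)
    | (simp only [Coc.mu]; rw [C.alt x z]; abel1)
    | (simp only [Coc.mu]; rw [C.alt x w]; abel1)
    | (simp only [Coc.mu]; rw [C.alt y z]; abel1)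
    | (simp only [Coc.mu]; rw [C.alt y w]; abel1)
    | (simp only [Coc.mu]; rw [C.alt z w]; abel1)
    | (simp only [Coc.mu]; rw [← hc x y z hx hy hz]; abel1)
    | (simp only [Coc.mu]; rw [C.alt z y, C.alt z x, ← hc x y z hx hy hz]; abel1)
    | (simp only [Coc.mu]; rw [← hc x y w hx hy hw]; abel1)
    | (simp only [Coc.mu]; rw [C.alt w y, C.alt w x, ← hc x y w hx hy hw]; abel1)
    | (simp only [Coc.mu]; rw [← hc x z w hx hz hw]; abel1)
    | (simp only [Coc.mu]; rw [C.alt z x, C.alt w x, ← hc x z w hx hz hw]; abel1)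
    | (simp only [Coc.mu]; rw [← hc y z w hy hz hw]; abel1)

theorem Coc.obs_r2 (s : Finset (W ⊕ Bool)) (hs : Susp S s) (x y z : W ⊕ Bool) (hx : x ∈ s)
    (hy : y ∈ s) (hz : z ∈ s) :
    C.mu (suspInv σ x) (suspInv σ y) (suspInv σ z) - C.mu x y z =
      C.lam y z - C.lam x z + C.lam x y := by
  obtain ⟨h1, h2⟩ := hs
  have hc : ∀ a b c : W, Sum.inl a ∈ s → Sum.inl b ∈ s → Sum.inl c ∈ s →
      C.m a b + C.m b c = C.m a c := fun a b c ha hb hc =>
    C.coc _ h1 a (Finset.mem_toLeft.2 ha) b (Finset.mem_toLeft.2 hb) c (Finset.mem_toLeft.2 hc)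
  have hi : ∀ a b : W, Sum.inl a ∈ s → Sum.inl b ∈ s →
      C.m (σ a) (σ b) = C.l b - C.l a - C.m a b := fun a b ha hb => by
    rw [← C.minv _ h1 a (Finset.mem_toLeft.2 ha) b (Finset.mem_toLeft.2 hb)]
    abel
  rcases x with x | _ | _ <;> rcases y with y | _ | _ <;> rcases z with z | _ | _ <;>
    simp only [suspInv, Sum.map_inl, Sum.map_inr, Bool.not_false, Bool.not_true, Coc.mu, Coc.lam] <;>
    first
    | exact (h2 (And.intro hx hy)).elim
    | exact (h2 (And.intro hy hx)).elim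
    | exact (h2 (And.intro hx hz)).elim
    | exact (h2 (And.intro hz hx)).elim
    | exact (h2 (And.intro hy hz)).elim
    | exact (h2 (And.intro hz hy)).elim
    | abel1
    | (rw [C.alt y x, C.alt z x, C.alt z y, ← hc x y z hx hy hz]; abel1)
    | (rw [hi _ _ hx hy]; rw [C.alt y x]; abel1)
    | (rw [hi _ _ hx hy]; rw [C.alt x y]; abel1)
    | (rw [hi _ _ hy hx]; rw [C.alt y x]; abel1)
    | (rw [hi _ _ hz hx]; rw [C.alt z x]; abel1)
    | (rw [hi _ _ hz hx]; abel1)
    | (rw [hi _ _ hx hz]; rw [C.alt z x]; abel1)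
    | (rw [hi _ _ hy hz]; rw [C.alt z y]; abel1)
    | (rw [hi _ _ hy hz]; abel1)
    | (rw [C.alt x y]; abel1)
    | (rw [C.alt x z]; abel1)
    | (rw [C.alt y z]; abel1)

theorem Coc.obs_r3 (s : Finset (W ⊕ Bool)) (hs : Susp S s) (x y : W ⊕ Bool) (hx : x ∈ s)
    (hy : y ∈ s) : C.lam x y + C.lam (suspInv σ x) (suspInv σ y) = C.rho y - C.rho x := by
  obtain ⟨h1, h2⟩ := hs
  have ht : τ = -τ := eq_neg_of_add_eq_zero_left C.two
  have hi : ∀ a b : W, Sum.inl a ∈ s → Sum.inl b ∈ s →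
      C.m (σ a) (σ b) = C.l b - C.l a - C.m a b := fun a b ha hb => by
    rw [← C.minv _ h1 a (Finset.mem_toLeft.2 ha) b (Finset.mem_toLeft.2 hb)]
    abel
  rcases x with x | _ | _ <;> rcases y with y | _ | _ <;>
    simp only [suspInv, Sum.map_inl, Sum.map_inr, Bool.not_false, Bool.not_true, Coc.lam, Coc.rho] <;>
    first
    | exact (h2 (And.intro hx hy)).elim
    | exact (h2 (And.intro hy hx)).elim
    | abel1
    | (rw [hi _ _ hy hx]; abel1)
    | (rw [C.hl]; abel1)

theorem Coc.obs_r4 (x : W ⊕ Bool) : C.rho (suspInv σ x) - C.rho x = τ := by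
  have ht : τ = -τ := eq_neg_of_add_eq_zero_left C.two
  rcases x with x | _ | _
  · simp only [suspInv, Sum.map_inl, Coc.rho]
    rw [C.hl]
    conv_rhs => rw [ht]
    abel
  · simp only [suspInv, Sum.map_inr, Bool.not_false, Coc.rho]
    rw [zero_sub, ← ht]
  · simp only [suspInv, Sum.map_inr, Bool.not_true, Coc.rho]
    rw [sub_zero]

/-- the obstruction cochains of the suspension -/
def Coc.obs : Obs (Susp S) (suspInv σ) M τ where
  mu := C.mu
  lam := C.lam
  rho := C.rho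
  inv := fun w => by
    rcases w with w | b
    · simp [suspInv, C.inv]
    · simp [suspInv]
  r1 := fun s hs x hx y hy z hz w hw => C.obs_r1 s hs x y z w hx hy hz hw
  r2 := fun s hs x hx y hy z hz => C.obs_r2 s hs x y z hx hy hz
  r3 := fun s hs x hx y hy => C.obs_r3 s hs x y hx hy
  r4 := C.obs_r4
  lam_alt := by
    rintro (x | _ | _) (y | _ | _) <;> simp [Coc.lam]
    exact C.alt _ _
  lam_diag := by
    rintro (x | _ | _) <;> simp [Coc.lam, C.diag]
  mu_alt := by
    rintro (x | _ | _) (y | _ | _) (z | _ | _) <;> simp [Coc.mu] <;> exact C.alt _ _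
  mu_left := by
    rintro (x | _ | _) (y | _ | _) <;> simp [Coc.mu, C.diag]
  mu_right := by
    rintro (x | _ | _) (y | _ | _) <;> simp [Coc.mu, C.diag]

/-- the cocycle on `B(G)` of a labelled graph -/
def Lab.cocM {V : Type} {G : SimpleGraph V} (L : Lab G M τ) (x y : V × Bool) : M :=
  match x.2, y.2 with
  | false, false => L.d x.1 y.1
  | false, true => L.t x.1 y.1
  | true, false => - L.t y.1 x.1
  | true, true => L.d y.1 x.1

/-- the cocycle of `B(G)` -/
def Lab.toCoc {V : Type} {G : SimpleGraph V} (L : Lab G M τ) : Coc (BoxB G) flip M τ where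
  m := L.cocM
  l := fun x => if x.2 then τ else 0
  two := L.two
  inv := fun w => by simp [flip]
  alt := by
    rintro ⟨a, _ | _⟩ ⟨b, _ | _⟩ <;> simp only [Lab.cocM, neg_neg]
    · exact L.alt _ _
    · exact L.alt _ _
  diag := by
    rintro ⟨a, _ | _⟩ <;> simp only [Lab.cocM] <;> exact L.diag _
  coc := by
    rintro s ⟨h0, ⟨p, hp⟩, ⟨q, hq⟩⟩ ⟨a, i⟩ hx ⟨b, j⟩ hy ⟨c, k⟩ hz
    have key : ∀ u u' v, G.Adj u v → G.Adj u' v → L.d u u' = L.t u v - L.t u' v := by
      intro u u' v h h'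
      rw [← L.hd v u u' h.symm h'.symm, L.ht u v h, L.ht u' v h']
      abel
    rcases i with _ | _ <;> rcases j with _ | _ <;> rcases k with _ | _ <;>
      simp only [Lab.cocM]
    · exact L.coc (hp a hx).symm (hp b hy).symm (hp c hz).symm
    · rw [key a b c (h0 a c hx hz) (h0 b c hy hz)]; abel
    · rw [key a c b (h0 a b hx hy) (h0 c b hz hy)]; abel
    · rw [← L.hd a c b (h0 a c hx hz) (h0 a b hx hy)]; abel
    · rw [key b c a (h0 b a hy hx) (h0 c a hz hx)]; abel
    · rw [← L.hd b c a (h0 b c hy hz) (h0 b a hy hx)]; abel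
    · rw [← L.hd c b a (h0 c b hz hy) (h0 c a hz hx)]; abel
    · rw [add_comm]
      exact L.coc (hq c hz) (hq b hy) (hq a hx)
  minv := by
    rintro s ⟨h0, -, -⟩ ⟨a, i⟩ hx ⟨b, j⟩ hy
    have ht : τ = -τ := eq_neg_of_add_eq_zero_left L.two
    rcases i with _ | _ <;> rcases j with _ | _ <;>
      simp only [Lab.cocM, flip, Bool.not_false, Bool.not_true, if_true, Bool.false_eq_true, if_false]
    · rw [L.alt a b]; abel
    · rw [L.ht a b (h0 a b hx hy)]
      conv_rhs => rw [ht]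
      abel
    · rw [L.ht b a (h0 b a hy hx)]
      conv_lhs => rw [neg_add_cancel_left]
      conv_lhs => rw [ht]
      abel
    · rw [L.alt a b]; abel
  hl := by
    rintro ⟨a, _ | _⟩
    · simp [flip]
    · simp [flip, L.two]

theorem Lab.no_map_susp {V : Type} {G : SimpleGraph V} (L : Lab G M τ) (hτ : τ ≠ 0) :
    ¬ HasMap (Susp (BoxB G)) (suspInv flip) 3 := L.toCoc.obs.no_map hτ

end

end Pool.Agent.Y402.CN
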