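import Pool.Agent.Y402.CN.FinPart
import Pool.Agent.Y402.CN.SuspBack
import Pool.Agent.Y402.CN.BoxBHom
import Pool.Agent.Y402.CN.SuspObs
import Pool.Agent.Y402.CN.Infinite

/-!
# Assembly
-/

set_option autoImplicit false

namespace Pool.Agent.Y402.CN

open Classical

attribute [-instance] instDecidableEqProd

noncomputable section

theorem conn_ge {W : Type} (S : Finset W → Prop) (h : ∀ m, m ≤ 3 → HomVan S m) :
    ((2 : ℝ) : EReal) ≤ connZ2 S := by
  refine le_sSup ⟨2, ⟨by norm_num, fun m hm => h m (by omega)⟩, ?_⟩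
  norm_num

theorem coind_le {W : Type} (S : Finset W → Prop) (σ : W → W) (h : ¬ HasMap S σ 3) :
    coind S σ ≤ ((2 : ℝ) : EReal) := by
  refine sSup_le ?_
  rintro _ ⟨z, hz, rfl⟩
  beta_reduce
  rw [EReal.coe_le_coe_iff]
  rcases hz with rfl | ⟨n, rfl, hn⟩
  · norm_num
  · have : n ≤ 2 := by
      by_contra hlt
      exact h (hn.mono (by omega))
    have h2 : (n : ℝ) ≤ 2 := by exact_mod_cast this
    simpa using h2

theorem coind_lt {W : Type} (S : Finset W → Prop) (σ : W → W) (h : ∀ m, m ≤ 3 → HomVan S m)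
    (h' : ¬ HasMap S σ 3) : coind S σ < connZ2 S + 1 := by
  have h1 := conn_ge S h
  have h2 := coind_le S σ h'
  have h3 : ((2 : ℝ) : EReal) < ((3 : ℝ) : EReal) := by
    rw [EReal.coe_lt_coe_iff]; norm_num
  have h4 : ((3 : ℝ) : EReal) = ((2 : ℝ) : EReal) + 1 := by
    rw [show (1 : EReal) = ((1 : ℝ) : EReal) from rfl, ← EReal.coe_add]
    norm_num
  refine lt_of_le_of_lt h2 (lt_of_lt_of_le h3 ?_)
  rw [h4]
  exact add_le_add_left h1 1

theorem finite_susp_conn (W : Type) [Finite W] (S : Finset W → Prop) (σ : W → W)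
    (hS : IsComplex S) (hσ : IsInvolution S σ) :
    (∀ n, (∀ m, m ≤ n → HomVan (Susp S) m) → HasMap (Susp S) (suspInv σ) n) ∧
      connZ2 (Susp S) + 1 ≤ coind (Susp S) (suspInv σ) := by
  cases nonempty_fintype W
  have := fun n h => finite_susp S σ hS hσ n h
  exact ⟨this, conn_le _ _ this⟩

theorem finite_box_conn (V : Type) [Finite V] (G : SimpleGraph V) :
    (∀ n, (∀ m, m ≤ n → HomVan (Box G) m) → HasMap (Box G) flip n) ∧
      connZ2 (Box G) + 1 ≤ coind (Box G) flip := by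
  cases nonempty_fintype V
  have := fun n h => finite_box G n h
  exact ⟨this, conn_le _ _ this⟩

theorem isComplex_boxB {V : Type} [Nonempty V] (G : SimpleGraph V) : IsComplex (BoxB G) := by
  obtain ⟨v0⟩ := ‹Nonempty V›
  refine ⟨⟨fun v w hv => by simp at hv, ⟨v0, fun v hv => by simp at hv⟩,
    ⟨v0, fun v hv => by simp at hv⟩⟩, fun a b hab hb => boxB_mono hab hb⟩

theorem isInvolution_boxB {V : Type} (G : SimpleGraph V) : IsInvolution (BoxB G) flip := by
  refine ⟨fun w => by simp [flip], ?_⟩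
  rintro a ⟨h0, ⟨p, hp⟩, ⟨q, hq⟩⟩
  have hm : ∀ (v : V) (i : Bool), (v, i) ∈ a.image flip ↔ (v, !i) ∈ a := by
    intro v i
    rw [Finset.mem_image]
    constructor
    · rintro ⟨⟨u, j⟩, hu, h⟩
      simp only [flip, Prod.mk.injEq] at h
      obtain ⟨rfl, rfl⟩ := h
      simpa using hu
    · intro h
      exact ⟨(v, !i), h, by simp [flip]⟩
  refine ⟨fun v w hv hw => ?_, ⟨q, fun v hv => ?_⟩, ⟨p, fun w hw => ?_⟩⟩
  · rw [hm] at hv hw
    exact (h0 w v hw hv).symm
  · rw [hm] at hv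
    exact (hq v hv).symm
  · rw [hm] at hw
    exact (hp w hw).symm

theorem isFree_boxB {V : Type} (G : SimpleGraph V) : IsFree (BoxB G) flip := by
  rintro a ⟨h0, -, -⟩ ⟨v, i⟩ hw hw'
  rcases i with _ | _
  · exact (h0 v v hw hw').ne rfl
  · exact (h0 v v hw' hw).ne rfl

theorem infinite_all : ∃ G : SimpleGraph ℕ,
    ((∀ m, m ≤ 3 → HomVan (Box G) m) ∧ ¬ HasMap (Box G) flip 3) ∧
    (∀ m, m ≤ 3 → HomVan (Susp (BoxB G)) m) ∧ ¬ HasMap (Susp (BoxB G)) (suspInv flip) 3 := by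
  have : Countable MM :=
    (QuotientAddGroup.mk_surjective (s := AddSubgroup.zmultiples (1 : ℚ))).countable
  obtain ⟨s, hs, h1, h2⟩ := exists_univ MM half half_two
  let G : SimpleGraph ℕ := { Adj := s.A, symm := ⟨hs.sym⟩, loopless := ⟨hs.irr⟩ }
  let L : Lab G MM half :=
    { t := s.t, d := s.d, two := half_two, ht := hs.ht, hd := hs.hd, alt := hs.alt,
      diag := hs.diag }
  have hL : L.Uni := ⟨h1, h2, mm_div, ⟨0⟩⟩
  refine ⟨G, ⟨fun m hm => ?_, L.no_map half_ne⟩, fun m hm => ?_, L.no_map_susp half_ne⟩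
  · interval_cases m
    · exact homVan0 L hL
    · exact homVan1 L hL
    · exact homVan2 L hL
    · exact homVan3 L hL
  · interval_cases m
    · exact homVan_susp0 _ (isComplex_boxB G).1
    · exact homVan_susp _ _ (homVanB0 L hL)
    · exact homVan_susp _ _ (homVanB1 L hL)
    · exact homVan_susp _ _ (homVanB2 L hL)

end

end Pool.Agent.Y402.CN
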