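import Mathlib

/-!
# The grid argument

A family of cochains on small tuples of a set with an involution, which is a Borsuk-Ulam
obstruction of degree three, cannot live on a set which is parametrized by a grid as the upper
hemisphere of the three-dimensional sphere.
-/

set_option autoImplicit false

namespace Pool.Agent.Y402.CN

open Finset

variable {M X : Type} [AddCommGroup M]

/-- the sum over a square -/
def Sq (μ : X → X → X → M) (a b c d : X) : M := μ a b d - μ a c d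

theorem cube (μ : X → X → X → M) (v0 v1 v2 v3 v12 v13 v23 v : X)
    (h1 : μ v1 v12 v - μ v0 v12 v + μ v0 v1 v - μ v0 v1 v12 = 0)
    (h2 : μ v1 v13 v - μ v0 v13 v + μ v0 v1 v - μ v0 v1 v13 = 0)
    (h3 : μ v2 v12 v - μ v0 v12 v + μ v0 v2 v - μ v0 v2 v12 = 0)
    (h4 : μ v2 v23 v - μ v0 v23 v + μ v0 v2 v - μ v0 v2 v23 = 0)
    (h5 : μ v3 v13 v - μ v0 v13 v + μ v0 v3 v - μ v0 v3 v13 = 0)
    (h6 : μ v3 v23 v - μ v0 v23 v + μ v0 v3 v - μ v0 v3 v23 = 0) :
    (Sq μ v1 v12 v13 v - Sq μ v0 v2 v3 v23) - (Sq μ v2 v12 v23 v - Sq μ v0 v1 v3 v13) +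
      (Sq μ v3 v13 v23 v - Sq μ v0 v1 v2 v12) = 0 := by
  unfold Sq
  have e : (μ v1 v12 v - μ v1 v13 v - (μ v0 v2 v23 - μ v0 v3 v23)) -
      (μ v2 v12 v - μ v2 v23 v - (μ v0 v1 v13 - μ v0 v3 v13)) +
      (μ v3 v13 v - μ v3 v23 v - (μ v0 v1 v12 - μ v0 v2 v12)) =
      (μ v1 v12 v - μ v0 v12 v + μ v0 v1 v - μ v0 v1 v12) -
      (μ v1 v13 v - μ v0 v13 v + μ v0 v1 v - μ v0 v1 v13) -
      (μ v2 v12 v - μ v0 v12 v + μ v0 v2 v - μ v0 v2 v12) +
      (μ v2 v23 v - μ v0 v23 v + μ v0 v2 v - μ v0 v2 v23) +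
      (μ v3 v13 v - μ v0 v13 v + μ v0 v3 v - μ v0 v3 v13) -
      (μ v3 v23 v - μ v0 v23 v + μ v0 v3 v - μ v0 v3 v23) := by abel
  rw [e, h1, h2, h3, h4, h5, h6]
  simp

theorem tele (f : ℕ → M) (n : ℕ) : ∑ i ∈ range n, (f (i + 1) - f i) = f n - f 0 :=
  Finset.sum_range_sub f n

theorem reflect2 (f : ℕ → ℕ → M) (n : ℕ) :
    ∑ i ∈ range n, ∑ j ∈ range n, f (n - 1 - i) (n - 1 - j) = ∑ i ∈ range n, ∑ j ∈ range n, f i j := by
  rw [Finset.sum_range_reflect (fun i => ∑ j ∈ range n, f i (n - 1 - j)) n]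
  exact Finset.sum_congr rfl fun i _ => Finset.sum_range_reflect (fun j => f i j) n

theorem grid (R : X → X → Prop) (ng : X → X) (μ : X → X → X → M) (l : X → X → M) (ρ : X → M) (τ : M)
    (r1 : ∀ a b c d, R a b → R a c → R a d → μ b c d - μ a c d + μ a b d - μ a b c = 0)
    (r2 : ∀ a b c, R a b → R a c → μ (ng a) (ng b) (ng c) - μ a b c = l b c - l a c + l a b)
    (r3 : ∀ a b, R a b → l a b + l (ng a) (ng b) = ρ b - ρ a)
    (r4 : ∀ a, ρ (ng a) - ρ a = τ)
    (s1 : ∀ a b, l a b = - l b a) (s1' : ∀ a, l a a = 0)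
    (s2 : ∀ a b c, μ a b c = - μ c b a) (s2' : ∀ a b, μ a a b = 0) (s2'' : ∀ a b, μ a b b = 0)
    (n : ℕ) (F : ℕ → ℕ → ℕ → X)
    (hR : ∀ i j k a b c, i < n → j < n → k < n → a ≤ 1 → b ≤ 1 → c ≤ 1 →
      R (F i j k) (F (i + a) (j + b) (k + c)))
    (b1 : ∀ j k j' k', F 0 j k = F 0 j' k') (b1' : ∀ j k j' k', F n j k = F n j' k')
    (b2 : ∀ i k k', F i 0 k = F i 0 k') (b2' : ∀ i k k', F i n k = F i n k')
    (b3 : ∀ i j, i ≤ n → j ≤ n → F i j n = ng (F (n - i) (n - j) 0))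
    (b4 : ∀ i, i ≤ n → F i n 0 = ng (F (n - i) 0 0)) (b5 : F n 0 0 = ng (F 0 0 0)) (hn : 0 < n) :
    τ = 0 := by
  set A : ℕ → ℕ → ℕ → M := fun i j k =>
    Sq μ (F i j k) (F i (j + 1) k) (F i j (k + 1)) (F i (j + 1) (k + 1)) with hA
  set B : ℕ → ℕ → ℕ → M := fun i j k =>
    Sq μ (F i j k) (F (i + 1) j k) (F i j (k + 1)) (F (i + 1) j (k + 1)) with hB
  set C : ℕ → ℕ → ℕ → M := fun i j k =>
    Sq μ (F i j k) (F (i + 1) j k) (F i (j + 1) k) (F (i + 1) (j + 1) k) with hC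
  have hcube : ∀ i j k, i < n → j < n → k < n →
      (A (i + 1) j k - A i j k) - (B i (j + 1) k - B i j k) + (C i j (k + 1) - C i j k) = 0 := by
    intro i j k hi hj hk
    have q1 := hR i j k 1 0 0 hi hj hk le_rfl (Nat.zero_le _) (Nat.zero_le _)
    have q2 := hR i j k 0 1 0 hi hj hk (Nat.zero_le _) le_rfl (Nat.zero_le _)
    have q3 := hR i j k 0 0 1 hi hj hk (Nat.zero_le _) (Nat.zero_le _) le_rfl
    have q12 := hR i j k 1 1 0 hi hj hk le_rfl le_rfl (Nat.zero_le _)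
    have q13 := hR i j k 1 0 1 hi hj hk le_rfl (Nat.zero_le _) le_rfl
    have q23 := hR i j k 0 1 1 hi hj hk (Nat.zero_le _) le_rfl le_rfl
    have q := hR i j k 1 1 1 hi hj hk le_rfl le_rfl le_rfl
    simp only [Nat.add_zero] at q1 q2 q3 q12 q13 q23 q
    exact cube μ (F i j k) (F (i + 1) j k) (F i (j + 1) k) (F i j (k + 1)) (F (i + 1) (j + 1) k)
      (F (i + 1) j (k + 1)) (F i (j + 1) (k + 1)) (F (i + 1) (j + 1) (k + 1))
      (r1 _ _ _ _ q1 q12 q) (r1 _ _ _ _ q1 q13 q) (r1 _ _ _ _ q2 q12 q) (r1 _ _ _ _ q2 q23 q)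
      (r1 _ _ _ _ q3 q13 q) (r1 _ _ _ _ q3 q23 q)
  -- sum of all cubes
  have hsum : ∑ i ∈ range n, ∑ j ∈ range n, ∑ k ∈ range n,
      ((A (i + 1) j k - A i j k) - (B i (j + 1) k - B i j k) + (C i j (k + 1) - C i j k)) = 0 := by
    refine Finset.sum_eq_zero fun i hi => Finset.sum_eq_zero fun j hj =>
      Finset.sum_eq_zero fun k hk => ?_
    exact hcube i j k (mem_range.1 hi) (mem_range.1 hj) (mem_range.1 hk)
  simp only [Finset.sum_add_distrib, Finset.sum_sub_distrib] at hsum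
  have hAs : ∑ i ∈ range n, ∑ j ∈ range n, ∑ k ∈ range n, A (i + 1) j k =
      ∑ i ∈ range n, ∑ j ∈ range n, ∑ k ∈ range n, A i j k := by
    rw [← sub_eq_zero, ← Finset.sum_sub_distrib]
    rw [tele (fun i => ∑ j ∈ range n, ∑ k ∈ range n, A i j k) n]
    have h0 : ∀ j k, A 0 j k = 0 := by
      intro j k
      simp only [hA, Sq]
      rw [b1 (j + 1) k j k, b1 j (k + 1) j k]
      simp
    have h1 : ∀ j k, A n j k = 0 := by
      intro j k
      simp only [hA, Sq]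
      rw [b1' (j + 1) k j k, b1' j (k + 1) j k]
      simp
    simp [h0, h1]
  have hBs : ∑ i ∈ range n, ∑ j ∈ range n, ∑ k ∈ range n, B i (j + 1) k =
      ∑ i ∈ range n, ∑ j ∈ range n, ∑ k ∈ range n, B i j k := by
    refine Finset.sum_congr rfl fun i _ => ?_
    rw [← sub_eq_zero, ← Finset.sum_sub_distrib]
    rw [tele (fun j => ∑ k ∈ range n, B i j k) n]
    have h0 : ∀ k, B i 0 k = 0 := by
      intro k
      simp only [hB, Sq]
      rw [b2 i (k + 1) k, b2 (i + 1) (k + 1) k, s2', s2'']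
      simp
    have h1 : ∀ k, B i n k = 0 := by
      intro k
      simp only [hB, Sq]
      rw [b2' i (k + 1) k, b2' (i + 1) (k + 1) k, s2', s2'']
      simp
    simp [h0, h1]
  have hCs : ∑ i ∈ range n, ∑ j ∈ range n, ∑ k ∈ range n, C i j (k + 1) -
      ∑ i ∈ range n, ∑ j ∈ range n, ∑ k ∈ range n, C i j k =
      ∑ i ∈ range n, ∑ j ∈ range n, (C i j n - C i j 0) := by
    rw [← Finset.sum_sub_distrib]
    refine Finset.sum_congr rfl fun i _ => ?_
    rw [← Finset.sum_sub_distrib]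
    refine Finset.sum_congr rfl fun j _ => ?_
    rw [← Finset.sum_sub_distrib]
    exact tele (fun k => C i j k) n
  rw [hAs, hBs, sub_self, sub_self, sub_self, zero_add, hCs] at hsum
  -- the top face
  set G : ℕ → ℕ → X := fun i j => F i j 0 with hG
  set D : ℕ → ℕ → M := fun i j => Sq (fun x y z => μ (ng x) (ng y) (ng z)) (G i j) (G (i + 1) j)
    (G i (j + 1)) (G (i + 1) (j + 1)) with hD
  have htop : ∑ i ∈ range n, ∑ j ∈ range n, C i j n = ∑ i ∈ range n, ∑ j ∈ range n, D i j := by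
    rw [← reflect2 D n]
    refine Finset.sum_congr rfl fun i hi => Finset.sum_congr rfl fun j hj => ?_
    have hi' := mem_range.1 hi
    have hj' := mem_range.1 hj
    simp only [hC, hD, Sq, hG]
    rw [b3 i j hi'.le hj'.le, b3 (i + 1) j hi' hj'.le, b3 i (j + 1) hi'.le hj',
      b3 (i + 1) (j + 1) hi' hj']
    have e1 : n - 1 - i + 1 = n - i := by omega
    have e2 : n - 1 - j + 1 = n - j := by omega
    have e3 : n - (i + 1) = n - 1 - i := by omega
    have e4 : n - (j + 1) = n - 1 - j := by omega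
    rw [e1, e2, e3, e4]
    rw [s2 (ng (F (n - i) (n - j) 0)), s2 (ng (F (n - i) (n - j) 0))]
    abel
  have hD2 : ∑ i ∈ range n, ∑ j ∈ range n, (D i j - C i j 0) = 0 := by
    have : ∑ i ∈ range n, ∑ j ∈ range n, (D i j - C i j 0) =
        ∑ i ∈ range n, ∑ j ∈ range n, (C i j n - C i j 0) := by
      simp only [Finset.sum_sub_distrib]
      rw [htop]
    rw [this]; exact hsum
  have hsq : ∀ i j, i < n → j < n → D i j - C i j 0 =
      (l (G (i + 1) j) (G (i + 1) (j + 1)) - l (G i j) (G i (j + 1))) -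
      (l (G i (j + 1)) (G (i + 1) (j + 1)) - l (G i j) (G (i + 1) j)) := by
    intro i j hi hj
    have q1 := hR i j 0 1 0 0 hi hj hn le_rfl (Nat.zero_le _) (Nat.zero_le _)
    have q2 := hR i j 0 0 1 0 hi hj hn (Nat.zero_le _) le_rfl (Nat.zero_le _)
    have q12 := hR i j 0 1 1 0 hi hj hn le_rfl le_rfl (Nat.zero_le _)
    simp only [Nat.add_zero] at q1 q2 q12
    have t1 := r2 (G i j) (G (i + 1) j) (G (i + 1) (j + 1)) q1 q12
    have t2 := r2 (G i j) (G i (j + 1)) (G (i + 1) (j + 1)) q2 q12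
    simp only [hD, hC, Sq]
    have e : (μ (ng (G i j)) (ng (G (i + 1) j)) (ng (G (i + 1) (j + 1))) -
        μ (ng (G i j)) (ng (G i (j + 1))) (ng (G (i + 1) (j + 1)))) -
        (μ (G i j) (G (i + 1) j) (G (i + 1) (j + 1)) - μ (G i j) (G i (j + 1)) (G (i + 1) (j + 1))) =
        (μ (ng (G i j)) (ng (G (i + 1) j)) (ng (G (i + 1) (j + 1))) -
          μ (G i j) (G (i + 1) j) (G (i + 1) (j + 1))) -
        (μ (ng (G i j)) (ng (G i (j + 1))) (ng (G (i + 1) (j + 1))) -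
          μ (G i j) (G i (j + 1)) (G (i + 1) (j + 1))) := by abel
    rw [show F i j 0 = G i j from rfl, show F (i + 1) j 0 = G (i + 1) j from rfl,
      show F i (j + 1) 0 = G i (j + 1) from rfl, show F (i + 1) (j + 1) 0 = G (i + 1) (j + 1) from rfl,
      e, t1, t2]
    abel
  have hD3 : ∑ i ∈ range n, ∑ j ∈ range n,
      ((l (G (i + 1) j) (G (i + 1) (j + 1)) - l (G i j) (G i (j + 1))) -
      (l (G i (j + 1)) (G (i + 1) (j + 1)) - l (G i j) (G (i + 1) j))) = 0 := by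
    rw [← hD2]
    exact Finset.sum_congr rfl fun i hi => Finset.sum_congr rfl fun j hj =>
      (hsq i j (mem_range.1 hi) (mem_range.1 hj)).symm
  simp only [Finset.sum_sub_distrib] at hD3
  have hE1 : ∑ i ∈ range n, ∑ j ∈ range n, l (G (i + 1) j) (G (i + 1) (j + 1)) -
      ∑ i ∈ range n, ∑ j ∈ range n, l (G i j) (G i (j + 1)) = 0 := by
    rw [← Finset.sum_sub_distrib]
    rw [tele (fun i => ∑ j ∈ range n, l (G i j) (G i (j + 1))) n]
    have h0 : ∀ j, l (G 0 j) (G 0 (j + 1)) = 0 := by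
      intro j
      simp only [hG]
      rw [b1 (j + 1) 0 j 0, s1']
    have h1 : ∀ j, l (G n j) (G n (j + 1)) = 0 := by
      intro j
      simp only [hG]
      rw [b1' (j + 1) 0 j 0, s1']
    simp [h0, h1]
  have hE2 : ∑ i ∈ range n, ∑ j ∈ range n, l (G i (j + 1)) (G (i + 1) (j + 1)) -
      ∑ i ∈ range n, ∑ j ∈ range n, l (G i j) (G (i + 1) j) =
      ∑ i ∈ range n, (l (G i n) (G (i + 1) n) - l (G i 0) (G (i + 1) 0)) := by
    rw [← Finset.sum_sub_distrib]
    refine Finset.sum_congr rfl fun i _ => ?_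
    rw [← Finset.sum_sub_distrib]
    exact tele (fun j => l (G i j) (G (i + 1) j)) n
  rw [hE1, hE2, zero_sub, neg_eq_zero, Finset.sum_sub_distrib] at hD3
  have hE3 : ∑ i ∈ range n, l (G i n) (G (i + 1) n) =
      - ∑ i ∈ range n, l (ng (G i 0)) (ng (G (i + 1) 0)) := by
    rw [← Finset.sum_range_reflect (fun i => l (ng (G i 0)) (ng (G (i + 1) 0))) n,
      ← Finset.sum_neg_distrib]
    refine Finset.sum_congr rfl fun i hi => ?_
    have hi' := mem_range.1 hi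
    simp only [hG]
    rw [b4 i hi'.le, b4 (i + 1) hi']
    have e1 : n - 1 - i + 1 = n - i := by omega
    have e3 : n - (i + 1) = n - 1 - i := by omega
    rw [e1, e3, s1]
  rw [hE3] at hD3
  have hE4 : ∑ i ∈ range n, (l (G i 0) (G (i + 1) 0) + l (ng (G i 0)) (ng (G (i + 1) 0))) = 0 := by
    rw [Finset.sum_add_distrib]
    have := congrArg Neg.neg hD3
    rw [neg_zero] at this
    rw [← this]
    abel
  have hE5 : ∑ i ∈ range n, (l (G i 0) (G (i + 1) 0) + l (ng (G i 0)) (ng (G (i + 1) 0))) =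
      ∑ i ∈ range n, (ρ (G (i + 1) 0) - ρ (G i 0)) := by
    refine Finset.sum_congr rfl fun i hi => ?_
    have hi' := mem_range.1 hi
    have q1 := hR i 0 0 1 0 0 hi' hn hn le_rfl (Nat.zero_le _) (Nat.zero_le _)
    simp only [Nat.add_zero] at q1
    exact r3 _ _ q1
  rw [hE5, tele (fun i => ρ (G i 0)) n] at hE4
  simp only [hG] at hE4
  rw [b5, r4] at hE4
  exact hE4

end Pool.Agent.Y402.CN
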