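import Pool.Agent.Y402.CN.Defs
import Pool.Agent.Y402.CN.Grid

/-!
# Labelled graphs: no equivariant map of the three-dimensional sphere to the box complex
-/

set_option autoImplicit false

namespace Pool.Agent.Y402.CN

open Classical

/-- labels `t u v` on the oriented edges with differences `d` on pairs with a common neighbour -/
structure Lab {V : Type} (G : SimpleGraph V) (M : Type) [AddCommGroup M] (τ : M) where
  t : V → V → M
  d : V → V → M
  two : τ + τ = 0
  ht : ∀ u v, G.Adj u v → t v u = t u v + τ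
  hd : ∀ u v v', G.Adj u v → G.Adj u v' → t u v - t u v' = d v v'
  alt : ∀ u v, d u v = - d v u
  diag : ∀ u, d u u = 0

section coch

variable {V : Type} {G : SimpleGraph V} {M : Type} [AddCommGroup M] {τ : M} (L : Lab G M τ)

/-- one-cochain -/
def Lab.lam (x y : V × Bool) : M :=
  match x.2, y.2 with
  | false, true => L.t x.1 y.1
  | true, false => - L.t y.1 x.1
  | _, _ => 0

/-- two-cochain -/
def Lab.mu (x y z : V × Bool) : M :=
  match x.2, y.2, z.2 with
  | false, false, true => L.d x.1 y.1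
  | false, true, false => L.d z.1 x.1
  | true, false, false => L.d y.1 z.1
  | _, _, _ => 0

/-- zero-cochain -/
def Lab.rho (_ : Lab G M τ) (x : V × Bool) : M := if x.2 then τ else 0

theorem Lab.coc {v a b c : V} (ha : G.Adj v a) (hb : G.Adj v b) (hc : G.Adj v c) :
    L.d a b + L.d b c = L.d a c := by
  rw [← L.hd v a b ha hb, ← L.hd v b c hb hc, ← L.hd v a c ha hc]
  abel

theorem Lab.mu_r1 (s : Finset (V × Bool)) (hs : Box G s) (x y z w : V × Bool) (hx : x ∈ s)
    (hy : y ∈ s) (hz : z ∈ s) (hw : w ∈ s) :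
    L.mu y z w - L.mu x z w + L.mu x y w - L.mu x y z = 0 := by
  obtain ⟨a, i⟩ := x
  obtain ⟨b, j⟩ := y
  obtain ⟨c, k⟩ := z
  obtain ⟨e, l⟩ := w
  rcases i with _ | _ <;> rcases j with _ | _ <;> rcases k with _ | _ <;> rcases l with _ | _ <;>
    simp only [Lab.mu, sub_self, add_zero, sub_zero, zero_sub, zero_add]
  all_goals first
    | abel1
    | (rw [← L.coc (hs a e hx hw).symm (hs b e hy hw).symm (hs c e hz hw).symm]; abel1)
    | (rw [← L.coc (hs e c hw hz).symm (hs a c hx hz).symm (hs b c hy hz).symm]; abel1)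
    | (rw [← L.coc (hs c b hz hy).symm (hs e b hw hy).symm (hs a b hx hy).symm]; abel1)
    | (rw [← L.coc (hs b a hy hx).symm (hs c a hz hx).symm (hs e a hw hx).symm]; abel1)
    | (rw [L.alt c a]; abel1)
    | (rw [L.alt e b]; abel1)

theorem Lab.mu_r2 (s : Finset (V × Bool)) (hs : Box G s) (x y z : V × Bool) (hx : x ∈ s)
    (hy : y ∈ s) (hz : z ∈ s) :
    L.mu (flip x) (flip y) (flip z) - L.mu x y z = L.lam y z - L.lam x z + L.lam x y := by
  obtain ⟨a, i⟩ := x
  obtain ⟨b, j⟩ := y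
  obtain ⟨c, k⟩ := z
  have key : ∀ u u' v, G.Adj u v → G.Adj u' v → L.t u v - L.t u' v = L.d u u' := by
    intro u u' v h h'
    rw [← L.hd v u u' h.symm h'.symm, L.ht u v h, L.ht u' v h']
    abel
  rcases i with _ | _ <;> rcases j with _ | _ <;> rcases k with _ | _ <;>
    simp only [Lab.mu, Lab.lam, flip, Bool.not_false, Bool.not_true, sub_self, add_zero, sub_zero,
      zero_sub, zero_add]
  · -- FFT
    rw [← key a b c (hs a c hx hz) (hs b c hy hz)]
    abel
  · -- FTF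
    rw [← key c a b (hs c b hz hy) (hs a b hx hy)]
    abel
  · -- FTT
    rw [← L.hd a b c (hs a b hx hy) (hs a c hx hz)]
    abel
  · -- TFF
    rw [← key b c a (hs b a hy hx) (hs c a hz hx)]
    abel
  · -- TFT
    rw [← L.hd b c a (hs b c hy hz) (hs b a hy hx)]
    abel
  · -- TTF
    rw [← L.hd c a b (hs c a hz hx) (hs c b hz hy)]
    abel

theorem Lab.mu_r3 (s : Finset (V × Bool)) (hs : Box G s) (x y : V × Bool) (hx : x ∈ s)
    (hy : y ∈ s) : L.lam x y + L.lam (flip x) (flip y) = L.rho y - L.rho x := by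
  obtain ⟨a, i⟩ := x
  obtain ⟨b, j⟩ := y
  have h2 : τ = -τ := eq_neg_of_add_eq_zero_left L.two
  rcases i with _ | _ <;> rcases j with _ | _ <;>
    simp only [Lab.lam, Lab.rho, flip, Bool.not_false, Bool.not_true, sub_self, add_zero, sub_zero,
      zero_sub, zero_add, if_true, Bool.false_eq_true, if_false]
  · rw [L.ht a b (hs a b hx hy)]
    conv_rhs => rw [h2]
    abel
  · rw [L.ht b a (hs b a hy hx), neg_add_cancel_left]
    exact h2

theorem Lab.mu_r4 (x : V × Bool) : L.rho (flip x) - L.rho x = τ := by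
  obtain ⟨a, i⟩ := x
  have h2 : τ = -τ := eq_neg_of_add_eq_zero_left L.two
  rcases i with _ | _ <;> simp [Lab.rho, flip, ← h2]

theorem Lab.lam_alt (x y : V × Bool) : L.lam x y = - L.lam y x := by
  obtain ⟨a, i⟩ := x
  obtain ⟨b, j⟩ := y
  rcases i with _ | _ <;> rcases j with _ | _ <;> simp [Lab.lam]

theorem Lab.lam_diag (x : V × Bool) : L.lam x x = 0 := by
  obtain ⟨a, i⟩ := x
  rcases i with _ | _ <;> simp [Lab.lam]

theorem Lab.mu_alt (x y z : V × Bool) : L.mu x y z = - L.mu z y x := by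
  obtain ⟨a, i⟩ := x
  obtain ⟨b, j⟩ := y
  obtain ⟨c, k⟩ := z
  rcases i with _ | _ <;> rcases j with _ | _ <;> rcases k with _ | _ <;> simp [Lab.mu]
  · exact L.alt _ _
  · exact L.alt _ _
  · exact L.alt _ _

theorem Lab.mu_left (x y : V × Bool) : L.mu x x y = 0 := by
  obtain ⟨a, i⟩ := x
  obtain ⟨b, j⟩ := y
  rcases i with _ | _ <;> rcases j with _ | _ <;> simp [Lab.mu, L.diag]

theorem Lab.mu_right (x y : V × Bool) : L.mu x y y = 0 := by
  obtain ⟨a, i⟩ := x
  obtain ⟨b, j⟩ := y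
  rcases i with _ | _ <;> rcases j with _ | _ <;> simp [Lab.mu, L.diag]

end coch

section sphere

open Real

/-- coordinates on the upper half of the sphere -/
noncomputable def e3 (x y z : ℝ) : EuclideanSpace ℝ (Fin 4) :=
  !₂[cos (π * x), sin (π * x) * cos (π * y), sin (π * x) * sin (π * y) * cos (π * z),
    sin (π * x) * sin (π * y) * sin (π * z)]

theorem norm_e3 (x y z : ℝ) : ‖e3 x y z‖ = 1 := by
  rw [EuclideanSpace.norm_eq, Real.sqrt_eq_one, Fin.sum_univ_four]
  simp only [e3, Real.norm_eq_abs, sq_abs]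
  have h : cos (π * x) ^ 2 + (sin (π * x) * cos (π * y)) ^ 2 +
      (sin (π * x) * sin (π * y) * cos (π * z)) ^ 2 + (sin (π * x) * sin (π * y) * sin (π * z)) ^ 2 =
      cos (π * x) ^ 2 + sin (π * x) ^ 2 * (cos (π * y) ^ 2 + sin (π * y) ^ 2 *
        (cos (π * z) ^ 2 + sin (π * z) ^ 2)) := by ring
  rw [cos_sq_add_sin_sq, mul_one, cos_sq_add_sin_sq, mul_one, cos_sq_add_sin_sq] at h
  simpa using h

/-- the sphere of dimension three -/
abbrev S3 : Type := Metric.sphere (0 : EuclideanSpace ℝ (Fin (3 + 1))) 1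

/-- the parametrization of the upper half of the sphere -/
noncomputable def E3 (p : ℝ × ℝ × ℝ) : S3 :=
  ⟨e3 p.1 p.2.1 p.2.2, by rw [mem_sphere_zero_iff_norm]; exact norm_e3 _ _ _⟩

theorem continuous_E3 : Continuous E3 := by
  refine Continuous.subtype_mk ?_ _
  unfold e3
  refine (PiLp.continuous_toLp 2 _).comp ?_
  refine continuous_pi fun i => ?_
  fin_cases i <;> simp <;> fun_prop

theorem E3_ext (p q : S3) (h0 : p.1 0 = q.1 0) (h1 : p.1 1 = q.1 1) (h2 : p.1 2 = q.1 2)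
    (h3 : p.1 3 = q.1 3) : p = q := by
  refine Subtype.ext ?_
  ext i
  fin_cases i
  · exact h0
  · exact h1
  · exact h2
  · exact h3

theorem E3_x0 (y z : ℝ) : E3 (0, y, z) = E3 (0, 0, 0) := by
  apply E3_ext <;> simp [E3, e3]

theorem E3_x1 (y z : ℝ) : E3 (1, y, z) = E3 (1, 0, 0) := by
  apply E3_ext <;> simp [E3, e3]

theorem E3_y0 (x z : ℝ) : E3 (x, 0, z) = E3 (x, 0, 0) := by
  apply E3_ext <;> simp [E3, e3]

theorem E3_y1 (x z : ℝ) : E3 (x, 1, z) = E3 (x, 1, 0) := by
  apply E3_ext <;> simp [E3, e3]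

theorem E3_z1 (x y : ℝ) : E3 (x, y, 1) = -E3 (1 - x, 1 - y, 0) := by
  have hc : ∀ u : ℝ, cos (π * (1 - u)) = - cos (π * u) := fun u => by
    rw [mul_sub, mul_one, cos_pi_sub]
  have hs : ∀ u : ℝ, sin (π * (1 - u)) = sin (π * u) := fun u => by
    rw [mul_sub, mul_one, sin_pi_sub]
  apply E3_ext <;> simp [E3, e3, hc, hs]

theorem E3_y1' (x : ℝ) : E3 (x, 1, 0) = -E3 (1 - x, 0, 0) := by
  have hc : ∀ u : ℝ, cos (π * (1 - u)) = - cos (π * u) := fun u => by
    rw [mul_sub, mul_one, cos_pi_sub]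
  have hs : ∀ u : ℝ, sin (π * (1 - u)) = sin (π * u) := fun u => by
    rw [mul_sub, mul_one, sin_pi_sub]
  apply E3_ext <;> simp [E3, e3, hc, hs]

theorem E3_x1' : E3 (1, 0, 0) = -E3 (0, 0, 0) := by
  apply E3_ext <;> simp [E3, e3]

/-- grid coordinates -/
noncomputable def gc (n i : ℕ) : ℝ := ((min i n : ℕ) : ℝ) / n

theorem gc_mem (n i : ℕ) (hn : 0 < n) : gc n i ∈ Set.Icc (0 : ℝ) 1 := by
  have : (0 : ℝ) < n := by exact_mod_cast hn
  refine ⟨by unfold gc; positivity, ?_⟩
  unfold gc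
  rw [div_le_one this]
  exact_mod_cast min_le_right _ _

theorem gc_zero (n : ℕ) : gc n 0 = 0 := by simp [gc]

theorem gc_self (n : ℕ) (hn : 0 < n) : gc n n = 1 := by
  have : (n : ℝ) ≠ 0 := by exact_mod_cast hn.ne'
  simp [gc, this]

theorem gc_sub (n i : ℕ) (hn : 0 < n) (hi : i ≤ n) : gc n (n - i) = 1 - gc n i := by
  have : (n : ℝ) ≠ 0 := by exact_mod_cast hn.ne'
  unfold gc
  rw [min_eq_left hi, min_eq_left (Nat.sub_le _ _), Nat.cast_sub hi]
  field_simp

theorem gc_step (n i a : ℕ) (hn : 0 < n) (hi : i < n) (ha : a ≤ 1) :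
    dist (gc n i) (gc n (i + a)) ≤ 1 / n := by
  have hn' : (0 : ℝ) < n := by exact_mod_cast hn
  unfold gc
  rw [min_eq_left hi.le, min_eq_left (by omega), Real.dist_eq, Nat.cast_add, ← sub_div, abs_div,
    abs_of_pos hn']
  refine div_le_div_of_nonneg_right ?_ hn'.le
  have : (a : ℝ) ≤ 1 := by exact_mod_cast ha
  rw [abs_le]
  constructor
  · linarith
  · have : (0 : ℝ) ≤ a := Nat.cast_nonneg _
    linarith

end sphere

section main

/-- obstruction cochains of degree three on a complex with involution -/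
structure Obs {W : Type} (S : Finset W → Prop) (σ : W → W) (M : Type) [AddCommGroup M] (τ : M) where
  mu : W → W → W → M
  lam : W → W → M
  rho : W → M
  inv : ∀ w, σ (σ w) = w
  r1 : ∀ s, S s → ∀ x ∈ s, ∀ y ∈ s, ∀ z ∈ s, ∀ w ∈ s, mu y z w - mu x z w + mu x y w - mu x y z = 0
  r2 : ∀ s, S s → ∀ x ∈ s, ∀ y ∈ s, ∀ z ∈ s,
    mu (σ x) (σ y) (σ z) - mu x y z = lam y z - lam x z + lam x y
  r3 : ∀ s, S s → ∀ x ∈ s, ∀ y ∈ s, lam x y + lam (σ x) (σ y) = rho y - rho x
  r4 : ∀ x, rho (σ x) - rho x = τ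
  lam_alt : ∀ x y, lam x y = - lam y x
  lam_diag : ∀ x, lam x x = 0
  mu_alt : ∀ x y z, mu x y z = - mu z y x
  mu_left : ∀ x y, mu x x y = 0
  mu_right : ∀ x y, mu x y y = 0

variable {V : Type} {G : SimpleGraph V} {M : Type} [AddCommGroup M] {τ : M}

/-- the cochains of a labelled graph -/
def Lab.obs (L : Lab G M τ) : Obs (Box G) flip M τ where
  mu := L.mu
  lam := L.lam
  rho := L.rho
  inv := fun w => by simp [flip]
  r1 := fun s hs x hx y hy z hz w hw => L.mu_r1 s hs x y z w hx hy hz hw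
  r2 := fun s hs x hx y hy z hz => L.mu_r2 s hs x y z hx hy hz
  r3 := fun s hs x hx y hy => L.mu_r3 s hs x y hx hy
  r4 := L.mu_r4
  lam_alt := L.lam_alt
  lam_diag := L.lam_diag
  mu_alt := L.mu_alt
  mu_left := L.mu_left
  mu_right := L.mu_right

/-- no set of pairs of antipodes has an odd choice: a function which distinguishes antipodes -/
theorem exists_sign : ∃ s : S3 → Prop, ∀ p, s (-p) ↔ ¬ s p := by
  refine ⟨fun p => WellOrderingRel p (-p), fun p => ?_⟩
  have hne : p ≠ -p := by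
    intro h
    have h1 : (p : EuclideanSpace ℝ (Fin (3 + 1))) = -p := congrArg Subtype.val h
    have h2 : (p : EuclideanSpace ℝ (Fin (3 + 1))) = 0 := by
      have h4 : (2 : ℝ) • (p : EuclideanSpace ℝ (Fin (3 + 1))) = 0 := by
        rw [two_smul]
        nth_rewrite 2 [h1]
        exact add_neg_cancel _
      exact (smul_eq_zero.1 h4).resolve_left two_ne_zero
    have h3 : ‖(p : EuclideanSpace ℝ (Fin (3 + 1)))‖ = 1 := by simpa using p.2
    rw [h2] at h3
    simp at h3
  simp only [neg_neg]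
  constructor
  · intro h h'
    exact asymm_of WellOrderingRel h h'
  · intro h
    rcases trichotomous_of WellOrderingRel p (-p) with h' | h' | h'
    · exact absurd h' h
    · exact absurd h' hne
    · exact h'

theorem Obs.no_map {W : Type} {S : Finset W → Prop} {σ : W → W} (L : Obs S σ M τ) (hτ : τ ≠ 0) :
    ¬ HasMap S σ 3 := by
  rintro ⟨f, hf, hc, he⟩
  apply hτ
  obtain ⟨δ, hδ, hcov⟩ := lebesgue_number_lemma_of_metric (s := (Set.univ : Set S3))
    (c := fun w : W => {p : S3 | 0 < f p w}) isCompact_univ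
    (fun w => isOpen_lt continuous_const (hc w)) (by
      intro p _
      obtain ⟨h0, a, ha, has, hs⟩ := hf p
      have : ∃ w ∈ a, f p w ≠ 0 := by
        by_contra hno
        push Not at hno
        rw [Finset.sum_eq_zero hno] at hs
        exact zero_ne_one hs
      obtain ⟨w, -, hw⟩ := this
      exact Set.mem_iUnion.2 ⟨w, lt_of_le_of_ne (h0 w) hw.symm⟩)
  choose c hcs using fun p : S3 => hcov p (Set.mem_univ p)
  obtain ⟨s, hs⟩ := exists_sign
  let Φ : S3 → W := fun p => if s p then c p else σ (c (-p))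
  have hff : ∀ w : W, σ (σ w) = w := L.inv
  have hΦn : ∀ p, Φ (-p) = σ (Φ p) := by
    intro p
    simp only [Φ]
    by_cases h : s p
    · rw [if_neg (by rw [hs]; exact not_not.2 h), if_pos h, neg_neg]
    · rw [if_pos ((hs p).2 h), if_neg h, hff]
  have hΦ : ∀ p q, dist p q < δ → 0 < f q (Φ p) := by
    intro p q hpq
    simp only [Φ]
    split_ifs with h
    · exact hcs p (by rw [Metric.mem_ball, dist_comm]; exact hpq)
    · have : -q ∈ Metric.ball (-p) δ := by
        rw [Metric.mem_ball, dist_comm]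
        have e : dist (-p) (-q) = dist p q := by
          rw [Subtype.dist_eq, Subtype.dist_eq]
          exact dist_neg_neg _ _
        rw [e]; exact hpq
      have h2 := hcs (-p) this
      change 0 < f (-q) (c (-p)) at h2
      rw [he q] at h2
      exact h2
  have hsimp : ∀ p : S3, ∃ a : Finset W, S a ∧ ∀ q, dist p q < δ → Φ q ∈ a := by
    intro p
    obtain ⟨h0, a, ha, has, -⟩ := hf p
    exact ⟨a, ha, fun q hq => (has _).2 (hΦ q p (by rwa [dist_comm])).ne'⟩
  have hself : ∀ p : S3, dist p p < δ := fun p => by simpa using hδ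
  -- the grid
  have huc : UniformContinuousOn E3 (Set.Icc (0 : ℝ) 1 ×ˢ Set.Icc (0 : ℝ) 1 ×ˢ Set.Icc (0 : ℝ) 1) :=
    (isCompact_Icc.prod (isCompact_Icc.prod isCompact_Icc)).uniformContinuousOn_of_continuous
      continuous_E3.continuousOn
  rw [Metric.uniformContinuousOn_iff] at huc
  obtain ⟨η, hη, huc⟩ := huc δ hδ
  obtain ⟨n, hn⟩ := exists_nat_gt (1 / η)
  have hn0 : 0 < n := by
    have : (0 : ℝ) < n := lt_trans (by positivity) hn
    exact_mod_cast this
  have hnη : 1 / (n : ℝ) < η := by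
    have : (0 : ℝ) < n := by exact_mod_cast hn0
    rw [div_lt_iff₀ this]
    rw [div_lt_iff₀ hη] at hn
    linarith
  refine grid (fun p q : S3 => dist p q < δ) (fun p => -p)
    (fun p q r => L.mu (Φ p) (Φ q) (Φ r)) (fun p q => L.lam (Φ p) (Φ q)) (fun p => L.rho (Φ p)) τ
    ?_ ?_ ?_ ?_ ?_ ?_ ?_ ?_ ?_ n (fun i j k => E3 (gc n i, gc n j, gc n k)) ?_ ?_ ?_ ?_ ?_ ?_ ?_ ?_ hn0
  · intro a b c d hb hc hd
    obtain ⟨s, hs, hs'⟩ := hsimp a
    exact L.r1 s hs _ (hs' _ (hself a)) _ (hs' _ hb) _ (hs' _ hc) _ (hs' _ hd)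
  · intro a b c hb hc
    obtain ⟨s, hs, hs'⟩ := hsimp a
    simp only [hΦn]
    exact L.r2 s hs _ (hs' _ (hself a)) _ (hs' _ hb) _ (hs' _ hc)
  · intro a b hb
    obtain ⟨s, hs, hs'⟩ := hsimp a
    simp only [hΦn]
    exact L.r3 s hs _ (hs' _ (hself a)) _ (hs' _ hb)
  · intro a
    simp only [hΦn]
    exact L.r4 _
  · intro a b; exact L.lam_alt _ _
  · intro a; exact L.lam_diag _
  · intro a b c; exact L.mu_alt _ _ _
  · intro a b; exact L.mu_left _ _
  · intro a b; exact L.mu_right _ _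
  · intro i j k a b c hi hj hk ha hb hc
    refine huc _ ⟨gc_mem _ _ hn0, gc_mem _ _ hn0, gc_mem _ _ hn0⟩ _
      ⟨gc_mem _ _ hn0, gc_mem _ _ hn0, gc_mem _ _ hn0⟩ ?_
    rw [Prod.dist_eq, Prod.dist_eq]
    exact max_lt ((gc_step n i a hn0 hi ha).trans_lt hnη)
      (max_lt ((gc_step n j b hn0 hj hb).trans_lt hnη) ((gc_step n k c hn0 hk hc).trans_lt hnη))
  · intro j k j' k'
    simp only [gc_zero]
    rw [E3_x0, E3_x0 (gc n j')]
  · intro j k j' k'
    simp only [gc_self n hn0]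
    rw [E3_x1, E3_x1 (gc n j')]
  · intro i k k'
    simp only [gc_zero]
    rw [E3_y0, E3_y0 _ (gc n k')]
  · intro i k k'
    simp only [gc_self n hn0]
    rw [E3_y1, E3_y1 _ (gc n k')]
  · intro i j hi hj
    simp only [gc_self n hn0, gc_zero]
    rw [E3_z1, gc_sub n i hn0 hi, gc_sub n j hn0 hj]
  · intro i hi
    simp only [gc_self n hn0, gc_zero]
    rw [E3_y1', gc_sub n i hn0 hi]
  · simp only [gc_self n hn0, gc_zero]
    exact E3_x1'

theorem Lab.no_map (L : Lab G M τ) (hτ : τ ≠ 0) : ¬ HasMap (Box G) flip 3 := L.obs.no_map hτ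

end main

end Pool.Agent.Y402.CN
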