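import Pool.Agent.Y402.CN.Chains
import Pool.Agent.Y402.CN.NoMap

/-!
# The second homology of the box complex of a universal labelled graph
-/

set_option autoImplicit false

namespace Pool.Agent.Y402.CN

open Classical Finset

attribute [-instance] instDecidableEqProd

noncomputable section

variable {V M : Type} {G : SimpleGraph V} [AddCommGroup M] {τ : M}

/-- the universal property -/
structure Lab.Uni (L : Lab G M τ) : Prop where
  P1 : ∀ N : Finset V, (∀ x ∈ N, ∀ y ∈ N, ∀ z ∈ N, L.d x y + L.d y z = L.d x z) →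
    ∃ w, ∀ v ∈ N, G.Adj w v
  P2 : ∀ (F : Finset V) (g : V → M), ∃ w, w ∉ F ∧ ∀ u ∈ F, L.d w u = g u
  div : ∀ m : M, ∃ k, k + k = m
  ne : Nonempty V

theorem Lab.coc3 (L : Lab G M τ) (x y z : V) (h : L.d x y + L.d y z = L.d x z) :
    ∀ u ∈ ({x, y, z} : Finset V), ∀ v ∈ ({x, y, z} : Finset V), L.d u v = L.d u z - L.d v z := by
  have hxy : L.d x y = L.d x z - L.d y z := by rw [← h]; abel
  have hyx : L.d y x = L.d y z - L.d x z := by rw [L.alt y x, hxy]; abel
  intro u hu v hv
  simp only [Finset.mem_insert, Finset.mem_singleton] at hu hv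
  rcases hu with rfl | rfl | rfl <;> rcases hv with rfl | rfl | rfl <;>
    first
    | (rw [L.diag]; abel1)
    | (rw [L.diag, L.diag]; abel1)
    | exact hxy
    | exact hyx
    | (rw [L.diag, sub_zero])
    | (rw [L.diag, zero_sub]; exact L.alt _ _)

theorem Lab.nbr3 (L : Lab G M τ) (hL : L.Uni) (x y z : V) (h : L.d x y + L.d y z = L.d x z) :
    ∃ q, G.Adj x q ∧ G.Adj y q ∧ G.Adj z q := by
  have H := L.coc3 x y z h
  obtain ⟨q, hq⟩ := hL.P1 {x, y, z} (fun a ha b hb c hc => by
    rw [H a ha b hb, H b hb c hc, H a ha c hc]; abel)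
  exact ⟨q, (hq x (by simp)).symm, (hq y (by simp)).symm, (hq z (by simp)).symm⟩

theorem Lab.nbr2 (L : Lab G M τ) (hL : L.Uni) (x y : V) : ∃ q, G.Adj x q ∧ G.Adj y q := by
  obtain ⟨q, h1, h2, -⟩ := L.nbr3 hL x y y (by rw [L.diag, add_zero])
  exact ⟨q, h1, h2⟩

theorem box3l {a a' b : V} (h : G.Adj a b) (h' : G.Adj a' b) :
    Box G {(a, false), (a', false), (b, true)} := by
  intro v w hv hw
  simp only [Finset.mem_insert, Finset.mem_singleton, Prod.mk.injEq, Bool.false_eq_true,
    Bool.true_eq_false, and_false, and_true, or_false, false_or] at hv hw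
  rcases hv with rfl | rfl <;> subst hw <;> assumption

theorem box4m {a a' b b' : V} (h1 : G.Adj a b) (h2 : G.Adj a' b) (h3 : G.Adj a b')
    (h4 : G.Adj a' b') : Box G {(a, false), (a', false), (b, true), (b', true)} := by
  intro v w hv hw
  simp only [Finset.mem_insert, Finset.mem_singleton, Prod.mk.injEq, Bool.false_eq_true,
    Bool.true_eq_false, and_false, and_true, or_false, false_or] at hv hw
  rcases hv with rfl | rfl <;> rcases hw with rfl | rfl <;> assumption

theorem box4l {a a' a'' b : V} (h1 : G.Adj a b) (h2 : G.Adj a' b) (h3 : G.Adj a'' b) :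
    Box G {(a, false), (a', false), (a'', false), (b, true)} := by
  intro v w hv hw
  simp only [Finset.mem_insert, Finset.mem_singleton, Prod.mk.injEq, Bool.false_eq_true,
    Bool.true_eq_false, and_false, and_true, or_false, false_or] at hv hw
  rcases hv with rfl | rfl | rfl <;> subst hw <;> assumption

theorem box4r {a b b' b'' : V} (h1 : G.Adj a b) (h2 : G.Adj a b') (h3 : G.Adj a b'') :
    Box G {(a, false), (b, true), (b', true), (b'', true)} := by
  intro v w hv hw
  simp only [Finset.mem_insert, Finset.mem_singleton, Prod.mk.injEq, Bool.false_eq_true,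
    Bool.true_eq_false, and_false, and_true, or_false, false_or] at hv hw
  subst hv
  rcases hw with rfl | rfl | rfl <;> assumption

/-- simplices in one of the two parts -/
def nm (a : Finset (V × Bool)) : Prop := (∀ w ∈ a, w.2 = false) ∨ (∀ w ∈ a, w.2 = true)

variable (G)

/-- boundaries and chains of simplices in one part -/
def PP : Submodule (ZMod 2) (Chain (V × Bool)) :=
  (On (fun a => Box G a ∧ a.card = 4)).map (bd (V × Bool)) ⊔ On (fun a => nm a ∧ a.card = 3)

/-- the class -/
def cl : Chain (V × Bool) →ₗ[ZMod 2] Chain (V × Bool) ⧸ PP G := (PP G).mkQ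

/-- classes of mixed triangles -/
def X (a a' b : V) : Chain (V × Bool) ⧸ PP G :=
  if a = a' then 0 else cl G (sg {(a, false), (a', false), (b, true)})

def Y (a b b' : V) : Chain (V × Bool) ⧸ PP G :=
  if b = b' then 0 else cl G (sg {(a, false), (b, true), (b', true)})

variable {G}

theorem X_symm (a a' b : V) : X G a a' b = X G a' a b := by
  unfold X
  by_cases h : a = a'
  · subst h; rfl
  · rw [if_neg h, if_neg (Ne.symm h), Finset.insert_comm]

theorem Y_symm (a b b' : V) : Y G a b b' = Y G a b' b := by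
  unfold Y
  by_cases h : b = b'
  · subst h; rfl
  · rw [if_neg h, if_neg (Ne.symm h), Finset.pair_comm]

theorem X_self (a b : V) : X G a a b = 0 := if_pos rfl

theorem Y_self (a b : V) : Y G a b b = 0 := if_pos rfl

theorem cl_bd (a : Finset (V × Bool)) (h : Box G a) (h4 : a.card = 4) :
    cl G (bd (V × Bool) (sg a)) = 0 := by
  unfold cl
  rw [Submodule.mkQ_apply, Submodule.Quotient.mk_eq_zero]
  exact Submodule.mem_sup_left ⟨sg a, sg_mem ⟨h, h4⟩, rfl⟩

theorem cl_nm (a : Finset (V × Bool)) (h : nm a) (h3 : a.card = 3) : cl G (sg a) = 0 := by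
  unfold cl
  rw [Submodule.mkQ_apply, Submodule.Quotient.mk_eq_zero]
  exact Submodule.mem_sup_right (sg_mem ⟨h, h3⟩)

theorem quad (x y z v : V × Bool) (h1 : x ≠ y) (h2 : x ≠ z) (h3 : x ≠ v) (h4 : y ≠ z) (h5 : y ≠ v)
    (h6 : z ≠ v) (h : Box G {x, y, z, v}) :
    cl G (sg {y, z, v}) + (cl G (sg {x, z, v}) + (cl G (sg {x, y, v}) + cl G (sg {x, y, z}))) = 0 := by
  have hc : ({x, y, z, v} : Finset (V × Bool)).card = 4 := by
    rw [Finset.card_insert_of_notMem (by simp [h1, h2, h3]),
      Finset.card_insert_of_notMem (by simp [h4, h5]), Finset.card_pair h6]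
  have := cl_bd _ h hc
  rw [bd_sg, sum4 sg x y z v h1 h2 h3 h4 h5 h6] at this
  simpa only [map_add] using this

theorem Q1 {a a' b b' : V} (h1 : G.Adj a b) (h2 : G.Adj a' b) (h3 : G.Adj a b') (h4 : G.Adj a' b') :
    X G a a' b + X G a a' b' = Y G a b b' + Y G a' b b' := by
  by_cases ha : a = a'
  · subst ha
    rw [X_self, X_self, add_zero, add_self']
  by_cases hb : b = b'
  · subst hb
    rw [Y_self, Y_self, add_zero, add_self']
  have := quad (a, false) (a', false) (b, true) (b', true) (by simpa using ha) (by simp) (by simp)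
    (by simp) (by simp) (by simpa using hb) (box4m h1 h2 h3 h4)
  unfold X Y
  rw [if_neg ha, if_neg ha, if_neg hb, if_neg hb]
  apply eq_of_add
  rw [← this]
  abel

theorem Q2 {a a' a'' b : V} (h1 : G.Adj a b) (h2 : G.Adj a' b) (h3 : G.Adj a'' b) :
    X G a a' b + X G a' a'' b = X G a a'' b := by
  by_cases e1 : a = a'
  · subst e1
    rw [X_self, zero_add]
  by_cases e2 : a' = a''
  · subst e2
    rw [X_self, add_zero]
  by_cases e3 : a = a''
  · subst e3
    rw [X_self, X_symm a' a, add_self']
  have := quad (a, false) (a', false) (a'', false) (b, true) (by simpa using e1) (by simpa using e3)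
    (by simp) (by simpa using e2) (by simp) (by simp) (box4l h1 h2 h3)
  rw [cl_nm {(a, false), (a', false), (a'', false)} (Or.inl (by simp)) (by
    rw [Finset.card_insert_of_notMem (by simp [e1, e3]), Finset.card_pair (by simpa using e2)]),
    add_zero] at this
  unfold X
  rw [if_neg e1, if_neg e2, if_neg e3]
  apply eq_of_add
  rw [← this]
  abel

theorem Q3 {a b b' b'' : V} (h1 : G.Adj a b) (h2 : G.Adj a b') (h3 : G.Adj a b'') :
    Y G a b b' + Y G a b' b'' = Y G a b b'' := by
  by_cases e1 : b = b'
  · subst e1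
    rw [Y_self, zero_add]
  by_cases e2 : b' = b''
  · subst e2
    rw [Y_self, add_zero]
  by_cases e3 : b = b''
  · subst e3
    rw [Y_self, Y_symm a b' b, add_self']
  have := quad (a, false) (b, true) (b', true) (b'', true) (by simp) (by simp)
    (by simp) (by simpa using e1) (by simpa using e3) (by simpa using e2) (box4r h1 h2 h3)
  rw [cl_nm {(b, true), (b', true), (b'', true)} (Or.inr (by simp)) (by
    rw [Finset.card_insert_of_notMem (by simp [e1, e3]), Finset.card_pair (by simpa using e2)]),
    zero_add] at this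
  unfold Y
  rw [if_neg e1, if_neg e2, if_neg e3]
  apply eq_of_add
  rw [← this]
  abel

/-! ### the standard paths -/

section E

variable (L : Lab G M τ) (hL : L.Uni)

/-- a neighbour -/
def nn (a : V) : V := (L.nbr2 hL a a).choose

theorem nn_adj (a : V) : G.Adj a (nn L hL a) := (L.nbr2 hL a a).choose_spec.1

/-- a common neighbour -/
def qq (a a' : V) : V := (L.nbr2 hL a a').choose

/-- the path through a common neighbour -/
def F0 (a a' q : V) : Chain (V × Bool) ⧸ PP G :=
  Y G a (nn L hL a) q + X G a a' q + Y G a' (nn L hL a') q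

/-- the standard path -/
def EE (a a' : V) : Chain (V × Bool) ⧸ PP G := F0 L hL a a' (qq L hL a a')

theorem F0_eq {a a' q q' : V} (h1 : G.Adj a q) (h2 : G.Adj a' q) (h3 : G.Adj a q')
    (h4 : G.Adj a' q') : F0 L hL a a' q = F0 L hL a a' q' := by
  unfold F0
  apply eq_of_add
  have e1 := Q3 (nn_adj L hL a) h1 h3
  have e2 := Q3 (nn_adj L hL a') h2 h4
  have e3 := Q1 h1 h2 h3 h4
  have e4 : Y G a (nn L hL a) q + X G a a' q + Y G a' (nn L hL a') q +
      (Y G a (nn L hL a) q' + X G a a' q' + Y G a' (nn L hL a') q') =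
      (Y G a (nn L hL a) q + Y G a (nn L hL a) q') + (X G a a' q + X G a a' q') +
      (Y G a' (nn L hL a') q + Y G a' (nn L hL a') q') := by abel
  rw [e4, e3, ← e1, ← e2, add_self_left', add_self_left', add_self_left', add_self']

theorem EE_eq {a a' q : V} (h1 : G.Adj a q) (h2 : G.Adj a' q) : EE L hL a a' = F0 L hL a a' q :=
  F0_eq L hL (L.nbr2 hL a a').choose_spec.1 (L.nbr2 hL a a').choose_spec.2 h1 h2

theorem EE_symm (a a' : V) : EE L hL a a' = EE L hL a' a := by
  obtain ⟨q, h1, h2⟩ := L.nbr2 hL a a'
  rw [EE_eq L hL h1 h2, EE_eq L hL h2 h1]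
  unfold F0
  rw [X_symm a a']
  abel

theorem EE_self (a : V) : EE L hL a a = 0 := by
  obtain ⟨q, h1, h2⟩ := L.nbr2 hL a a
  rw [EE_eq L hL h1 h2]
  unfold F0
  rw [X_self, add_zero, add_self']

/-- triangles -/
def TT (x y z : V) : Chain (V × Bool) ⧸ PP G := EE L hL x y + EE L hL y z + EE L hL x z

theorem TT_rot (x y z : V) : TT L hL x y z = TT L hL y z x := by
  unfold TT
  rw [EE_symm L hL x z, EE_symm L hL x y]
  abel

theorem TT_swap (x y z : V) : TT L hL x y z = TT L hL y x z := by
  unfold TT
  rw [EE_symm L hL x y]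
  abel

theorem TT_four (w x y z : V) :
    TT L hL x y z = TT L hL w x y + TT L hL w y z + TT L hL w x z := by
  unfold TT
  apply eq_of_add
  rw [show EE L hL x y + EE L hL y z + EE L hL x z +
    (EE L hL w x + EE L hL x y + EE L hL w y + (EE L hL w y + EE L hL y z + EE L hL w z) +
      (EE L hL w x + EE L hL x z + EE L hL w z)) =
    (EE L hL x y + EE L hL x y) + (EE L hL y z + EE L hL y z) + (EE L hL x z + EE L hL x z) +
    (EE L hL w x + EE L hL w x) + (EE L hL w y + EE L hL w y) + (EE L hL w z + EE L hL w z) by abel]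
  simp only [add_self', add_zero]

theorem TT_zero (x y z : V) (h : L.d x y + L.d y z = L.d x z) : TT L hL x y z = 0 := by
  obtain ⟨q, h1, h2, h3⟩ := L.nbr3 hL x y z h
  unfold TT
  rw [EE_eq L hL h1 h2, EE_eq L hL h2 h3, EE_eq L hL h1 h3]
  unfold F0
  rw [← Q2 h1 h2 h3]
  rw [show Y G x (nn L hL x) q + X G x y q + Y G y (nn L hL y) q +
    (Y G y (nn L hL y) q + X G y z q + Y G z (nn L hL z) q) +
    (Y G x (nn L hL x) q + (X G x y q + X G y z q) + Y G z (nn L hL z) q) =
    (Y G x (nn L hL x) q + Y G x (nn L hL x) q) + (X G x y q + X G x y q) +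
    (Y G y (nn L hL y) q + Y G y (nn L hL y) q) + (X G y z q + X G y z q) +
    (Y G z (nn L hL z) q + Y G z (nn L hL z) q) by abel]
  simp only [add_self', add_zero]

/-- the holonomy -/
def hol (x y z : V) : M := L.d x y + L.d y z + L.d z x

theorem hol_rot (x y z : V) : hol L x y z = hol L y z x := by
  unfold hol; abel

theorem TT_zero' (x y z : V) (h : hol L x y z = 0) : TT L hL x y z = 0 := by
  apply TT_zero
  unfold hol at h
  rw [L.alt z x] at h
  rw [← sub_eq_zero, sub_eq_add_neg]
  exact h

theorem P2' (L : Lab G M τ) (hL : L.Uni) (F : Finset V) (g : V → M) :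
    ∃ w, ∀ u ∈ F, L.d w u = g u := by
  obtain ⟨w, -, h⟩ := hL.P2 F g
  exact ⟨w, h⟩

/-- two triangles with a common edge and the same holonomy -/
theorem B0 (x z y w : V) (h : hol L x y w = hol L z y w) : TT L hL x y w = TT L hL z y w := by
  -- a vertex in the position of `x`
  have key : ∀ a, hol L a y w = hol L x y w → ∀ u, L.d u y = L.d x y → L.d u w = L.d x w →
      L.d u a = L.d x y - L.d a y → TT L hL a y w = TT L hL u y w := by
    intro a ha u h1 h2 h3
    rw [TT_four L hL u a y w]
    have e1 : TT L hL u a y = 0 := by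
      apply TT_zero
      rw [h3, h1]; abel
    have e2 : TT L hL u a w = 0 := by
      apply TT_zero
      rw [h3, h2]
      unfold hol at ha
      rw [L.alt w a, L.alt w x] at ha
      have : L.d a y - L.d a w = L.d x y - L.d x w := by
        have h4 : L.d a y + L.d y w + -L.d a w - L.d y w = L.d x y + L.d y w + -L.d x w - L.d y w := by
          rw [ha]
        have h5 : L.d a y + L.d y w + -L.d a w - L.d y w = L.d a y - L.d a w := by abel
        have h6 : L.d x y + L.d y w + -L.d x w - L.d y w = L.d x y - L.d x w := by abel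
        rw [← h5, ← h6, h4]
      have h7 : L.d x y - L.d a y + L.d a w = L.d x y - (L.d a y - L.d a w) := by abel
      rw [h7, this]; abel
    rw [e1, e2, zero_add, add_zero]
  obtain ⟨u, hu⟩ := P2' L hL {x, z, y, w} (fun v => if v = y then L.d x y else if v = w then L.d x w
    else L.d x y - L.d v y)
  have hy : L.d u y = L.d x y := by rw [hu y (by simp)]; simp
  have hw : L.d u w = L.d x w := by
    rw [hu w (by simp)]
    by_cases h1 : w = y
    · rw [if_pos h1, h1]
    · rw [if_neg h1, if_pos rfl]
  have hgen : ∀ a ∈ ({x, z, y, w} : Finset V), hol L a y w = hol L x y w →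
      L.d u a = L.d x y - L.d a y := by
    intro a ha ha'
    by_cases h1 : a = y
    · subst h1
      rw [hy, L.diag, sub_zero]
    · by_cases h2 : a = w
      · subst h2
        rw [hw]
        unfold hol at ha'
        rw [L.diag, L.alt a x, add_zero] at ha'
        rw [L.alt y a] at ha'
        have h4 : L.d x y + -L.d a y + -L.d x a + L.d x a = L.d a y + -L.d a y + L.d x a := by
          rw [← ha']
        have h5 : L.d x y + -L.d a y + -L.d x a + L.d x a = L.d x y - L.d a y := by abel
        have h6 : L.d a y + -L.d a y + L.d x a = L.d x a := by abel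
        rw [← h5, h4, h6]
      · rw [hu a ha, if_neg h1, if_neg h2]
  rw [key x rfl u hy hw (hgen x (by simp) rfl), key z h.symm u hy hw (hgen z (by simp) h.symm)]

/-- the class depends only on the third vertex and the holonomy -/
theorem B1 (u x v y z : V) (h : hol L u x z = hol L v y z) : TT L hL u x z = TT L hL v y z := by
  obtain ⟨p, hp⟩ := P2' L hL {x, y, z} (fun a => if a = z then 0 else hol L u x z - L.d a z)
  have hz : L.d p z = 0 := by rw [hp z (by simp)]; simp
  have hx : x ≠ z → hol L p x z = hol L u x z := by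
    intro hxz
    have h1 : L.d p x = hol L u x z - L.d x z := by
      rw [hp x (by simp), if_neg hxz]
    have h2 : hol L p x z = L.d p x + L.d x z - L.d p z := by
      unfold hol; rw [L.alt z p]; abel
    rw [h2, h1, hz]; abel
  have hy : y ≠ z → hol L p y z = hol L u x z := by
    intro hxz
    have h1 : L.d p y = hol L u x z - L.d y z := by
      rw [hp y (by simp), if_neg hxz]
    have h2 : hol L p y z = L.d p y + L.d y z - L.d p z := by
      unfold hol; rw [L.alt z p]; abel
    rw [h2, h1, hz]; abel
  have hdeg : ∀ a b, hol L a b b = 0 := by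
    intro a b
    unfold hol
    rw [L.diag, L.alt b a]; abel
  have hdeg' : ∀ a b, TT L hL a b b = 0 := fun a b => TT_zero' L hL a b b (hdeg a b)
  by_cases hxz : x = z
  · subst hxz
    rw [hdeg] at h
    rw [hdeg', TT_zero' L hL v y x h.symm]
  · by_cases hyz : y = z
    · subst hyz
      rw [hdeg] at h
      rw [hdeg', TT_zero' L hL u x y h]
    · rw [B0 L hL u p x z (hx hxz).symm, B0 L hL v p y z (by rw [hy hyz, h])]
      -- change the second vertex
      have h1 : hol L x z p = hol L y z p := by
        rw [← hol_rot L p x z, ← hol_rot L p y z, hx hxz, hy hyz]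
      rw [TT_rot L hL p x z, TT_rot L hL p y z]
      exact B0 L hL x y z p h1

/-- the class depends only on the holonomy -/
theorem B2 (a b c a' b' c' : V) (h : hol L a b c = hol L a' b' c') :
    TT L hL a b c = TT L hL a' b' c' := by
  by_cases hc : c = c'
  · subst hc
    exact B1 L hL a b a' b' c h
  · obtain ⟨p, hp⟩ := P2' L hL {c, c'} (fun v => if v = c then 0 else hol L a b c - L.d c' c)
    have h1 : L.d p c = 0 := by rw [hp c (by simp)]; simp
    have h2 : L.d p c' = hol L a b c - L.d c' c := by
      rw [hp c' (by simp), if_neg (Ne.symm hc)]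
    have h3 : hol L p c' c = hol L a b c := by
      have : hol L p c' c = L.d p c' + L.d c' c - L.d p c := by
        unfold hol; rw [L.alt c p]; abel
      rw [this, h1, h2]; abel
    rw [B1 L hL a b p c' c h3.symm, TT_rot, TT_rot]
    apply B1
    rw [← hol_rot, ← hol_rot, h3, h]

/-- all triangles are trivial -/
theorem TT_all (x y z : V) : TT L hL x y z = 0 := by
  by_cases hyx : y = x
  · subst hyx
    apply TT_zero; rw [L.diag, zero_add]
  by_cases hyz : y = z
  · subst hyz
    apply TT_zero; rw [L.diag, add_zero]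
  by_cases hxz : x = z
  · subst hxz
    apply TT_zero; rw [L.diag, L.alt x y]; abel
  obtain ⟨k, hk⟩ := hL.div (hol L x y z)
  obtain ⟨w, hw⟩ := P2' L hL {x, y, z} (fun v => if v = y then 0 else if v = x then k - L.d x y
    else L.d y z - k)
  have h1 : L.d w y = 0 := by rw [hw y (by simp)]; simp
  have h2 : L.d w x = k - L.d x y := by
    rw [hw x (by simp), if_neg (Ne.symm hyx), if_pos rfl]
  have h3 : L.d w z = L.d y z - k := by
    rw [hw z (by simp), if_neg (Ne.symm hyz), if_neg (Ne.symm hxz)]
  have e1 : hol L w x y = k := by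
    unfold hol; rw [L.alt y w, h1, h2]; abel
  have e2 : hol L w y z = k := by
    unfold hol; rw [L.alt z w, h1, h3]; abel
  have e3 : TT L hL w x z = 0 := by
    apply TT_zero
    rw [h2, h3]
    unfold hol at hk
    have h4 : k - L.d x y + L.d x z - (L.d y z - k) = k + k - (L.d x y + L.d y z + L.d z x) := by
      rw [L.alt z x]; abel
    rw [← sub_eq_zero, h4, hk, sub_self]
  rw [TT_four L hL w x y z, e3, add_zero, B2 L hL w x y w y z (by rw [e1, e2]), add_self']

/-- standard paths are differences -/
theorem EE_diff (a0 a a' : V) : EE L hL a a' = EE L hL a0 a + EE L hL a0 a' := by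
  have := TT_all L hL a0 a a'
  unfold TT at this
  apply eq_of_add
  rw [← this]
  abel

theorem X_formula {a a' b : V} (h1 : G.Adj a b) (h2 : G.Adj a' b) (a0 : V) :
    X G a a' b = (Y G a (nn L hL a) b + EE L hL a0 a) + (Y G a' (nn L hL a') b + EE L hL a0 a') := by
  have h := EE_eq L hL h1 h2
  rw [EE_diff L hL a0] at h
  unfold F0 at h
  apply eq_of_add
  have e : X G a a' b + (Y G a (nn L hL a) b + EE L hL a0 a + (Y G a' (nn L hL a') b + EE L hL a0 a')) =
    (Y G a (nn L hL a) b + X G a a' b + Y G a' (nn L hL a') b) + (EE L hL a0 a + EE L hL a0 a') := by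
    abel
  rw [e, ← h, add_self']

theorem Y_formula {a b b' : V} (h1 : G.Adj a b) (h2 : G.Adj a b') (a0 : V) :
    Y G a b b' = (Y G a (nn L hL a) b + EE L hL a0 a) + (Y G a (nn L hL a) b' + EE L hL a0 a) := by
  have h := Q3 (nn_adj L hL a) h1 h2
  apply eq_of_add
  rw [← h]
  rw [show Y G a b b' + (Y G a (nn L hL a) b + EE L hL a0 a +
    (Y G a (nn L hL a) b + Y G a b b' + EE L hL a0 a)) =
    (Y G a b b' + Y G a b b') + (Y G a (nn L hL a) b + Y G a (nn L hL a) b) +
    (EE L hL a0 a + EE L hL a0 a) by abel]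
  simp only [add_self', add_zero]

end E

end

end Pool.Agent.Y402.CN
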