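import Pool.Agent.Y402.CN.Hom3

/-!
# Vanishing of the homology of the box complex of a universal labelled graph up to dimension two
-/

set_option autoImplicit false

namespace Pool.Agent.Y402.CN

open Classical Finset

attribute [-instance] instDecidableEqProd

noncomputable section

variable {V M : Type} {G : SimpleGraph V} [AddCommGroup M] {τ : M}

/-- a linear map with prescribed values on the simplices -/
def lin {W Q : Type} [AddCommGroup Q] [Module (ZMod 2) Q] (F : Finset W → Q) :
    Chain W →ₗ[ZMod 2] Q := Finsupp.linearCombination (ZMod 2) F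

theorem lin_sg {W Q : Type} [AddCommGroup Q] [Module (ZMod 2) Q] (F : Finset W → Q)
    (a : Finset W) : lin F (sg a) = F a := by
  unfold lin sg
  rw [Finsupp.linearCombination_single, one_smul]

theorem lin_bd {W Q : Type} [AddCommGroup Q] [Module (ZMod 2) Q] (F : Finset W → Q)
    (a : Finset W) : lin F (bd W (sg a)) = ∑ w ∈ a, F (a.erase w) := by
  rw [bd_sg, map_sum]
  exact Finset.sum_congr rfl fun w _ => lin_sg F _

/-- value on mixed edges -/
def psi {Q : Type} [Zero Q] (y : V → V → Q) (a : Finset (V × Bool)) : Q :=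
  if h : ∃ p : V × V, a = {(p.1, false), (p.2, true)} then y h.choose.1 h.choose.2 else 0

theorem psi_mixed {Q : Type} [Zero Q] (y : V → V → Q) (a b : V) :
    psi y {(a, false), (b, true)} = y a b := by
  unfold psi
  have h : ∃ p : V × V, ({(a, false), (b, true)} : Finset (V × Bool)) = {(p.1, false), (p.2, true)} :=
    ⟨(a, b), rfl⟩
  rw [dif_pos h]
  have hs := h.choose_spec
  have h1 : ((h.choose.1, false) : V × Bool) ∈ ({(a, false), (b, true)} : Finset (V × Bool)) :=
    (Finset.ext_iff.1 hs _).2 (by simp)
  have h2 : ((h.choose.2, true) : V × Bool) ∈ ({(a, false), (b, true)} : Finset (V × Bool)) :=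
    (Finset.ext_iff.1 hs _).2 (by simp)
  simp only [Finset.mem_insert, Finset.mem_singleton, Prod.mk.injEq, Bool.false_eq_true,
    Bool.true_eq_false, and_false, and_true, or_false, false_or] at h1 h2
  rw [h1, h2]

theorem psi_nm {Q : Type} [Zero Q] (y : V → V → Q) (a : Finset (V × Bool)) (h : nm a) :
    psi y a = 0 := by
  unfold psi
  rw [dif_neg]
  rintro ⟨p, rfl⟩
  rcases h with h | h
  · have := h (p.2, true) (by simp)
    simp at this
  · have := h (p.1, false) (by simp)
    simp at this

/-- the cone operator -/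
def cone {W : Type} (x : W) (a : Finset W) : Chain W := if x ∈ a then 0 else sg (insert x a)

theorem bd_cone {W : Type} (x : W) (a : Finset W) :
    bd W (cone x a) = sg a + lin (cone x) (bd W (sg a)) := by
  rw [lin_bd]
  unfold cone
  by_cases hx : x ∈ a
  · rw [if_pos hx, map_zero]
    rw [Finset.sum_eq_single x]
    · rw [if_neg (Finset.notMem_erase x a), Finset.insert_erase hx, add_self']
    · intro w hw hwx
      rw [if_pos]
      exact Finset.mem_erase.2 ⟨hwx.symm, hx⟩
    · intro h; exact absurd hx h
  · rw [if_neg hx, bd_sg, sum_insert_erase sg x a hx]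
    congr 1
    refine Finset.sum_congr rfl fun w _ => ?_
    rw [if_neg]
    exact fun h => hx (Finset.mem_of_mem_erase h)

/-- the cone in the part of a simplex -/
def kone (l r : V × Bool) (a : Finset (V × Bool)) : Chain (V × Bool) :=
  if ∀ w ∈ a, w.2 = false then cone l a else cone r a

theorem nm_fill (l r : V × Bool) (hl : l.2 = false) (hr : r.2 = true) (f : Chain (V × Bool))
    (hf : ∀ a ∈ f.support, nm a ∧ a.card = 3) (hb : bd (V × Bool) f = 0) :
    ∃ g : Chain (V × Bool), (∀ a ∈ g.support, nm a ∧ a.card = 4) ∧ bd (V × Bool) g = f := by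
  -- the cone of a simplex
  have hmem : ∀ a ∈ f.support, kone l r a ∈ On (fun b : Finset (V × Bool) => nm b ∧ b.card = 4) := by
    intro a ha
    obtain ⟨hn, h3⟩ := hf a ha
    unfold kone
    split_ifs with h
    · unfold cone
      split_ifs with hla
      · exact Submodule.zero_mem _
      · refine sg_mem ⟨Or.inl ?_, by rw [Finset.card_insert_of_notMem hla, h3]⟩
        intro w hw
        rcases Finset.mem_insert.1 hw with rfl | hw
        · exact hl
        · exact h w hw
    · have hn' : ∀ w ∈ a, w.2 = true := hn.resolve_left h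
      unfold cone
      split_ifs with hla
      · exact Submodule.zero_mem _
      · refine sg_mem ⟨Or.inr ?_, by rw [Finset.card_insert_of_notMem hla, h3]⟩
        intro w hw
        rcases Finset.mem_insert.1 hw with rfl | hw
        · exact hr
        · exact hn' w hw
  have hsub : ∀ a : Finset (V × Bool), nm a → 2 ≤ a.card → ∀ w ∈ a,
      ((∀ v ∈ a.erase w, v.2 = false) ↔ ∀ v ∈ a, v.2 = false) := by
    intro a hn hc w hw
    refine ⟨fun h => ?_, fun h v hv => h v (Finset.mem_of_mem_erase hv)⟩
    rcases hn with hn | hn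
    · exact hn
    · exfalso
      have h1 : 0 < (a.erase w).card := by rw [Finset.card_erase_of_mem hw]; omega
      obtain ⟨v, hv⟩ := Finset.card_pos.1 h1
      have h2 := h v hv
      rw [hn v (Finset.mem_of_mem_erase hv)] at h2
      simp at h2
  have key : (bd (V × Bool)).comp (lin (kone l r)) f =
      ((LinearMap.id : Chain (V × Bool) →ₗ[ZMod 2] Chain (V × Bool)) +
        (lin (kone l r)).comp (bd (V × Bool)) :
        Chain (V × Bool) →ₗ[ZMod 2] Chain (V × Bool)) f := by
    refine eq_of_support _ _ f fun a ha => ?_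
    obtain ⟨hn, h3⟩ := hf a ha
    simp only [LinearMap.comp_apply, LinearMap.add_apply, LinearMap.id_apply]
    rw [lin_sg, lin_bd]
    have hs := hsub a hn (by omega)
    by_cases h : ∀ w ∈ a, w.2 = false
    · rw [kone, if_pos h, bd_cone, lin_bd]
      congr 1
      refine Finset.sum_congr rfl fun w hw => ?_
      rw [kone, if_pos ((hs w hw).2 h)]
    · rw [kone, if_neg h, bd_cone, lin_bd]
      congr 1
      refine Finset.sum_congr rfl fun w hw => ?_
      rw [kone, if_neg (fun h' => h ((hs w hw).1 h'))]
  simp only [LinearMap.comp_apply, LinearMap.add_apply, LinearMap.id_apply] at key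
  rw [hb, map_zero, add_zero] at key
  refine ⟨lin (kone l r) f, ?_, key⟩
  have : lin (kone l r) f ∈ On (fun b : Finset (V × Bool) => nm b ∧ b.card = 4) := by
    unfold lin
    rw [Finsupp.linearCombination_apply, Finsupp.sum]
    exact Submodule.sum_mem _ fun a ha => Submodule.smul_mem _ _ (hmem a ha)
  exact mem_On.1 this

theorem box_nm (a : Finset (V × Bool)) (h : nm a) : Box G a := by
  intro v w hv hw
  rcases h with h | h
  · have := h _ hw; simp at this
  · have := h _ hv; simp at this

theorem card3 {x y z : V × Bool} (h1 : x ≠ y) (h2 : x ≠ z) (h3 : y ≠ z) :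
    ({x, y, z} : Finset (V × Bool)).card = 3 := by
  rw [Finset.card_insert_of_notMem (by simp [h1, h2]), Finset.card_pair h3]

/-- the second homology vanishes -/
theorem homVan3 (L : Lab G M τ) (hL : L.Uni) : HomVan (Box G) 3 := by
  intro f hf hb
  obtain ⟨a0⟩ := hL.ne
  let y : V → V → Chain (V × Bool) ⧸ PP G := fun a b => Y G a (nn L hL a) b + EE L hL a0 a
  have hC : ∀ x1 x2 x3 : V × Bool, x1 ≠ x2 → x1 ≠ x3 → x2 ≠ x3 → Box G {x1, x2, x3} →
      cl G (sg {x1, x2, x3}) = psi y {x2, x3} + (psi y {x1, x3} + psi y {x1, x2}) := by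
    have hs1 : ∀ x1 x2 x3 : V × Bool,
        cl G (sg {x2, x1, x3}) = psi y {x1, x3} + (psi y {x2, x3} + psi y {x2, x1}) →
        cl G (sg {x1, x2, x3}) = psi y {x2, x3} + (psi y {x1, x3} + psi y {x1, x2}) := by
      intro x1 x2 x3 h
      rw [Finset.insert_comm x1 x2, h, Finset.pair_comm x2 x1]
      abel
    have hs2 : ∀ x1 x2 x3 : V × Bool,
        cl G (sg {x1, x3, x2}) = psi y {x3, x2} + (psi y {x1, x2} + psi y {x1, x3}) →
        cl G (sg {x1, x2, x3}) = psi y {x2, x3} + (psi y {x1, x3} + psi y {x1, x2}) := by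
      intro x1 x2 x3 h
      rw [Finset.pair_comm x2 x3, h]
      abel
    -- the two standard forms
    have hA : ∀ a a' b : V, a ≠ a' → G.Adj a b → G.Adj a' b →
        cl G (sg {(a, false), (a', false), (b, true)}) = psi y {(a', false), (b, true)} +
          (psi y {(a, false), (b, true)} + psi y {(a, false), (a', false)}) := by
      intro a a' b hne h1 h2
      rw [psi_mixed, psi_mixed, psi_nm y {(a, false), (a', false)} (Or.inl (by simp))]
      have := X_formula L hL h1 h2 a0
      have e : X G a a' b = cl G (sg {(a, false), (a', false), (b, true)}) := if_neg hne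
      rw [← e, this]
      simp only [y]
      abel
    have hB : ∀ a b b' : V, b ≠ b' → G.Adj a b → G.Adj a b' →
        cl G (sg {(a, false), (b, true), (b', true)}) = psi y {(b, true), (b', true)} +
          (psi y {(a, false), (b', true)} + psi y {(a, false), (b, true)}) := by
      intro a b b' hne h1 h2
      rw [psi_mixed, psi_mixed, psi_nm y {(b, true), (b', true)} (Or.inr (by simp))]
      have := Y_formula L hL h1 h2 a0
      have e : Y G a b b' = cl G (sg {(a, false), (b, true), (b', true)}) := if_neg hne
      rw [← e, this]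
      simp only [y]
      abel
    rintro ⟨a, i⟩ ⟨b, j⟩ ⟨c, k⟩ h12 h13 h23 hbox
    rcases i with _ | _ <;> rcases j with _ | _ <;> rcases k with _ | _
    · rw [cl_nm _ (Or.inl (by simp)) (card3 h12 h13 h23), psi_nm y _ (Or.inl (by simp)),
        psi_nm y _ (Or.inl (by simp)), psi_nm y _ (Or.inl (by simp)), add_zero, add_zero]
    · exact hA a b c (by simpa using h12) (hbox a c (by simp) (by simp)) (hbox b c (by simp) (by simp))
    · apply hs2
      exact hA a c b (by simpa using h13) (hbox a b (by simp) (by simp)) (hbox c b (by simp) (by simp))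
    · exact hB a b c (by simpa using h23) (hbox a b (by simp) (by simp)) (hbox a c (by simp) (by simp))
    · apply hs1; apply hs2
      exact hA b c a (by simpa using h23) (hbox b a (by simp) (by simp)) (hbox c a (by simp) (by simp))
    · apply hs1
      exact hB b a c (by simpa using h13) (hbox b a (by simp) (by simp)) (hbox b c (by simp) (by simp))
    · apply hs2; apply hs1
      exact hB c a b (by simpa using h12) (hbox c a (by simp) (by simp)) (hbox c b (by simp) (by simp))
    · rw [cl_nm _ (Or.inr (by simp)) (card3 h12 h13 h23), psi_nm y _ (Or.inr (by simp)),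
        psi_nm y _ (Or.inr (by simp)), psi_nm y _ (Or.inr (by simp)), add_zero, add_zero]
  have hcl : cl G f = 0 := by
    have := eq_of_support (cl G) ((lin (psi y)).comp (bd (V × Bool))) f (fun a ha => by
      obtain ⟨hbox, h3⟩ := hf a ha
      obtain ⟨x1, x2, x3, h12, h13, h23, rfl⟩ := Finset.card_eq_three.1 h3
      rw [LinearMap.comp_apply, lin_bd, sum3 (psi y) x1 x2 x3 h12 h13 h23]
      exact hC x1 x2 x3 h12 h13 h23 hbox)
    rw [this, LinearMap.comp_apply, hb, map_zero]
  unfold cl at hcl
  rw [Submodule.mkQ_apply, Submodule.Quotient.mk_eq_zero] at hcl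
  obtain ⟨f1, hf1, f2, hf2, hsum⟩ := Submodule.mem_sup.1 hcl
  obtain ⟨g1, hg1, rfl⟩ := hf1
  have hb2 : bd (V × Bool) f2 = 0 := by
    have := congrArg (bd (V × Bool)) hsum
    rw [map_add, bd_bd, zero_add, hb] at this
    exact this
  obtain ⟨g2, hg2, hg2'⟩ := nm_fill (a0, false) (a0, true) rfl rfl f2 (mem_On.1 hf2) hb2
  refine ⟨g1 + g2, fun a ha => ?_, by rw [map_add, hg2', hsum]⟩
  rcases Finset.mem_union.1 (Finsupp.support_add ha) with h | h
  · exact mem_On.1 hg1 a h
  · exact ⟨box_nm a (hg2 a h).1, (hg2 a h).2⟩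

end

end Pool.Agent.Y402.CN
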