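import Pool.Agent.Y402.CN.HomAll

/-!
# Vanishing of the homology of the box complex of a universal labelled graph, dimensions `-1, 0, 1`
-/

set_option autoImplicit false

namespace Pool.Agent.Y402.CN

open Classical Finset

attribute [-instance] instDecidableEqProd

noncomputable section

variable {V M : Type} {G : SimpleGraph V} [AddCommGroup M] {τ : M}

theorem mkQ_bd {W : Type} (S : Finset W → Prop) (m : ℕ) (a : Finset W) (h : S a) (hc : a.card = m) :
    ((On (fun a => S a ∧ a.card = m)).map (bd W)).mkQ (bd W (sg a)) = 0 := by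
  rw [Submodule.mkQ_apply, Submodule.Quotient.mk_eq_zero]
  exact ⟨sg a, sg_mem ⟨h, hc⟩, rfl⟩

theorem box_single (x : V × Bool) : Box G {x} := by
  intro v w hv hw
  rw [Finset.mem_singleton] at hv hw
  rw [← hv] at hw
  simp at hw

theorem box_pair {a b : V} (h : G.Adj a b) : Box G {(a, false), (b, true)} := by
  intro v w hv hw
  simp only [Finset.mem_insert, Finset.mem_singleton, Prod.mk.injEq, Bool.false_eq_true,
    Bool.true_eq_false, and_false, and_true, or_false, false_or] at hv hw
  subst hv; subst hw; exact h

theorem homVan0 (L : Lab G M τ) (hL : L.Uni) : HomVan (Box G) 0 := by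
  obtain ⟨a0⟩ := hL.ne
  refine homVan_of (Box G) 0 0 fun a _ hc => ?_
  rw [Finset.card_eq_zero] at hc
  subst hc
  have := mkQ_bd (Box G) 1 {(a0, false)} (box_single _) (by simp)
  rw [bd_sg, sum1] at this
  rw [LinearMap.zero_apply]
  exact this

theorem homVan1 (L : Lab G M τ) (hL : L.Uni) : HomVan (Box G) 1 := by
  obtain ⟨a0⟩ := hL.ne
  obtain ⟨b0, hb0, -⟩ := L.nbr2 hL a0 a0
  set π := ((On (fun a => Box G a ∧ a.card = 2)).map (bd (V × Bool))).mkQ with hπ
  have edge : ∀ x y : V × Bool, Box G {x, y} → π (sg {x}) = π (sg {y}) := by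
    intro x y h
    by_cases hxy : x = y
    · rw [hxy]
    · have := mkQ_bd (Box G) 2 {x, y} h (Finset.card_pair hxy)
      rw [bd_sg, sum2 sg x y hxy, map_add] at this
      exact (eq_of_add this).symm
  have all : ∀ x : V × Bool, π (sg {x}) = π (sg {(a0, false)}) := by
    rintro ⟨v, i⟩
    rcases i with _ | _
    · exact edge _ _ (box_nm _ (Or.inl (by simp)))
    · rw [edge (v, true) (b0, true) (box_nm _ (Or.inr (by simp)))]
      exact (edge _ _ (box_pair hb0)).symm
  refine homVan_of (Box G) 1 (lin fun _ => π (sg {(a0, false)})) fun a _ hc => ?_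
  obtain ⟨x, rfl⟩ := Finset.card_eq_one.1 hc
  rw [lin_bd, Finset.sum_singleton]
  exact all x

theorem homVan2 (L : Lab G M τ) (hL : L.Uni) : HomVan (Box G) 2 := by
  obtain ⟨a0⟩ := hL.ne
  obtain ⟨b0, hb0, -⟩ := L.nbr2 hL a0 a0
  set π := ((On (fun a => Box G a ∧ a.card = 3)).map (bd (V × Bool))).mkQ with hπ
  let Z : V × Bool → V × Bool → Chain (V × Bool) ⧸ (On (fun a => Box G a ∧ a.card = 3)).map
    (bd (V × Bool)) := fun x y => if x = y then 0 else π (sg {x, y})
  have Z_self : ∀ x, Z x x = 0 := fun x => if_pos rfl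
  have Z_symm : ∀ x y, Z x y = Z y x := by
    intro x y
    by_cases h : x = y
    · rw [h]
    · simp only [Z]
      rw [if_neg h, if_neg (Ne.symm h), Finset.pair_comm]
  have tri : ∀ x y z : V × Bool, Box G {x, y, z} → Z x y + Z y z = Z x z := by
    intro x y z h
    by_cases h1 : x = y
    · subst h1; rw [Z_self, zero_add]
    by_cases h2 : y = z
    · subst h2; rw [Z_self, add_zero]
    by_cases h3 : x = z
    · subst h3; rw [Z_self, Z_symm y x, add_self']
    have := mkQ_bd (Box G) 3 {x, y, z} h (card3 h1 h3 h2)
    rw [bd_sg, sum3 sg x y z h1 h3 h2, map_add, map_add] at this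
    simp only [Z]
    rw [if_neg h1, if_neg h2, if_neg h3]
    apply eq_of_add
    rw [← this]
    abel
  have nmt : ∀ x y z : V × Bool, x.2 = y.2 → y.2 = z.2 → Z x y + Z y z = Z x z := by
    intro x y z h1 h2
    apply tri
    apply box_nm
    rcases hx : x.2 with _ | _
    · left
      intro w hw
      simp only [Finset.mem_insert, Finset.mem_singleton] at hw
      rcases hw with rfl | rfl | rfl
      · exact hx
      · rw [← h1, hx]
      · rw [← h2, ← h1, hx]
    · right
      intro w hw
      simp only [Finset.mem_insert, Finset.mem_singleton] at hw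
      rcases hw with rfl | rfl | rfl
      · exact hx
      · rw [← h1, hx]
      · rw [← h2, ← h1, hx]
  have bl : ∀ a a' b : V, G.Adj a b → G.Adj a' b →
      Z (a, false) (a', false) + Z (a', false) (b, true) = Z (a, false) (b, true) :=
    fun a a' b h1 h2 => tri _ _ _ (box3l h1 h2)
  have br : ∀ a b b' : V, G.Adj a b → G.Adj a b' →
      Z (a, false) (b, true) + Z (b, true) (b', true) = Z (a, false) (b', true) := by
    intro a b b' h1 h2
    apply tri
    intro v w hv hw
    simp only [Finset.mem_insert, Finset.mem_singleton, Prod.mk.injEq, Bool.false_eq_true,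
      Bool.true_eq_false, and_false, and_true, or_false, false_or] at hv hw
    subst hv
    rcases hw with rfl | rfl <;> assumption
  -- potentials
  let p : V × Bool → Chain (V × Bool) ⧸ (On (fun a => Box G a ∧ a.card = 3)).map
    (bd (V × Bool)) := fun x => if x.2 = false then Z x (a0, false) else
      Z x (b0, true) + Z (a0, false) (b0, true)
  have mixed : ∀ a b : V, G.Adj a b → Z (a, false) (b, true) = p (a, false) + p (b, true) := by
    intro a b h
    obtain ⟨q, hq1, hq2⟩ := L.nbr2 hL a a0
    have e1 := br a q b hq1 h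
    have e2 := bl a a0 q hq1 hq2
    have e3 := br a0 b0 q hb0 hq2
    have e4 := nmt (b, true) (q, true) (b0, true) rfl rfl
    have hp1 : p (a, false) = Z (a, false) (a0, false) := if_pos rfl
    have hp2 : p (b, true) = Z (b, true) (b0, true) + Z (a0, false) (b0, true) := if_neg (by simp)
    rw [hp1, hp2, ← e1, ← e2, ← e3, ← e4, Z_symm (q, true) (b, true), Z_symm (q, true) (b0, true)]
    apply eq_of_add
    rw [show Z (a, false) (a0, false) + (Z (a0, false) (b0, true) + Z (b0, true) (q, true)) +
      Z (b, true) (q, true) + (Z (a, false) (a0, false) + (Z (b, true) (q, true) +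
        Z (b0, true) (q, true) + Z (a0, false) (b0, true))) =
      (Z (a, false) (a0, false) + Z (a, false) (a0, false)) +
      (Z (a0, false) (b0, true) + Z (a0, false) (b0, true)) +
      (Z (b0, true) (q, true) + Z (b0, true) (q, true)) +
      (Z (b, true) (q, true) + Z (b, true) (q, true)) by abel]
    simp only [add_self', add_zero]
  let F : Finset (V × Bool) → Chain (V × Bool) ⧸ (On (fun a => Box G a ∧ a.card = 3)).map
    (bd (V × Bool)) := fun a => if h : ∃ x, a = {x} then p h.choose else 0
  refine homVan_of (Box G) 2 (lin F) fun a ha hc => ?_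
  obtain ⟨x, y, hxy, rfl⟩ := Finset.card_eq_two.1 hc
  rw [lin_bd, sum2 F x y hxy]
  have hsing : ∀ x : V × Bool, F {x} = p x := by
    intro x
    simp only [F]
    have h : ∃ z, ({x} : Finset (V × Bool)) = {z} := ⟨x, rfl⟩
    rw [dif_pos h]
    congr 1
    exact (Finset.singleton_inj.1 h.choose_spec).symm
  rw [hsing, hsing]
  have hZ : Z x y = π (sg {x, y}) := if_neg hxy
  change π (sg {x, y}) = _
  rw [← hZ]
  obtain ⟨v, i⟩ := x
  obtain ⟨w, j⟩ := y
  rcases i with _ | _ <;> rcases j with _ | _
  · have e1 : p (v, false) = Z (v, false) (a0, false) := if_pos rfl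
    have e2 : p (w, false) = Z (w, false) (a0, false) := if_pos rfl
    rw [e1, e2, Z_symm (v, false) (w, false)]
    have := nmt (w, false) (v, false) (a0, false) rfl rfl
    rw [← this]
    rw [add_assoc, add_self', add_zero]
  · rw [mixed v w (ha v w (by simp) (by simp)), add_comm]
  · rw [Z_symm, mixed w v (ha w v (by simp) (by simp))]
  · have e1 : p (v, true) = Z (v, true) (b0, true) + Z (a0, false) (b0, true) := if_neg (by simp)
    have e2 : p (w, true) = Z (w, true) (b0, true) + Z (a0, false) (b0, true) := if_neg (by simp)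
    rw [e1, e2, Z_symm (v, true) (w, true)]
    have := nmt (w, true) (v, true) (b0, true) rfl rfl
    rw [← this]
    rw [show Z (w, true) (v, true) + Z (v, true) (b0, true) + Z (a0, false) (b0, true) +
      (Z (v, true) (b0, true) + Z (a0, false) (b0, true)) = Z (w, true) (v, true) +
      (Z (v, true) (b0, true) + Z (v, true) (b0, true)) +
      (Z (a0, false) (b0, true) + Z (a0, false) (b0, true)) by abel, add_self', add_self', add_zero,
      add_zero]

end

end Pool.Agent.Y402.CN
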