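import Pool.Agent.Y402.CN.HomAll
import Pool.Agent.H370R3.BX.Stmts

/-!
# The homology of a suspension; chains of a finite complex as functions
-/

set_option autoImplicit false

namespace Pool.Agent.Y402.CN

open Classical Finset

attribute [-instance] instDecidableEqSum

noncomputable section

variable {W : Type}

/-- the join of a simplex with a pole -/
def J (p : Bool) (a : Finset W) : Finset (W ⊕ Bool) :=
  insert (Sum.inr p) (a.map Function.Embedding.inl)

theorem J_notMem (p : Bool) (a : Finset W) :
    (Sum.inr p : W ⊕ Bool) ∉ a.map Function.Embedding.inl := by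
  simp

theorem J_toLeft (p : Bool) (a : Finset W) : (J p a).toLeft = a := by
  ext w
  simp [J]

theorem J_card (p : Bool) (a : Finset W) : (J p a).card = a.card + 1 := by
  unfold J
  rw [Finset.card_insert_of_notMem (J_notMem p a), Finset.card_map]

theorem J_susp (S : Finset W → Prop) (p : Bool) (a : Finset W) (h : S a) : Susp S (J p a) := by
  refine ⟨by rwa [J_toLeft], ?_⟩
  rintro ⟨h1, h2⟩
  rcases p with _ | _
  · simp [J] at h2
  · simp [J] at h1

theorem sum_J {Q : Type} [AddCommMonoid Q] (F : Finset (W ⊕ Bool) → Q) (p : Bool) (a : Finset W) :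
    ∑ v ∈ J p a, F ((J p a).erase v) =
      F (a.map Function.Embedding.inl) + ∑ w ∈ a, F (J p (a.erase w)) := by
  unfold J
  rw [sum_insert_erase F (Sum.inr p) _ (J_notMem p a), Finset.sum_map]
  congr 1
  refine Finset.sum_congr rfl fun w _ => ?_
  congr 2
  ext v
  rcases v with v | v
  · simp
  · simp

/-- the part of a chain which contains the first pole -/
def R (b : Finset (W ⊕ Bool)) : Chain W := if Sum.inr false ∈ b then sg b.toLeft else 0

theorem R_J (a : Finset W) : R (J false a) = sg a := by
  unfold R
  rw [if_pos (by simp [J]), J_toLeft]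

theorem R_J' (a : Finset W) : R (J true a) = 0 := by
  unfold R
  rw [if_neg (by simp [J])]

theorem eq_J (b : Finset (W ⊕ Bool)) (h : Sum.inr false ∈ b) (h' : Sum.inr true ∉ b) :
    b = J false b.toLeft := by
  ext v
  rcases v with v | v
  · simp [J]
  · rcases v with _ | _
    · simp [J, h]
    · simp [J, h']

theorem R_bd (S : Finset W → Prop) (b : Finset (W ⊕ Bool)) (hb : Susp S b) :
    lin R (bd (W ⊕ Bool) (sg b)) = bd W (R b) := by
  rw [lin_bd]
  by_cases h : Sum.inr false ∈ b
  · have h' : Sum.inr true ∉ b := fun h' => hb.2 ⟨h, h'⟩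
    rw [eq_J b h h', sum_J, R_J, bd_sg]
    have : R (b.toLeft.map Function.Embedding.inl) = 0 := by
      unfold R
      rw [if_neg (J_notMem false _)]
    rw [this, zero_add]
    exact Finset.sum_congr rfl fun w _ => R_J _
  · rw [Finset.sum_eq_zero]
    · unfold R
      rw [if_neg h, map_zero]
    · intro v _
      unfold R
      rw [if_neg (fun h' => h (Finset.mem_of_mem_erase h'))]

theorem homVan_of_susp (S : Finset W → Prop) (m : ℕ) (h : HomVan (Susp S) (m + 1)) :
    HomVan S m := by
  intro f hf hb
  let F : Chain (W ⊕ Bool) := lin (fun a => sg (J false a) + sg (J true a)) f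
  have hF : ∀ b ∈ F.support, Susp S b ∧ b.card = m + 1 := by
    have : F ∈ On (fun b : Finset (W ⊕ Bool) => Susp S b ∧ b.card = m + 1) := by
      change Finsupp.linearCombination (ZMod 2) _ f ∈ _
      rw [Finsupp.linearCombination_apply, Finsupp.sum]
      refine Submodule.sum_mem _ fun a ha => Submodule.smul_mem _ _ (Submodule.add_mem _ ?_ ?_)
      · exact sg_mem ⟨J_susp S false a (hf a ha).1, by rw [J_card, (hf a ha).2]⟩
      · exact sg_mem ⟨J_susp S true a (hf a ha).1, by rw [J_card, (hf a ha).2]⟩
    exact mem_On.1 this
  have hbF : bd (W ⊕ Bool) F = 0 := by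
    have key := eq_of_support ((bd (W ⊕ Bool)).comp (lin (fun a => sg (J false a) + sg (J true a))))
      ((lin (fun a => sg (J false a) + sg (J true a))).comp (bd W)) f (fun a _ => by
        simp only [LinearMap.comp_apply]
        rw [lin_sg, lin_bd, map_add, bd_sg, bd_sg, sum_J sg, sum_J sg, Finset.sum_add_distrib]
        rw [show sg (Finset.map Function.Embedding.inl a) + ∑ w ∈ a, sg (J false (a.erase w)) +
          (sg (Finset.map Function.Embedding.inl a) + ∑ w ∈ a, sg (J true (a.erase w))) =
          (sg (Finset.map Function.Embedding.inl a) + sg (Finset.map Function.Embedding.inl a)) +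
          (∑ w ∈ a, sg (J false (a.erase w)) + ∑ w ∈ a, sg (J true (a.erase w))) by abel,
          add_self', zero_add])
    simp only [LinearMap.comp_apply] at key
    rw [hb, map_zero] at key
    exact key
  obtain ⟨g, hg, hg'⟩ := h F hF hbF
  refine ⟨lin R g, ?_, ?_⟩
  · have : lin R g ∈ On (fun a : Finset W => S a ∧ a.card = m + 1) := by
      unfold lin
      rw [Finsupp.linearCombination_apply, Finsupp.sum]
      refine Submodule.sum_mem _ fun b hb => Submodule.smul_mem _ _ ?_
      unfold R
      split_ifs with h1
      · obtain ⟨h2, h3⟩ := hg b hb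
        refine sg_mem ⟨h2.1, ?_⟩
        have h4 : b = J false b.toLeft := eq_J b h1 fun h' => h2.2 ⟨h1, h'⟩
        have h5 := J_card false b.toLeft
        rw [← h4, h3] at h5
        omega
      · exact Submodule.zero_mem _
    exact mem_On.1 this
  · have e1 := eq_of_support ((lin R).comp (bd (W ⊕ Bool))) ((bd W).comp (lin R)) g (fun b hb => by
      simp only [LinearMap.comp_apply]
      rw [R_bd S b (hg b hb).1, lin_sg])
    simp only [LinearMap.comp_apply] at e1
    rw [← e1, hg']
    have e2 := eq_of_support ((lin R).comp (lin (fun a => sg (J false a) + sg (J true a))))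
      LinearMap.id f (fun a _ => by
        simp only [LinearMap.comp_apply, LinearMap.id_apply]
        rw [lin_sg, map_add, lin_sg, lin_sg, R_J, R_J', add_zero])
    simpa using e2

/-- the boundary of a chain of a finite complex -/
theorem bd_apply [Fintype W] (f : Chain W) (a : Finset W) :
    bd W f a = ∑ w ∈ Finset.univ \ a, f (insert w a) := by
  induction f using Finsupp.induction_linear with
  | zero => simp
  | add f g hf hg =>
    rw [map_add, Finsupp.add_apply, hf, hg, ← Finset.sum_add_distrib]
    rfl
  | single b c =>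
    have e : (Finsupp.single b c : Chain W) = c • sg b := by
      unfold sg
      rw [Finsupp.smul_single, smul_eq_mul, mul_one]
    rw [e, map_smul, bd_sg, Finsupp.smul_apply, smul_eq_mul, Finsupp.finsetSum_apply,
      Finset.mul_sum]
    have h1 : ∀ w ∈ b, c * (sg (b.erase w) : Chain W) a = if b.erase w = a then c else 0 := by
      intro w _
      unfold sg
      rw [Finsupp.single_apply]
      split_ifs <;> simp
    have h2 : ∀ w ∈ Finset.univ \ a, (c • sg b : Chain W) (insert w a) =
        if b = insert w a then c else 0 := by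
      intro w _
      unfold sg
      rw [Finsupp.smul_apply, Finsupp.single_apply, smul_eq_mul]
      split_ifs <;> simp
    rw [Finset.sum_congr rfl h1, Finset.sum_congr rfl h2, ← Finset.sum_filter, ← Finset.sum_filter]
    congr 1
    ext w
    simp only [mem_filter, mem_sdiff, mem_univ, true_and]
    constructor
    · rintro ⟨hw, rfl⟩
      exact ⟨Finset.notMem_erase w b, (Finset.insert_erase hw).symm⟩
    · rintro ⟨hw, rfl⟩
      exact ⟨Finset.mem_insert_self _ _, Finset.erase_insert hw⟩

theorem acyc2_of_homVan [Fintype W] (S : Finset W → Prop) (m : ℕ) (h : HomVan S m) :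
    Pool.Agent.H370R3.BX.Acyc2 W S m := by
  intro f hf hb
  let f' : Chain W := Finsupp.equivFunOnFinite.symm f
  have hf' : ∀ a, f' a = f a := fun a => rfl
  obtain ⟨g, hg, hg'⟩ := h f' (fun a ha => hf a (by rwa [Finsupp.mem_support_iff] at ha)) (by
    ext a
    rw [bd_apply]
    simp only [hf']
    exact hb a)
  refine ⟨g, fun a ha => hg a (Finsupp.mem_support_iff.2 ha), fun a => ?_⟩
  rw [← bd_apply, hg']
  rfl

end

end Pool.Agent.Y402.CN
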